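import Mathlib

/-! Dissections of an integer box by axis-parallel pieces. -/

namespace Pool.Agent.Helper23.BG

/-- A box together with vertical pieces (one at each `x ∈ V`) and horizontal pieces. -/
structure Dis where
  x0 : ℤ
  x1 : ℤ
  y0 : ℤ
  y1 : ℤ
  V : Finset ℤ
  H : Finset ℤ
  vlo : ℤ → ℤ
  vhi : ℤ → ℤ
  hlo : ℤ → ℤ
  hhi : ℤ → ℤ

/-- Every end of a piece lies on the boundary of the box or in the interior of a perpendicular
piece, and no two pieces cross. -/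
structure Dis.Ok (D : Dis) : Prop where
  hx : D.x0 < D.x1
  hy : D.y0 < D.y1
  vx : ∀ x ∈ D.V, D.x0 < x ∧ x < D.x1
  hyy : ∀ y ∈ D.H, D.y0 < y ∧ y < D.y1
  vlt : ∀ x ∈ D.V, D.vlo x < D.vhi x
  hlt : ∀ y ∈ D.H, D.hlo y < D.hhi y
  vl : ∀ x ∈ D.V, D.vlo x = D.y0 ∨
    (D.vlo x ∈ D.H ∧ D.hlo (D.vlo x) < x ∧ x < D.hhi (D.vlo x))
  vh : ∀ x ∈ D.V, D.vhi x = D.y1 ∨
    (D.vhi x ∈ D.H ∧ D.hlo (D.vhi x) < x ∧ x < D.hhi (D.vhi x))
  hl : ∀ y ∈ D.H, D.hlo y = D.x0 ∨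
    (D.hlo y ∈ D.V ∧ D.vlo (D.hlo y) < y ∧ y < D.vhi (D.hlo y))
  hh : ∀ y ∈ D.H, D.hhi y = D.x1 ∨
    (D.hhi y ∈ D.V ∧ D.vlo (D.hhi y) < y ∧ y < D.vhi (D.hhi y))
  nc : ∀ x ∈ D.V, ∀ y ∈ D.H,
    ¬ (D.vlo x < y ∧ y < D.vhi x ∧ D.hlo y < x ∧ x < D.hhi y)

/-- Exchange of the coordinates. -/
def Dis.swap (D : Dis) : Dis := ⟨D.y0, D.y1, D.x0, D.x1, D.H, D.V, D.hlo, D.hhi, D.vlo, D.vhi⟩

/-- Reflection `x ↦ -x`. -/
def Dis.flipX (D : Dis) : Dis :=
  ⟨-D.x1, -D.x0, D.y0, D.y1, D.V.image (fun x => -x), D.H,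
    fun x => D.vlo (-x), fun x => D.vhi (-x), fun y => -D.hhi y, fun y => -D.hlo y⟩

/-- Reflection `y ↦ -y`. -/
def Dis.flipY (D : Dis) : Dis := D.swap.flipX.swap

theorem mem_neg_image {s : Finset ℤ} {x : ℤ} : x ∈ s.image (fun x => -x) ↔ -x ∈ s := by
  simp only [Finset.mem_image]
  constructor
  · rintro ⟨a, ha, rfl⟩; simpa using ha
  · intro h; exact ⟨-x, h, by simp⟩

theorem Dis.Ok.swap {D : Dis} (h : D.Ok) : D.swap.Ok where
  hx := h.hy
  hy := h.hx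
  vx := h.hyy
  hyy := h.vx
  vlt := h.hlt
  hlt := h.vlt
  vl := h.hl
  vh := h.hh
  hl := h.vl
  hh := h.vh
  nc := fun x hx y hy hc => h.nc y hy x hx ⟨hc.2.2.1, hc.2.2.2, hc.1, hc.2.1⟩

theorem Dis.Ok.flipX {D : Dis} (h : D.Ok) : D.flipX.Ok where
  hx := by have := h.hx; simp only [Dis.flipX]; omega
  hy := h.hy
  vx := by
    intro x hx
    have := h.vx (-x) (mem_neg_image.1 hx)
    simp only [Dis.flipX]; omega
  hyy := h.hyy
  vlt := fun x hx => h.vlt (-x) (mem_neg_image.1 hx)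
  hlt := by
    intro y hy
    have := h.hlt y hy
    simp only [Dis.flipX]; omega
  vl := by
    intro x hx
    rcases h.vl (-x) (mem_neg_image.1 hx) with h1 | ⟨h1, h2, h3⟩
    · exact Or.inl h1
    · refine Or.inr ⟨h1, ?_, ?_⟩ <;> simp only [Dis.flipX] <;> omega
  vh := by
    intro x hx
    rcases h.vh (-x) (mem_neg_image.1 hx) with h1 | ⟨h1, h2, h3⟩
    · exact Or.inl h1
    · refine Or.inr ⟨h1, ?_, ?_⟩ <;> simp only [Dis.flipX] <;> omega
  hl := by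
    intro y hy
    rcases h.hh y hy with h1 | ⟨h1, h2, h3⟩
    · left; simp only [Dis.flipX]; omega
    · right
      simp only [Dis.flipX, neg_neg]
      exact ⟨mem_neg_image.2 (by simpa using h1), h2, h3⟩
  hh := by
    intro y hy
    rcases h.hl y hy with h1 | ⟨h1, h2, h3⟩
    · left; simp only [Dis.flipX]; omega
    · right
      simp only [Dis.flipX, neg_neg]
      exact ⟨mem_neg_image.2 (by simpa using h1), h2, h3⟩
  nc := by
    intro x hx y hy hc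
    simp only [Dis.flipX] at hc
    exact h.nc (-x) (mem_neg_image.1 hx) y hy (by omega)

theorem Dis.Ok.flipY {D : Dis} (h : D.Ok) : D.flipY.Ok := h.swap.flipX.swap

/-- The infinite descent behind the face lemma. -/
theorem bump {D : Dis} (h : D.Ok) {p q a t : ℤ} (hp1 : p < D.x1) (hq0 : D.y0 ≤ q)
    (ha : ∀ x ∈ D.V, x ≤ p → D.vlo x ≤ q → q < D.vhi x → x ≤ a)
    (ht : ∀ y ∈ D.H, q < y → D.hlo y ≤ p → p < D.hhi y → t ≤ y) :
    ∀ (n : ℕ) (y : ℤ), y ∈ D.H → q < y → y < t → a < D.hhi y → D.hhi y ≤ p → y - q ≤ n →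
      False := by
  intro n
  induction n with
  | zero => intro y _ h1 _ _ _ h2; omega
  | succ n ih =>
    intro y hy hqy hyt hay hyp hn
    rcases h.hh y hy with h1 | ⟨h1, h2, h3⟩
    · omega
    · by_cases hc : D.vlo (D.hhi y) ≤ q
      · have := ha _ h1 hyp hc (by omega)
        omega
      · rcases h.vl _ h1 with h4 | ⟨h4, h5, h6⟩
        · omega
        · by_cases hd : p < D.hhi (D.vlo (D.hhi y))
          · have := ht _ h4 (by omega) (by omega) hd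
            omega
          · exact ih _ h4 (by omega) (by omega) (by omega) (by omega) (by omega)

end Pool.Agent.Helper23.BG
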