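import Mathlib
import Pool.Agent.Helper23.BG.Dis

/-! The face lemma: every unit cell of a dissection lies in a rectangular face. -/

namespace Pool.Agent.Helper23.BG

/-- `a, b, c, t` are the coordinates of the nearest pieces (or sides of the box) to the left,
right, below and above the unit cell with lower left corner `(p, q)`. -/
structure IsCell (D : Dis) (p q a b c t : ℤ) : Prop where
  a0 : D.x0 ≤ a
  ap : a ≤ p
  pb : p < b
  b1 : b ≤ D.x1
  c0 : D.y0 ≤ c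
  cq : c ≤ q
  qt : q < t
  t1 : t ≤ D.y1
  al : a = D.x0 ∨ (a ∈ D.V ∧ D.vlo a ≤ q ∧ q < D.vhi a)
  bl : b = D.x1 ∨ (b ∈ D.V ∧ D.vlo b ≤ q ∧ q < D.vhi b)
  cl : c = D.y0 ∨ (c ∈ D.H ∧ D.hlo c ≤ p ∧ p < D.hhi c)
  tl : t = D.y1 ∨ (t ∈ D.H ∧ D.hlo t ≤ p ∧ p < D.hhi t)
  am : ∀ x ∈ D.V, x ≤ p → D.vlo x ≤ q → q < D.vhi x → x ≤ a
  bm : ∀ x ∈ D.V, p < x → D.vlo x ≤ q → q < D.vhi x → b ≤ x
  cm : ∀ y ∈ D.H, y ≤ q → D.hlo y ≤ p → p < D.hhi y → y ≤ c
  tm : ∀ y ∈ D.H, q < y → D.hlo y ≤ p → p < D.hhi y → t ≤ y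

theorem IsCell.swap {D : Dis} {p q a b c t : ℤ} (h : IsCell D p q a b c t) :
    IsCell D.swap q p c t a b :=
  ⟨h.c0, h.cq, h.qt, h.t1, h.a0, h.ap, h.pb, h.b1, h.cl, h.tl, h.al, h.bl,
    fun x h1 h2 h3 h4 => h.cm x h1 h2 h3 h4, fun x h1 h2 h3 h4 => h.tm x h1 h2 h3 h4,
    fun x h1 h2 h3 h4 => h.am x h1 h2 h3 h4, fun x h1 h2 h3 h4 => h.bm x h1 h2 h3 h4⟩

theorem IsCell.flipX {D : Dis} {p q a b c t : ℤ} (h : IsCell D p q a b c t) :
    IsCell D.flipX (-p - 1) q (-b) (-a) c t where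
  a0 := by have := h.b1; simp only [Dis.flipX]; omega
  ap := by have := h.pb; omega
  pb := by have := h.ap; omega
  b1 := by have := h.a0; simp only [Dis.flipX]; omega
  c0 := h.c0
  cq := h.cq
  qt := h.qt
  t1 := h.t1
  al := by
    rcases h.bl with h1 | ⟨h1, h2, h3⟩
    · left; simp only [Dis.flipX]; omega
    · right
      simp only [Dis.flipX, neg_neg]
      exact ⟨mem_neg_image.2 (by simpa using h1), h2, h3⟩
  bl := by
    rcases h.al with h1 | ⟨h1, h2, h3⟩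
    · left; simp only [Dis.flipX]; omega
    · right
      simp only [Dis.flipX, neg_neg]
      exact ⟨mem_neg_image.2 (by simpa using h1), h2, h3⟩
  cl := by
    rcases h.cl with h1 | ⟨h1, h2, h3⟩
    · exact Or.inl h1
    · refine Or.inr ⟨h1, ?_, ?_⟩ <;> simp only [Dis.flipX] <;> omega
  tl := by
    rcases h.tl with h1 | ⟨h1, h2, h3⟩
    · exact Or.inl h1
    · refine Or.inr ⟨h1, ?_, ?_⟩ <;> simp only [Dis.flipX] <;> omega
  am := by
    intro x hx h1 h2 h3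
    have := h.bm (-x) (mem_neg_image.1 hx) (by omega) h2 h3
    omega
  bm := by
    intro x hx h1 h2 h3
    have := h.am (-x) (mem_neg_image.1 hx) (by omega) h2 h3
    omega
  cm := by
    intro y hy h1 h2 h3
    simp only [Dis.flipX] at h2 h3
    exact h.cm y hy h1 (by omega) (by omega)
  tm := by
    intro y hy h1 h2 h3
    simp only [Dis.flipX] at h2 h3
    exact h.tm y hy h1 (by omega) (by omega)

theorem IsCell.flipY {D : Dis} {p q a b c t : ℤ} (h : IsCell D p q a b c t) :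
    IsCell D.flipY p (-q - 1) a b (-t) (-c) := h.swap.flipX.swap

/-- No horizontal piece above the cell ends to the left of it inside the strip. -/
theorem IsCell.bTL {D : Dis} (h : D.Ok) {p q a b c t : ℤ} (k : IsCell D p q a b c t)
    {y : ℤ} (hy : y ∈ D.H) (h1 : q < y) (h2 : y < t) (h3 : a < D.hhi y) (h4 : D.hhi y ≤ p) :
    False := by
  have hb := k.b1
  have hpb := k.pb
  have hc := k.c0
  have hcq := k.cq
  exact bump h (by omega) (by omega) k.am k.tm (y - q).toNat y hy h1 h2 h3 h4 (by omega)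

theorem IsCell.bTR {D : Dis} (h : D.Ok) {p q a b c t : ℤ} (k : IsCell D p q a b c t)
    {y : ℤ} (hy : y ∈ D.H) (h1 : q < y) (h2 : y < t) (h3 : D.hlo y < b) (h4 : p < D.hlo y) :
    False :=
  k.flipX.bTL h.flipX (y := y) hy h1 h2 (by simp only [Dis.flipX]; omega)
    (by simp only [Dis.flipX]; omega)

/-- The left piece reaches the top of the face. -/
theorem IsCell.leftTop {D : Dis} (h : D.Ok) {p q a b c t : ℤ} (k : IsCell D p q a b c t)
    (ha : a ∈ D.V) : t ≤ D.vhi a := by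
  by_contra hcon
  have hap := k.ap
  have ht1 := k.t1
  have hx := h.vx a ha
  have hqa : q < D.vhi a := by
    rcases k.al with h1 | ⟨_, _, h3⟩
    · omega
    · exact h3
  rcases h.vh a ha with h1 | ⟨h1, h2, h3⟩
  · omega
  · by_cases hd : p < D.hhi (D.vhi a)
    · have := k.tm _ h1 hqa (by omega) hd
      omega
    · exact k.bTL h h1 hqa (by omega) (by omega) (by omega)

theorem IsCell.leftBot {D : Dis} (h : D.Ok) {p q a b c t : ℤ} (k : IsCell D p q a b c t)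
    (ha : a ∈ D.V) : D.vlo a ≤ c := by
  have := k.flipY.leftTop h.flipY (by exact ha)
  simp only [Dis.flipY, Dis.swap, Dis.flipX] at this
  omega

theorem IsCell.rightTop {D : Dis} (h : D.Ok) {p q a b c t : ℤ} (k : IsCell D p q a b c t)
    (hb : b ∈ D.V) : t ≤ D.vhi b := by
  have := k.flipX.leftTop h.flipX (mem_neg_image.2 (by simpa using hb))
  simpa only [Dis.flipX, neg_neg] using this

theorem IsCell.rightBot {D : Dis} (h : D.Ok) {p q a b c t : ℤ} (k : IsCell D p q a b c t)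
    (hb : b ∈ D.V) : D.vlo b ≤ c := by
  have := k.flipX.leftBot h.flipX (mem_neg_image.2 (by simpa using hb))
  simpa only [Dis.flipX, neg_neg] using this

theorem IsCell.topRight {D : Dis} (h : D.Ok) {p q a b c t : ℤ} (k : IsCell D p q a b c t)
    (ht : t ∈ D.H) : b ≤ D.hhi t := k.swap.rightTop h.swap ht

theorem IsCell.topLeft {D : Dis} (h : D.Ok) {p q a b c t : ℤ} (k : IsCell D p q a b c t)
    (ht : t ∈ D.H) : D.hlo t ≤ a := k.swap.rightBot h.swap ht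

theorem IsCell.botRight {D : Dis} (h : D.Ok) {p q a b c t : ℤ} (k : IsCell D p q a b c t)
    (hc : c ∈ D.H) : b ≤ D.hhi c := k.swap.leftTop h.swap hc

theorem IsCell.botLeft {D : Dis} (h : D.Ok) {p q a b c t : ℤ} (k : IsCell D p q a b c t)
    (hc : c ∈ D.H) : D.hlo c ≤ a := k.swap.leftBot h.swap hc

theorem IsCell.freeTop {D : Dis} (h : D.Ok) {p q a b c t : ℤ} (k : IsCell D p q a b c t)
    {x : ℤ} (hx : x ∈ D.V) (h1 : a < x) (h2 : x < b) (h3 : q < D.vlo x) (h4 : D.vlo x < t) :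
    False := by
  have hc0 := k.c0
  have hcq := k.cq
  rcases h.vl x hx with h5 | ⟨h5, h6, h7⟩
  · omega
  · by_cases hp : x ≤ p
    · by_cases hd : p < D.hhi (D.vlo x)
      · have := k.tm _ h5 h3 (by omega) hd
        omega
      · exact k.bTL h h5 h3 h4 (by omega) (by omega)
    · by_cases hd : D.hlo (D.vlo x) ≤ p
      · have := k.tm _ h5 h3 hd (by omega)
        omega
      · exact k.bTR h h5 h3 h4 (by omega) (by omega)

theorem IsCell.freeBot {D : Dis} (h : D.Ok) {p q a b c t : ℤ} (k : IsCell D p q a b c t)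
    {x : ℤ} (hx : x ∈ D.V) (h1 : a < x) (h2 : x < b) (h3 : D.vhi x ≤ q) (h4 : c < D.vhi x) :
    False := by
  refine k.flipY.freeTop h.flipY (x := x) hx h1 h2 ?_ ?_ <;>
    simp only [Dis.flipY, Dis.swap, Dis.flipX] <;> omega

/-- No vertical piece meets the open face. -/
theorem IsCell.freeV {D : Dis} (h : D.Ok) {p q a b c t : ℤ} (k : IsCell D p q a b c t)
    {x : ℤ} (hx : x ∈ D.V) (h1 : a < x) (h2 : x < b) : D.vhi x ≤ c ∨ t ≤ D.vlo x := by
  by_contra hcon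
  push Not at hcon
  by_cases h3 : q < D.vlo x
  · exact k.freeTop h hx h1 h2 h3 hcon.2
  · by_cases h4 : D.vhi x ≤ q
    · exact k.freeBot h hx h1 h2 h4 hcon.1
    · by_cases h5 : x ≤ p
      · have := k.am x hx h5 (by omega) (by omega)
        omega
      · have := k.bm x hx (by omega) (by omega) (by omega)
        omega

theorem IsCell.freeH {D : Dis} (h : D.Ok) {p q a b c t : ℤ} (k : IsCell D p q a b c t)
    {y : ℤ} (hy : y ∈ D.H) (h1 : c < y) (h2 : y < t) : D.hhi y ≤ a ∨ b ≤ D.hlo y :=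
  k.swap.freeV h.swap hy h1 h2

/-- A face: a box whose four sides lie on the boundary or on pieces and whose interior meets no
piece. -/
structure IsFace (D : Dis) (a b c t : ℤ) : Prop where
  ab : a < b
  ct : c < t
  a0 : D.x0 ≤ a
  b1 : b ≤ D.x1
  c0 : D.y0 ≤ c
  t1 : t ≤ D.y1
  al : a = D.x0 ∨ (a ∈ D.V ∧ D.vlo a ≤ c ∧ t ≤ D.vhi a)
  bl : b = D.x1 ∨ (b ∈ D.V ∧ D.vlo b ≤ c ∧ t ≤ D.vhi b)
  cl : c = D.y0 ∨ (c ∈ D.H ∧ D.hlo c ≤ a ∧ b ≤ D.hhi c)
  tl : t = D.y1 ∨ (t ∈ D.H ∧ D.hlo t ≤ a ∧ b ≤ D.hhi t)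
  fv : ∀ x ∈ D.V, a < x → x < b → D.vhi x ≤ c ∨ t ≤ D.vlo x
  fh : ∀ y ∈ D.H, c < y → y < t → D.hhi y ≤ a ∨ b ≤ D.hlo y

theorem IsCell.isFace {D : Dis} (h : D.Ok) {p q a b c t : ℤ} (k : IsCell D p q a b c t) :
    IsFace D a b c t where
  ab := by have := k.ap; have := k.pb; omega
  ct := by have := k.cq; have := k.qt; omega
  a0 := k.a0
  b1 := k.b1
  c0 := k.c0
  t1 := k.t1
  al := by
    rcases k.al with h1 | ⟨h1, _, _⟩
    · exact Or.inl h1
    · exact Or.inr ⟨h1, k.leftBot h h1, k.leftTop h h1⟩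
  bl := by
    rcases k.bl with h1 | ⟨h1, _, _⟩
    · exact Or.inl h1
    · exact Or.inr ⟨h1, k.rightBot h h1, k.rightTop h h1⟩
  cl := by
    rcases k.cl with h1 | ⟨h1, _, _⟩
    · exact Or.inl h1
    · exact Or.inr ⟨h1, k.botLeft h h1, k.botRight h h1⟩
  tl := by
    rcases k.tl with h1 | ⟨h1, _, _⟩
    · exact Or.inl h1
    · exact Or.inr ⟨h1, k.topLeft h h1, k.topRight h h1⟩
  fv := fun x hx h1 h2 => k.freeV h hx h1 h2
  fh := fun y hy h1 h2 => k.freeH h hy h1 h2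

/-- The nearest pieces exist. -/
theorem exists_isCell (D : Dis) {p q : ℤ} (h0 : D.x0 ≤ p) (h1 : p < D.x1)
    (h2 : D.y0 ≤ q) (h3 : q < D.y1) :
    ∃ a b c t, IsCell D p q a b c t := by
  have key : ∀ (s : Finset ℤ) (z : ℤ), ∃ m, m ∈ insert z s ∧ ∀ w ∈ insert z s, w ≤ m :=
    fun s z => ⟨(insert z s).max' (by simp), Finset.max'_mem _ _,
      fun w hw => Finset.le_max' _ w hw⟩
  have key' : ∀ (s : Finset ℤ) (z : ℤ), ∃ m, m ∈ insert z s ∧ ∀ w ∈ insert z s, m ≤ w :=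
    fun s z => ⟨(insert z s).min' (by simp), Finset.min'_mem _ _,
      fun w hw => Finset.min'_le _ w hw⟩
  obtain ⟨a, ha, ha'⟩ := key (D.V.filter fun x => x ≤ p ∧ D.vlo x ≤ q ∧ q < D.vhi x) D.x0
  obtain ⟨b, hb, hb'⟩ := key' (D.V.filter fun x => p < x ∧ D.vlo x ≤ q ∧ q < D.vhi x) D.x1
  obtain ⟨c, hc, hc'⟩ := key (D.H.filter fun y => y ≤ q ∧ D.hlo y ≤ p ∧ p < D.hhi y) D.y0
  obtain ⟨t, ht, ht'⟩ := key' (D.H.filter fun y => q < y ∧ D.hlo y ≤ p ∧ p < D.hhi y) D.y1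
  simp only [Finset.mem_insert, Finset.mem_filter] at ha ha' hb hb' hc hc' ht ht'
  refine ⟨a, b, c, t, ⟨ha' _ (Or.inl rfl), ?_, ?_, hb' _ (Or.inl rfl), hc' _ (Or.inl rfl), ?_, ?_,
    ht' _ (Or.inl rfl), ?_, ?_, ?_, ?_, ?_, ?_, ?_, ?_⟩⟩
  · rcases ha with h | h
    · omega
    · exact h.2.1
  · rcases hb with h | h
    · omega
    · exact h.2.1
  · rcases hc with h | h
    · omega
    · exact h.2.1
  · rcases ht with h | h
    · omega
    · exact h.2.1
  · rcases ha with h | h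
    · exact Or.inl h
    · exact Or.inr ⟨h.1, h.2.2⟩
  · rcases hb with h | h
    · exact Or.inl h
    · exact Or.inr ⟨h.1, h.2.2⟩
  · rcases hc with h | h
    · exact Or.inl h
    · exact Or.inr ⟨h.1, h.2.2⟩
  · rcases ht with h | h
    · exact Or.inl h
    · exact Or.inr ⟨h.1, h.2.2⟩
  · exact fun x hx i1 i2 i3 => ha' x (Or.inr ⟨hx, i1, i2, i3⟩)
  · exact fun x hx i1 i2 i3 => hb' x (Or.inr ⟨hx, i1, i2, i3⟩)
  · exact fun x hx i1 i2 i3 => hc' x (Or.inr ⟨hx, i1, i2, i3⟩)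
  · exact fun x hx i1 i2 i3 => ht' x (Or.inr ⟨hx, i1, i2, i3⟩)

/-- Every unit cell lies in a face. -/
theorem exists_face {D : Dis} (h : D.Ok) {p q : ℤ} (h0 : D.x0 ≤ p) (h1 : p < D.x1)
    (h2 : D.y0 ≤ q) (h3 : q < D.y1) :
    ∃ a b c t, IsFace D a b c t ∧ a ≤ p ∧ p < b ∧ c ≤ q ∧ q < t := by
  obtain ⟨a, b, c, t, k⟩ := exists_isCell D h0 h1 h2 h3
  exact ⟨a, b, c, t, k.isFace h, k.ap, k.pb, k.cq, k.qt⟩

/-- Two faces with a common unit cell are equal. -/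
theorem IsFace.unique {D : Dis} {a b c t a' b' c' t' p q : ℤ}
    (f : IsFace D a b c t) (g : IsFace D a' b' c' t')
    (h1 : a ≤ p) (h2 : p < b) (h3 : c ≤ q) (h4 : q < t)
    (h1' : a' ≤ p) (h2' : p < b') (h3' : c' ≤ q) (h4' : q < t') :
    a = a' ∧ b = b' ∧ c = c' ∧ t = t' := by
  have hA : ∀ {a b c t a' b' c' t' : ℤ}, IsFace D a b c t → IsFace D a' b' c' t' →
      a ≤ p → p < b → c ≤ q → q < t → a' ≤ p → p < b' → c' ≤ q → q < t' → a ≤ a' := by
    intro a b c t a' b' c' t' f g h1 h2 h3 h4 h1' h2' h3' h4'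
    by_contra hcon
    rcases f.al with e | ⟨e1, e2, e3⟩
    · have := g.a0; omega
    · rcases g.fv a e1 (by omega) (by omega) with e | e <;> omega
  have hB : ∀ {a b c t a' b' c' t' : ℤ}, IsFace D a b c t → IsFace D a' b' c' t' →
      a ≤ p → p < b → c ≤ q → q < t → a' ≤ p → p < b' → c' ≤ q → q < t' → b' ≤ b := by
    intro a b c t a' b' c' t' f g h1 h2 h3 h4 h1' h2' h3' h4'
    by_contra hcon
    rcases f.bl with e | ⟨e1, e2, e3⟩
    · have := g.b1; omega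
    · rcases g.fv b e1 (by omega) (by omega) with e | e <;> omega
  have hC : ∀ {a b c t a' b' c' t' : ℤ}, IsFace D a b c t → IsFace D a' b' c' t' →
      a ≤ p → p < b → c ≤ q → q < t → a' ≤ p → p < b' → c' ≤ q → q < t' → c ≤ c' := by
    intro a b c t a' b' c' t' f g h1 h2 h3 h4 h1' h2' h3' h4'
    by_contra hcon
    rcases f.cl with e | ⟨e1, e2, e3⟩
    · have := g.c0; omega
    · rcases g.fh c e1 (by omega) (by omega) with e | e <;> omega
  have hT : ∀ {a b c t a' b' c' t' : ℤ}, IsFace D a b c t → IsFace D a' b' c' t' →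
      a ≤ p → p < b → c ≤ q → q < t → a' ≤ p → p < b' → c' ≤ q → q < t' → t' ≤ t := by
    intro a b c t a' b' c' t' f g h1 h2 h3 h4 h1' h2' h3' h4'
    by_contra hcon
    rcases f.tl with e | ⟨e1, e2, e3⟩
    · have := g.t1; omega
    · rcases g.fh t e1 (by omega) (by omega) with e | e <;> omega
  exact ⟨le_antisymm (hA f g h1 h2 h3 h4 h1' h2' h3' h4') (hA g f h1' h2' h3' h4' h1 h2 h3 h4),
    le_antisymm (hB g f h1' h2' h3' h4' h1 h2 h3 h4) (hB f g h1 h2 h3 h4 h1' h2' h3' h4'),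
    le_antisymm (hC f g h1 h2 h3 h4 h1' h2' h3' h4') (hC g f h1' h2' h3' h4' h1 h2 h3 h4),
    le_antisymm (hT g f h1' h2' h3' h4' h1 h2 h3 h4) (hT f g h1 h2 h3 h4 h1' h2' h3' h4')⟩

end Pool.Agent.Helper23.BG
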