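import Mathlib
import Pool.Agent.Helper23.BG.Face

/-! Euler's formula for dissections: the number of faces is the number of pieces plus one. -/

namespace Pool.Agent.Helper23.BG

open Classical in
/-- The finite set of all faces, as quadruples `(a, b, c, t)`. -/
noncomputable def Dis.faces (D : Dis) : Finset (ℤ × ℤ × ℤ × ℤ) :=
  (Finset.Icc D.x0 D.x1 ×ˢ (Finset.Icc D.x0 D.x1 ×ˢ (Finset.Icc D.y0 D.y1 ×ˢ
    Finset.Icc D.y0 D.y1))).filter (fun f => IsFace D f.1 f.2.1 f.2.2.1 f.2.2.2)

theorem Dis.mem_faces {D : Dis} {f : ℤ × ℤ × ℤ × ℤ} :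
    f ∈ D.faces ↔ IsFace D f.1 f.2.1 f.2.2.1 f.2.2.2 := by
  classical
  unfold Dis.faces
  simp only [Finset.mem_filter, Finset.mem_product, Finset.mem_Icc]
  constructor
  · exact fun h => h.2
  · intro h
    have h1 := h.ab
    have h2 := h.ct
    have h3 := h.a0
    have h4 := h.b1
    have h5 := h.c0
    have h6 := h.t1
    exact ⟨⟨⟨h3, by omega⟩, ⟨by omega, h4⟩, ⟨h5, by omega⟩, ⟨by omega, h6⟩⟩, h⟩

/-- The lower left corners of the faces. -/
def Dis.corners (D : Dis) : Finset (ℤ × ℤ) :=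
  insert (D.x0, D.y0) (D.V.image (fun x => (x, D.vlo x)) ∪ D.H.image (fun y => (D.hlo y, y)))

theorem Dis.Ok.vlo_ge {D : Dis} (h : D.Ok) {x : ℤ} (hx : x ∈ D.V) : D.y0 ≤ D.vlo x := by
  rcases h.vl x hx with e | ⟨e, _, _⟩
  · omega
  · have := h.hyy _ e; omega

theorem Dis.Ok.vhi_le {D : Dis} (h : D.Ok) {x : ℤ} (hx : x ∈ D.V) : D.vhi x ≤ D.y1 := by
  rcases h.vh x hx with e | ⟨e, _, _⟩
  · omega
  · have := h.hyy _ e; omega

theorem Dis.Ok.hlo_ge {D : Dis} (h : D.Ok) {y : ℤ} (hy : y ∈ D.H) : D.x0 ≤ D.hlo y := by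
  rcases h.hl y hy with e | ⟨e, _, _⟩
  · omega
  · have := h.vx _ e; omega

theorem Dis.Ok.hhi_le {D : Dis} (h : D.Ok) {y : ℤ} (hy : y ∈ D.H) : D.hhi y ≤ D.x1 := by
  rcases h.hh y hy with e | ⟨e, _, _⟩
  · omega
  · have := h.vx _ e; omega

theorem Dis.Ok.card_corners {D : Dis} (h : D.Ok) : D.corners.card = D.V.card + D.H.card + 1 := by
  unfold Dis.corners
  have hdis : Disjoint (D.V.image (fun x => (x, D.vlo x))) (D.H.image (fun y => (D.hlo y, y))) := by
    rw [Finset.disjoint_left]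
    intro z hz1 hz2
    simp only [Finset.mem_image] at hz1 hz2
    obtain ⟨x, hx, rfl⟩ := hz1
    obtain ⟨y, hy, hxy⟩ := hz2
    simp only [Prod.mk.injEq] at hxy
    obtain ⟨e1, e2⟩ := hxy
    rcases h.hl y hy with e | ⟨_, e3, _⟩
    · have := h.vx x hx; omega
    · rw [e1] at e3; omega
  have hn : (D.x0, D.y0) ∉
      D.V.image (fun x => (x, D.vlo x)) ∪ D.H.image (fun y => (D.hlo y, y)) := by
    simp only [Finset.mem_union, Finset.mem_image, Prod.mk.injEq, not_or, not_exists, not_and]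
    constructor
    · intro x hx e
      have := h.vx x hx; omega
    · intro y hy _ e
      have := h.hyy y hy; omega
  rw [Finset.card_insert_of_notMem hn, Finset.card_union_of_disjoint hdis,
    Finset.card_image_of_injective, Finset.card_image_of_injective]
  · intro y y' e
    simp only [Prod.mk.injEq] at e
    exact e.2
  · intro x x' e
    simp only [Prod.mk.injEq] at e
    exact e.1

/-- Euler's formula. -/
theorem Dis.Ok.card_faces {D : Dis} (h : D.Ok) : D.faces.card = D.V.card + D.H.card + 1 := by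
  rw [← h.card_corners]
  refine Finset.card_bij (fun f _ => (f.1, f.2.2.1)) ?_ ?_ ?_
  · rintro ⟨a, b, c, t⟩ hf
    rw [Dis.mem_faces] at hf
    simp only at hf ⊢
    have hab := hf.ab
    have hct := hf.ct
    simp only [Dis.corners, Finset.mem_insert, Prod.mk.injEq, Finset.mem_union, Finset.mem_image]
    rcases hf.al with e | ⟨e, e1, e2⟩
    · rcases hf.cl with g | ⟨g, g1, g2⟩
      · exact Or.inl ⟨e, g⟩
      · right; right
        refine ⟨c, g, ?_, rfl⟩
        have := h.hlo_ge g; omega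
    · rcases hf.cl with g | ⟨g, g1, g2⟩
      · right; left
        refine ⟨a, e, rfl, ?_⟩
        have := h.vlo_ge e; omega
      · by_cases i1 : D.vlo a = c
        · exact Or.inr (Or.inl ⟨a, e, rfl, i1⟩)
        · by_cases i2 : D.hlo c = a
          · exact Or.inr (Or.inr ⟨c, g, i2, rfl⟩)
          · exact absurd ⟨by omega, by omega, by omega, by omega⟩ (h.nc a e c g)
  · rintro ⟨a, b, c, t⟩ hf ⟨a', b', c', t'⟩ hg e
    rw [Dis.mem_faces] at hf hg
    simp only at hf hg e
    simp only [Prod.mk.injEq] at e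
    obtain ⟨rfl, rfl⟩ := e
    have h1 := hf.ab
    have h2 := hf.ct
    have h3 := hg.ab
    have h4 := hg.ct
    obtain ⟨i1, i2, i3, i4⟩ := hf.unique hg (le_refl a) h1 (le_refl c) h2 (le_refl a) h3
      (le_refl c) h4
    simp only [Prod.mk.injEq]
    exact ⟨trivial, i2, trivial, i4⟩
  · rintro ⟨u, v⟩ huv
    simp only [Dis.corners, Finset.mem_insert, Prod.mk.injEq, Finset.mem_union,
      Finset.mem_image] at huv
    rcases huv with ⟨rfl, rfl⟩ | ⟨x, hx, rfl, rfl⟩ | ⟨y, hy, rfl, rfl⟩
    · obtain ⟨a, b, c, t, hf, h1, h2, h3, h4⟩ :=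
        exists_face h (le_refl _) h.hx (le_refl _) h.hy
      have i1 := hf.a0
      have i2 := hf.c0
      refine ⟨(a, b, c, t), Dis.mem_faces.2 hf, ?_⟩
      simp only [Prod.mk.injEq]
      constructor <;> omega
    · have i0 := h.vx x hx
      have i1 := h.vlo_ge hx
      have i2 := h.vlt x hx
      have i3 := h.vhi_le hx
      obtain ⟨a, b, c, t, hf, h1, h2, h3, h4⟩ :=
        exists_face h (p := x) (q := D.vlo x) (by omega) i0.2 i1 (by omega)
      refine ⟨(a, b, c, t), Dis.mem_faces.2 hf, ?_⟩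
      have hax : a = x := by
        by_contra hne
        rcases hf.fv x hx (by omega) h2 with g | g <;> omega
      simp only [Prod.mk.injEq]
      refine ⟨hax, ?_⟩
      by_contra hne
      rcases h.vl x hx with g | ⟨g1, g2, g3⟩
      · have := hf.c0; omega
      · rcases hf.fh _ g1 (by omega) h4 with g | g <;> omega
    · have i0 := h.hyy y hy
      have i1 := h.hlo_ge hy
      have i2 := h.hlt y hy
      have i3 := h.hhi_le hy
      obtain ⟨a, b, c, t, hf, h1, h2, h3, h4⟩ :=
        exists_face h (p := D.hlo y) (q := y) i1 (by omega) (by omega) i0.2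
      refine ⟨(a, b, c, t), Dis.mem_faces.2 hf, ?_⟩
      have hcy : c = y := by
        by_contra hne
        rcases hf.fh y hy (by omega) h4 with g | g <;> omega
      simp only [Prod.mk.injEq]
      refine ⟨?_, hcy⟩
      by_contra hne
      rcases h.hl y hy with g | ⟨g1, g2, g3⟩
      · have := hf.a0; omega
      · rcases hf.fv _ g1 (by omega) h2 with g | g <;> omega

end Pool.Agent.Helper23.BG
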