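import Mathlib
import Pool.Agent.Helper23.BG.Euler

/-! Dissections that fit a family of boxes: every box lies in a face of its own. -/

namespace Pool.Agent.Helper23.BG

/-- Quadruples `(a, b, c, t)` stand for boxes `[a, b] × [c, t]`. -/
abbrev Quad := ℤ × ℤ × ℤ × ℤ

/-- Inclusion of boxes. -/
def Sub (f g : Quad) : Prop := g.1 ≤ f.1 ∧ f.2.1 ≤ g.2.1 ∧ g.2.2.1 ≤ f.2.2.1 ∧ f.2.2.2 ≤ g.2.2.2

/-- The face with the coordinates of `f`. -/
def IsF (D : Dis) (f : Quad) : Prop := IsFace D f.1 f.2.1 f.2.2.1 f.2.2.2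

/-- A family of boxes `S` lies in distinct faces `F i`. -/
structure FitsVia {ι : Type} (D : Dis) (S : ι → Quad) (F : ι → Quad) : Prop where
  face : ∀ i, IsF D (F i)
  sub : ∀ i, Sub (S i) (F i)
  inj : Function.Injective F

/-- Reflection of a box. -/
def Quad.flipX (f : Quad) : Quad := (-f.2.1, -f.1, f.2.2.1, f.2.2.2)

/-- Transposition of a box. -/
def Quad.swap (f : Quad) : Quad := (f.2.2.1, f.2.2.2, f.1, f.2.1)

theorem Quad.flipX_flipX (f : Quad) : Quad.flipX (Quad.flipX f) = f := by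
  simp [Quad.flipX]

theorem Quad.swap_swap (f : Quad) : Quad.swap (Quad.swap f) = f := rfl

theorem Dis.swap_swap (D : Dis) : D.swap.swap = D := rfl

theorem Dis.flipX_flipX (D : Dis) : D.flipX.flipX = D := by
  cases D with
  | mk x0 x1 y0 y1 V H vlo vhi hlo hhi =>
    simp only [Dis.flipX, neg_neg, Dis.mk.injEq, true_and, and_true]
    ext x
    rw [mem_neg_image, mem_neg_image, neg_neg]

theorem IsFace.swap {D : Dis} {a b c t : ℤ} (h : IsFace D a b c t) : IsFace D.swap c t a b :=
  ⟨h.ct, h.ab, h.c0, h.t1, h.a0, h.b1, h.cl, h.tl, h.al, h.bl, h.fh, h.fv⟩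

theorem IsFace.flipX {D : Dis} {a b c t : ℤ} (h : IsFace D a b c t) :
    IsFace D.flipX (-b) (-a) c t where
  ab := by have := h.ab; omega
  ct := h.ct
  a0 := by have := h.b1; simp only [Dis.flipX]; omega
  b1 := by have := h.a0; simp only [Dis.flipX]; omega
  c0 := h.c0
  t1 := h.t1
  al := by
    rcases h.bl with h1 | ⟨h1, h2, h3⟩
    · left; simp only [Dis.flipX]; omega
    · right
      simp only [Dis.flipX, neg_neg]
      exact ⟨mem_neg_image.2 (by simpa using h1), h2, h3⟩
  bl := by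
    rcases h.al with h1 | ⟨h1, h2, h3⟩
    · left; simp only [Dis.flipX]; omega
    · right
      simp only [Dis.flipX, neg_neg]
      exact ⟨mem_neg_image.2 (by simpa using h1), h2, h3⟩
  cl := by
    rcases h.cl with h1 | ⟨h1, h2, h3⟩
    · exact Or.inl h1
    · refine Or.inr ⟨h1, ?_, ?_⟩ <;> simp only [Dis.flipX] <;> omega
  tl := by
    rcases h.tl with h1 | ⟨h1, h2, h3⟩
    · exact Or.inl h1
    · refine Or.inr ⟨h1, ?_, ?_⟩ <;> simp only [Dis.flipX] <;> omega
  fv := by
    intro x hx h1 h2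
    exact h.fv (-x) (mem_neg_image.1 hx) (by omega) (by omega)
  fh := by
    intro y hy h1 h2
    simp only [Dis.flipX]
    rcases h.fh y hy h1 h2 with e | e
    · right; omega
    · left; omega

theorem IsF.swap {D : Dis} {f : Quad} (h : IsF D f) : IsF D.swap f.swap := IsFace.swap h

theorem IsF.flipX {D : Dis} {f : Quad} (h : IsF D f) : IsF D.flipX f.flipX := IsFace.flipX h

theorem FitsVia.swap {ι : Type} {D : Dis} {S F : ι → Quad} (h : FitsVia D S F) :
    FitsVia D.swap (fun i => (S i).swap) (fun i => (F i).swap) where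
  face := fun i => (h.face i).swap
  sub := fun i => ⟨(h.sub i).2.2.1, (h.sub i).2.2.2, (h.sub i).1, (h.sub i).2.1⟩
  inj := fun i j e => h.inj (by
    have := congrArg Quad.swap e
    simpa only [Quad.swap_swap] using this)

theorem FitsVia.flipX {ι : Type} {D : Dis} {S F : ι → Quad} (h : FitsVia D S F) :
    FitsVia D.flipX (fun i => (S i).flipX) (fun i => (F i).flipX) where
  face := fun i => (h.face i).flipX
  sub := fun i => by
    have := h.sub i
    simp only [Sub, Quad.flipX] at this ⊢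
    omega
  inj := fun i j e => h.inj (by
    have := congrArg Quad.flipX e
    simpa only [Quad.flipX_flipX] using this)

theorem IsF.unique {D : Dis} {f g : Quad} {p q : ℤ} (hf : IsF D f) (hg : IsF D g)
    (h1 : f.1 ≤ p) (h2 : p < f.2.1) (h3 : f.2.2.1 ≤ q) (h4 : q < f.2.2.2)
    (h1' : g.1 ≤ p) (h2' : p < g.2.1) (h3' : g.2.2.1 ≤ q) (h4' : q < g.2.2.2) : f = g := by
  obtain ⟨e1, e2, e3, e4⟩ := IsFace.unique hf hg h1 h2 h3 h4 h1' h2' h3' h4'
  exact Prod.ext e1 (Prod.ext e2 (Prod.ext e3 e4))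

end Pool.Agent.Helper23.BG
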