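import Mathlib
import Pool.Agent.Helper23.BG.Fit

/-! Collapse of a face one of whose sides is a whole piece. -/

namespace Pool.Agent.Helper23.BG

/-- Remove the vertical piece `b` and extend the horizontal pieces starting on it to `a`. -/
def Dis.coll (D : Dis) (a b : ℤ) : Dis :=
  ⟨D.x0, D.x1, D.y0, D.y1, D.V.erase b, D.H, D.vlo, D.vhi,
    fun y => if D.hlo y = b then a else D.hlo y, D.hhi⟩

section
variable {D : Dis} {a b c t : ℤ}

theorem coll_hlo_le (hab : a < b) (y : ℤ) : (D.coll a b).hlo y ≤ D.hlo y := by
  simp only [Dis.coll]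
  split_ifs <;> omega

theorem coll_ok (h : D.Ok) (f : IsFace D a b c t) (hb : b ∈ D.V) (hc : D.vlo b = c)
    (ht : D.vhi b = t) : (D.coll a b).Ok where
  hx := h.hx
  hy := h.hy
  vx := fun x hx => h.vx x (Finset.mem_of_mem_erase hx)
  hyy := h.hyy
  vlt := fun x hx => h.vlt x (Finset.mem_of_mem_erase hx)
  hlt := fun y hy => by
    have h1 := coll_hlo_le (D := D) f.ab y
    have h2 := h.hlt y hy
    show (D.coll a b).hlo y < D.hhi y
    omega
  vl := fun x hx => by
    have h1 := h.vl x (Finset.mem_of_mem_erase hx)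
    have h2 := coll_hlo_le (D := D) f.ab (D.vlo x)
    rcases h1 with e | ⟨e1, e2, e3⟩
    · exact Or.inl e
    · exact Or.inr ⟨e1, by show (D.coll a b).hlo (D.vlo x) < x; omega, e3⟩
  vh := fun x hx => by
    have h1 := h.vh x (Finset.mem_of_mem_erase hx)
    have h2 := coll_hlo_le (D := D) f.ab (D.vhi x)
    rcases h1 with e | ⟨e1, e2, e3⟩
    · exact Or.inl e
    · exact Or.inr ⟨e1, by show (D.coll a b).hlo (D.vhi x) < x; omega, e3⟩
  hl := fun y hy => by
    by_cases hyb : D.hlo y = b
    · have e : (D.coll a b).hlo y = a := by simp [Dis.coll, hyb]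
      rw [e]
      rcases h.hl y hy with g | ⟨g1, g2, g3⟩
      · have := h.vx b hb; omega
      · rw [hyb] at g2 g3
        rcases f.al with i | ⟨i1, i2, i3⟩
        · exact Or.inl i
        · refine Or.inr ⟨Finset.mem_erase.2 ⟨by have := f.ab; omega, i1⟩, ?_, ?_⟩
          · show D.vlo a < y; omega
          · show y < D.vhi a; omega
    · have e : (D.coll a b).hlo y = D.hlo y := by simp [Dis.coll, hyb]
      rw [e]
      rcases h.hl y hy with g | ⟨g1, g2, g3⟩
      · exact Or.inl g
      · exact Or.inr ⟨Finset.mem_erase.2 ⟨hyb, g1⟩, g2, g3⟩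
  hh := fun y hy => by
    rcases h.hh y hy with g | ⟨g1, g2, g3⟩
    · exact Or.inl g
    · refine Or.inr ⟨Finset.mem_erase.2 ⟨?_, g1⟩, g2, g3⟩
      intro hyb
      change D.hhi y = b at hyb
      rw [hyb] at g2 g3
      have h1 := f.ab
      have h2 := h.hlt y hy
      rcases f.fh y hy (by omega) (by omega) with i | i <;> omega
  nc := fun x hx y hy hcr => by
    obtain ⟨hxb, hxV⟩ := Finset.mem_erase.1 hx
    obtain ⟨i1, i2, i3, i4⟩ := hcr
    change D.vlo x < y at i1
    change y < D.vhi x at i2
    change x < D.hhi y at i4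
    by_cases hyb : D.hlo y = b
    · have e : (D.coll a b).hlo y = a := by simp [Dis.coll, hyb]
      rw [e] at i3
      have hy' : D.vlo b < y ∧ y < D.vhi b := by
        rcases h.hl y hy with g | ⟨g1, g2, g3⟩
        · have := h.vx b hb; omega
        · rw [hyb] at g2 g3; exact ⟨g2, g3⟩
      rcases lt_or_gt_of_ne hxb with j | j
      · rcases f.fv x hxV i3 j with k | k <;> omega
      · exact h.nc x hxV y hy ⟨i1, i2, by omega, i4⟩
    · have e : (D.coll a b).hlo y = D.hlo y := by simp [Dis.coll, hyb]
      rw [e] at i3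
      exact h.nc x hxV y hy ⟨i1, i2, i3, i4⟩

/-- The face of the collapsed dissection that contains the old face `g`. -/
def collF (a b c t : ℤ) (g : Quad) : Quad :=
  if g.1 = b ∧ c ≤ g.2.2.1 ∧ g.2.2.2 ≤ t then (a, g.2.1, g.2.2.1, g.2.2.2) else g

theorem sub_collF (hab : a < b) (g : Quad) : Sub g (collF a b c t g) := by
  unfold collF Sub
  split_ifs with h <;> simp <;> omega

theorem coll_face (h : D.Ok) (f : IsFace D a b c t) (hb : b ∈ D.V) (hc : D.vlo b = c)
    (ht : D.vhi b = t) {g : Quad} (hg : IsF D g) (hne : g ≠ (a, b, c, t)) :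
    IsF (D.coll a b) (collF a b c t g) := by
  obtain ⟨ga, gb, gc, gt⟩ := g
  have hab := f.ab
  have hct := f.ct
  have hbx := h.vx b hb
  have gab : ga < gb := IsFace.ab hg
  have gct : gc < gt := IsFace.ct hg
  have ga0 : D.x0 ≤ ga := IsFace.a0 hg
  have gb1 : gb ≤ D.x1 := IsFace.b1 hg
  have gc0 : D.y0 ≤ gc := IsFace.c0 hg
  have gt1 : gt ≤ D.y1 := IsFace.t1 hg
  have hgv := IsFace.fv hg
  have hgh := IsFace.fh hg
  have hga := IsFace.al hg
  have hgb := IsFace.bl hg
  have hgc := IsFace.cl hg
  have hgt := IsFace.tl hg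
  have hnot : ∀ p q, a ≤ p → p < b → c ≤ q → q < t → ga ≤ p → p < gb → gc ≤ q → q < gt →
      False := by
    intro p q h1 h2 h3 h4 h5 h6 h7 h8
    exact hne (IsF.unique (p := p) (q := q) hg (show IsF D (a, b, c, t) from f)
      h5 h6 h7 h8 h1 h2 h3 h4)
  simp only at hgv hgh hga hgb hgc hgt
  unfold collF
  simp only
  split_ifs with hcase
  · obtain ⟨e1, e2, e3⟩ := hcase
    subst e1
    refine ⟨show a < gb by omega, gct, f.a0, gb1, gc0, gt1, ?_, ?_, ?_, ?_, ?_, ?_⟩
    · rcases f.al with i | ⟨i1, i2, i3⟩
      · exact Or.inl i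
      · exact Or.inr ⟨Finset.mem_erase.2 ⟨by omega, i1⟩, show D.vlo a ≤ gc by omega,
          show gt ≤ D.vhi a by omega⟩
    · rcases hgb with i | ⟨i1, i2, i3⟩
      · exact Or.inl i
      · exact Or.inr ⟨Finset.mem_erase.2 ⟨show gb ≠ ga by omega, i1⟩, i2, i3⟩
    · rcases hgc with i | ⟨i1, i2, i3⟩
      · exact Or.inl i
      · refine Or.inr ⟨i1, ?_, i3⟩
        show (D.coll a ga).hlo gc ≤ a
        by_cases j : D.hlo gc = ga
        · simp [Dis.coll, j]
        · have k : (D.coll a ga).hlo gc = D.hlo gc := by simp [Dis.coll, j]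
          rw [k]
          by_cases l : c = gc
          · rcases f.cl with m | ⟨m1, m2, m3⟩
            · have := h.hyy gc i1; omega
            · rw [← l]; exact m2
          · exact absurd ⟨by omega, by omega, by omega, by omega⟩ (h.nc ga hb gc i1)
    · rcases hgt with i | ⟨i1, i2, i3⟩
      · exact Or.inl i
      · refine Or.inr ⟨i1, ?_, i3⟩
        show (D.coll a ga).hlo gt ≤ a
        by_cases j : D.hlo gt = ga
        · simp [Dis.coll, j]
        · have k : (D.coll a ga).hlo gt = D.hlo gt := by simp [Dis.coll, j]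
          rw [k]
          by_cases l : t = gt
          · rcases f.tl with m | ⟨m1, m2, m3⟩
            · have := h.hyy gt i1; omega
            · rw [← l]; exact m2
          · exact absurd ⟨by omega, by omega, by omega, by omega⟩ (h.nc ga hb gt i1)
    · intro x hx i1 i2
      obtain ⟨j1, j2⟩ := Finset.mem_erase.1 hx
      change D.vhi x ≤ gc ∨ gt ≤ D.vlo x
      rcases lt_or_gt_of_ne j1 with k | k
      · rcases f.fv x j2 i1 k with l | l
        · left; omega
        · right; omega
      · exact hgv x j2 k i2
    · intro y hy i1 i2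
      change D.hhi y ≤ a ∨ gb ≤ (D.coll a ga).hlo y
      change y ∈ D.H at hy
      rcases hgh y hy i1 i2 with k | k
      · have h3 := h.hlt y hy
        rcases f.fh y hy (by simp only at i1; omega) (by simp only at i2; omega) with l | l
        · exact Or.inl l
        · omega
      · right
        have k' : (D.coll a ga).hlo y = D.hlo y := by
          have : D.hlo y ≠ ga := by omega
          simp [Dis.coll, this]
        omega
  · have hgab : ga ≠ b := by
      intro e
      apply hcase
      rcases hga with i | ⟨i1, i2, i3⟩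
      · omega
      · rw [e] at i2 i3; omega
    have hgbb : gb ≠ b := by
      intro e
      rcases hgb with i | ⟨i1, i2, i3⟩
      · omega
      · rw [e] at i2 i3
        by_cases j : a ≤ ga
        · exact hnot ga gc (by omega) (by omega) (by omega) (by omega) (by omega) (by omega)
            (by omega) (by omega)
        · exact hnot a gc (by omega) (by omega) (by omega) (by omega) (by omega) (by omega)
            (by omega) (by omega)
    refine ⟨gab, gct, ga0, gb1, gc0, gt1, ?_, ?_, ?_, ?_, ?_, ?_⟩
    · rcases hga with i | ⟨i1, i2, i3⟩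
      · exact Or.inl i
      · exact Or.inr ⟨Finset.mem_erase.2 ⟨hgab, i1⟩, i2, i3⟩
    · rcases hgb with i | ⟨i1, i2, i3⟩
      · exact Or.inl i
      · exact Or.inr ⟨Finset.mem_erase.2 ⟨hgbb, i1⟩, i2, i3⟩
    · rcases hgc with i | ⟨i1, i2, i3⟩
      · exact Or.inl i
      · have := coll_hlo_le (D := D) hab gc
        exact Or.inr ⟨i1, by show (D.coll a b).hlo gc ≤ ga; omega, i3⟩
    · rcases hgt with i | ⟨i1, i2, i3⟩
      · exact Or.inl i
      · have := coll_hlo_le (D := D) hab gt
        exact Or.inr ⟨i1, by show (D.coll a b).hlo gt ≤ ga; omega, i3⟩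
    · intro x hx i1 i2
      exact hgv x (Finset.mem_of_mem_erase hx) i1 i2
    · intro y hy i1 i2
      change y ∈ D.H at hy
      change D.hhi y ≤ ga ∨ gb ≤ (D.coll a b).hlo y
      rcases hgh y hy i1 i2 with k | k
      · exact Or.inl k
      · by_cases j : D.hlo y = b
        · have k' : (D.coll a b).hlo y = a := by simp [Dis.coll, j]
          rw [k']
          right
          by_contra hcon
          have hy' : D.vlo b < y ∧ y < D.vhi b := by
            rcases h.hl y hy with g | ⟨g1, g2, g3⟩
            · omega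
            · rw [j] at g2 g3; exact ⟨g2, g3⟩
          simp only at i1 i2
          exact hnot (gb - 1) (y - 1) (by omega) (by omega) (by omega) (by omega) (by omega)
            (by omega) (by omega) (by omega)
        · have k' : (D.coll a b).hlo y = D.hlo y := by simp [Dis.coll, j]
          right; omega

theorem collF_inj (f : IsFace D a b c t) {g g' : Quad} (hg : IsF D g) (hg' : IsF D g')
    (hne : g ≠ (a, b, c, t)) (hne' : g' ≠ (a, b, c, t))
    (e : collF a b c t g = collF a b c t g') : g = g' := by
  have hab := f.ab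
  have hct := f.ct
  obtain ⟨ga, gb, gc, gt⟩ := g
  obtain ⟨ga', gb', gc', gt'⟩ := g'
  have gct : gc < gt := IsFace.ct hg
  have gct' : gc' < gt' := IsFace.ct hg'
  have gab : ga < gb := IsFace.ab hg
  have gab' : ga' < gb' := IsFace.ab hg'
  unfold collF at e
  simp only at e
  split_ifs at e with h1 h2 h2
  · simp only [Prod.mk.injEq] at e ⊢
    omega
  · simp only [Prod.mk.injEq] at e
    exfalso
    apply hne'
    exact IsF.unique (p := a) (q := gc') hg' (show IsF D (a, b, c, t) from f)
      (by simp only; omega) (by simp only; omega) (by simp only; omega) (by simp only; omega)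
      (by simp only; omega) (by simp only; omega) (by simp only; omega) (by simp only; omega)
  · simp only [Prod.mk.injEq] at e
    exfalso
    apply hne
    exact IsF.unique (p := a) (q := gc) hg (show IsF D (a, b, c, t) from f)
      (by simp only; omega) (by simp only; omega) (by simp only; omega) (by simp only; omega)
      (by simp only; omega) (by simp only; omega) (by simp only; omega) (by simp only; omega)
  · exact e

/-- Collapse keeps the fitting of a family of boxes none of which lies in the collapsed face. -/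
theorem coll_fits {ι : Type} {S F : ι → Quad} (h : D.Ok) (f : IsFace D a b c t) (hb : b ∈ D.V)
    (hc : D.vlo b = c) (ht : D.vhi b = t) (hF : FitsVia D S F)
    (hne : ∀ i, F i ≠ (a, b, c, t)) :
    FitsVia (D.coll a b) S (fun i => collF a b c t (F i)) where
  face := fun i => coll_face h f hb hc ht (hF.face i) (hne i)
  sub := fun i => by
    have h1 := hF.sub i
    have h2 := sub_collF (c := c) (t := t) f.ab (F i)
    unfold Sub at h1 h2 ⊢
    omega
  inj := fun i j e => hF.inj (collF_inj f (hF.face i) (hF.face j) (hne i) (hne j) e)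

end

end Pool.Agent.Helper23.BG
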