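import Mathlib
import Pool.Agent.Helper23.BG.Fit

/-! The face to the left of a windmill grows into it. -/

namespace Pool.Agent.Helper23.BG

/-- Raise the lower end of the vertical piece `a` to `z` and extend the horizontal piece `z` to
the right until `b`. -/
def Dis.grow (D : Dis) (a b z : ℤ) : Dis :=
  ⟨D.x0, D.x1, D.y0, D.y1, D.V, D.H, fun x => if x = a then z else D.vlo x, D.vhi, D.hlo,
    fun y => if y = z then b else D.hhi y⟩

/-- The data of a growth step. -/
structure GrowData (D : Dis) (a b c t z : ℤ) : Prop where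
  ok : D.Ok
  f : IsFace D a b c t
  aV : a ∈ D.V
  ac : D.vlo a = c
  cH : c ∈ D.H
  zH : z ∈ D.H
  zc : c < z
  zt : z < t
  za : D.hhi z = a
  zm : ∀ y ∈ D.H, c < y → y < z → D.hhi y ≠ a

section
variable {D : Dis} {a b c t z : ℤ}

theorem grow_vlo (x : ℤ) (hx : x ≠ a) : (D.grow a b z).vlo x = D.vlo x := by
  simp [Dis.grow, hx]

theorem grow_vlo_self : (D.grow a b z).vlo a = z := by simp [Dis.grow]

theorem grow_hhi (y : ℤ) (hy : y ≠ z) : (D.grow a b z).hhi y = D.hhi y := by
  simp [Dis.grow, hy]

theorem grow_hhi_self : (D.grow a b z).hhi z = b := by simp [Dis.grow]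

theorem GrowData.le_vlo (k : GrowData D a b c t z) (x : ℤ) :
    D.vlo x ≤ (D.grow a b z).vlo x := by
  by_cases hx : x = a
  · rw [hx, grow_vlo_self]; have := k.ac; have := k.zc; omega
  · rw [grow_vlo x hx]

theorem GrowData.le_hhi (k : GrowData D a b c t z) (y : ℤ) :
    D.hhi y ≤ (D.grow a b z).hhi y := by
  by_cases hy : y = z
  · rw [hy, grow_hhi_self]; have := k.za; have := k.f.ab; omega
  · rw [grow_hhi y hy]

theorem GrowData.at_top (k : GrowData D a b c t z) : t ≤ D.vhi a := by
  have := k.ok.vx a k.aV
  rcases k.f.al with e | ⟨_, _, e⟩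
  · omega
  · exact e

theorem GrowData.grow_ok (k : GrowData D a b c t z) : (D.grow a b z).Ok := by
  have h := k.ok
  have f := k.f
  have hab := f.ab
  have hct := f.ct
  have haV := k.aV
  have hac := k.ac
  have hzc := k.zc
  have hzt := k.zt
  have hza := k.za
  have hat := k.at_top
  refine ⟨h.hx, h.hy, h.vx, h.hyy, ?_, ?_, ?_, ?_, ?_, ?_, ?_⟩
  · intro x hx
    change (D.grow a b z).vlo x < D.vhi x
    by_cases e : x = a
    · subst e; rw [grow_vlo_self]; omega
    · rw [grow_vlo x e]; exact h.vlt x hx
  · intro y hy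
    have := h.hlt y hy
    have := k.le_hhi y
    change D.hlo y < (D.grow a b z).hhi y
    omega
  · intro x hx
    by_cases e : x = a
    · subst e
      rw [grow_vlo_self]
      have := h.hlt z k.zH
      exact Or.inr ⟨k.zH, by show D.hlo z < x; omega, by rw [grow_hhi_self]; omega⟩
    · rw [grow_vlo x e]
      rcases h.vl x hx with g | ⟨g1, g2, g3⟩
      · exact Or.inl g
      · have := k.le_hhi (D.vlo x)
        exact Or.inr ⟨g1, g2, by omega⟩
  · intro x hx
    rcases h.vh x hx with g | ⟨g1, g2, g3⟩
    · exact Or.inl g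
    · have := k.le_hhi (D.vhi x)
      exact Or.inr ⟨g1, g2, show x < (D.grow a b z).hhi (D.vhi x) by omega⟩
  · intro y hy
    change D.hlo y = D.x0 ∨ (D.hlo y ∈ D.V ∧ (D.grow a b z).vlo (D.hlo y) < y ∧
      y < D.vhi (D.hlo y))
    rcases h.hl y hy with g | ⟨g1, g2, g3⟩
    · exact Or.inl g
    · refine Or.inr ⟨g1, ?_, g3⟩
      by_cases e : D.hlo y = a
      · rw [e, grow_vlo_self]
        rw [e] at g2 g3
        by_contra hcon
        have := h.hlt y hy
        rcases f.fh y hy (by omega) (by omega) with i | i <;> omega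
      · rw [grow_vlo _ e]; exact g2
  · intro y hy
    change (D.grow a b z).hhi y = D.x1 ∨ ((D.grow a b z).hhi y ∈ D.V ∧
      (D.grow a b z).vlo ((D.grow a b z).hhi y) < y ∧ y < D.vhi ((D.grow a b z).hhi y))
    by_cases ez : y = z
    · subst ez
      rw [grow_hhi_self]
      rcases f.bl with i | ⟨i1, i2, i3⟩
      · exact Or.inl i
      · rw [grow_vlo b (by omega)]
        exact Or.inr ⟨i1, by omega, by omega⟩
    · rw [grow_hhi y ez]
      rcases h.hh y hy with g | ⟨g1, g2, g3⟩
      · exact Or.inl g
      · refine Or.inr ⟨g1, ?_, g3⟩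
        by_cases e : D.hhi y = a
        · rw [e, grow_vlo_self]
          rw [e] at g2 g3
          by_contra hcon
          exact k.zm y hy (by omega) (by omega) e
        · rw [grow_vlo _ e]; exact g2
  · rintro x hx y hy ⟨i1, i2, i3, i4⟩
    change (D.grow a b z).vlo x < y at i1
    change y < D.vhi x at i2
    change D.hlo y < x at i3
    change x < (D.grow a b z).hhi y at i4
    have j1 := k.le_vlo x
    by_cases ez : y = z
    · subst ez
      rw [grow_hhi_self] at i4
      rcases lt_trichotomy x a with e | e | e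
      · exact h.nc x hx y hy ⟨by omega, i2, i3, by omega⟩
      · subst e; rw [grow_vlo_self] at i1; omega
      · rcases f.fv x hx e i4 with g | g <;> omega
    · rw [grow_hhi y ez] at i4
      exact h.nc x hx y hy ⟨by omega, i2, i3, i4⟩

/-- The new face belonging to the old face `g`. -/
def growF (a b z : ℤ) (g : Quad) : Quad :=
  if g.2.1 = a ∧ g.2.2.2 = z then (g.1, b, g.2.2.1, g.2.2.2) else g

theorem sub_growF (hab : a < b) (g : Quad) : Sub g (growF a b z g) := by
  unfold growF Sub
  split_ifs with h
  · simp only; omega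
  · simp

/-- A face whose upper right corner is `(a, z)` has its bottom on `c`. -/
theorem GrowData.corner (k : GrowData D a b c t z) {ga gc : ℤ} (hg : IsFace D ga a gc z) :
    gc = c := by
  have h := k.ok
  have hx := h.vx a k.aV
  have hat := k.at_top
  have h1 := k.ac
  have h2 := k.zt
  have h3 := hg.ct
  have h4 := hg.ab
  rcases hg.bl with e | ⟨_, e1, e2⟩
  · omega
  · by_contra hne
    rcases hg.cl with e | ⟨e3, e4, e5⟩
    · have := h.hyy c k.cH; omega
    · by_cases e6 : D.hhi gc = a
      · exact k.zm gc e3 (by omega) h3 e6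
      · exact h.nc a k.aV gc e3 ⟨by omega, by omega, by omega, by omega⟩

theorem GrowData.face_self (k : GrowData D a b c t z) : IsFace (D.grow a b z) a b z t where
  ab := k.f.ab
  ct := k.zt
  a0 := k.f.a0
  b1 := k.f.b1
  c0 := by have := k.f.c0; have := k.zc; change D.y0 ≤ z; omega
  t1 := k.f.t1
  al := Or.inr ⟨k.aV, by rw [grow_vlo_self], k.at_top⟩
  bl := by
    rcases k.f.bl with e | ⟨e1, e2, e3⟩
    · exact Or.inl e
    · have h1 := k.f.ab
      have h2 := k.zc
      exact Or.inr ⟨e1, by rw [grow_vlo b (by omega)]; omega, e3⟩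
  cl := by
    have h1 := k.za
    have h2 := k.ok.hlt z k.zH
    exact Or.inr ⟨k.zH, show D.hlo z ≤ a by omega, by rw [grow_hhi_self]⟩
  tl := by
    rcases k.f.tl with e | ⟨e1, e2, e3⟩
    · exact Or.inl e
    · have := k.le_hhi t
      exact Or.inr ⟨e1, e2, by omega⟩
  fv := by
    intro x hx h1 h2
    have h3 := k.zc
    rw [grow_vlo x (by omega)]
    rcases k.f.fv x hx h1 h2 with e | e
    · left; change D.vhi x ≤ z; omega
    · exact Or.inr e
  fh := by
    intro y hy h1 h2
    have h3 := k.zc
    rw [grow_hhi y (by omega)]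
    exact k.f.fh y hy (by omega) h2

theorem GrowData.face_left (k : GrowData D a b c t z) {ga : ℤ} (hg : IsFace D ga a c z) :
    IsFace (D.grow a b z) ga b c z where
  ab := by have := hg.ab; have := k.f.ab; omega
  ct := k.zc
  a0 := hg.a0
  b1 := k.f.b1
  c0 := hg.c0
  t1 := hg.t1
  al := by
    rcases hg.al with e | ⟨e1, e2, e3⟩
    · exact Or.inl e
    · have := hg.ab
      exact Or.inr ⟨e1, by rw [grow_vlo ga (by omega)]; omega, e3⟩
  bl := by
    rcases k.f.bl with e | ⟨e1, e2, e3⟩
    · exact Or.inl e
    · have h1 := k.f.ab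
      have h2 := k.zt
      exact Or.inr ⟨e1, by rw [grow_vlo b (by omega)]; omega, show z ≤ D.vhi b by omega⟩
  cl := by
    have hc := k.ok.hyy c k.cH
    rcases hg.cl with e | ⟨_, e2, _⟩
    · omega
    · rcases k.f.cl with e | ⟨_, _, e4⟩
      · omega
      · have := k.le_hhi c
        exact Or.inr ⟨k.cH, e2, by omega⟩
  tl := by
    have hz := k.ok.hyy z k.zH
    rcases hg.tl with e | ⟨_, e2, _⟩
    · omega
    · exact Or.inr ⟨k.zH, e2, by rw [grow_hhi_self]⟩
  fv := by
    intro x hx h1 h2
    have h3 := k.zt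
    change D.vhi x ≤ c ∨ _
    rcases lt_trichotomy x a with e | e | e
    · rw [grow_vlo x (by omega)]
      exact hg.fv x hx h1 e
    · subst e; rw [grow_vlo_self]; exact Or.inr (le_refl _)
    · rw [grow_vlo x (by omega)]
      rcases k.f.fv x hx e h2 with g | g
      · exact Or.inl g
      · right; omega
  fh := by
    intro y hy h1 h2
    have h3 := k.zt
    have h4 := k.ok.hlt y hy
    rw [grow_hhi y (by omega)]
    change _ ∨ b ≤ D.hlo y
    rcases hg.fh y hy h1 h2 with g | g
    · exact Or.inl g
    · rcases k.f.fh y hy h1 (by omega) with i | i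
      · omega
      · exact Or.inr i

theorem GrowData.face_other (k : GrowData D a b c t z) {ga gb gc gt : ℤ}
    (hg : IsFace D ga gb gc gt) (hne : (ga, gb, gc, gt) ≠ (a, b, c, t))
    (hn : ¬ (gb = a ∧ gt = z)) : IsFace (D.grow a b z) ga gb gc gt := by
  have h := k.ok
  have f := k.f
  have hab := f.ab
  have hct := f.ct
  have haV := h.vx a k.aV
  have hac := k.ac
  have hzc := k.zc
  have hzt := k.zt
  have hza := k.za
  have hat := k.at_top
  have gab := hg.ab
  have gct := hg.ct
  have hnot : ∀ p q, a ≤ p → p < b → c ≤ q → q < t → ga ≤ p → p < gb → gc ≤ q → q < gt →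
      False := by
    intro p q h1 h2 h3 h4 h5 h6 h7 h8
    exact hne (IsF.unique (p := p) (q := q) (show IsF D (ga, gb, gc, gt) from hg)
      (show IsF D (a, b, c, t) from f) h5 h6 h7 h8 h1 h2 h3 h4)
  refine ⟨gab, gct, hg.a0, hg.b1, hg.c0, hg.t1, ?_, ?_, ?_, ?_, ?_, ?_⟩
  · rcases hg.al with e | ⟨e1, e2, e3⟩
    · exact Or.inl e
    · refine Or.inr ⟨e1, ?_, e3⟩
      by_cases i : ga = a
      · rw [i, grow_vlo_self]
        rw [i] at e2
        by_contra hcon
        exact hnot a gc (by omega) (by omega) (by omega) (by omega) (by omega) (by omega)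
          (by omega) (by omega)
      · rw [grow_vlo ga i]; exact e2
  · rcases hg.bl with e | ⟨e1, e2, e3⟩
    · exact Or.inl e
    · refine Or.inr ⟨e1, ?_, e3⟩
      by_cases i : gb = a
      · rw [i, grow_vlo_self]
        rw [i] at e2 e3
        by_contra hcon
        have hzl := h.hlt z k.zH
        have h1 : gt ≤ z := by
          by_contra hcon2
          rcases hg.fh z k.zH (by omega) (by omega) with j | j <;> omega
        have h2 : gt ≠ z := fun e => hn ⟨i, e⟩
        rcases hg.tl with j | ⟨j1, j2, j3⟩
        · have := h.hyy z k.zH; omega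
        · by_cases l : D.hhi gt = a
          · exact k.zm gt j1 (by omega) (by omega) l
          · exact h.nc a k.aV gt j1 ⟨by omega, by omega, by omega, by omega⟩
      · rw [grow_vlo gb i]; exact e2
  · rcases hg.cl with e | ⟨e1, e2, e3⟩
    · exact Or.inl e
    · have := k.le_hhi gc
      exact Or.inr ⟨e1, e2, by omega⟩
  · rcases hg.tl with e | ⟨e1, e2, e3⟩
    · exact Or.inl e
    · have := k.le_hhi gt
      exact Or.inr ⟨e1, e2, by omega⟩
  · intro x hx h1 h2
    have := k.le_vlo x
    change D.vhi x ≤ gc ∨ _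
    rcases hg.fv x hx h1 h2 with e | e
    · exact Or.inl e
    · right; omega
  · intro y hy h1 h2
    change _ ∨ gb ≤ D.hlo y
    by_cases i : y = z
    · subst i
      rw [grow_hhi_self]
      have hzl := h.hlt y k.zH
      rcases hg.fh y hy h1 h2 with e | e
      · left
        by_contra hcon
        exact hnot ga y (by omega) (by omega) (by omega) (by omega) (by omega) (by omega)
          (by omega) (by omega)
      · exact Or.inr e
    · rw [grow_hhi y i]
      exact hg.fh y hy h1 h2

theorem GrowData.face (k : GrowData D a b c t z) {g : Quad} (hg : IsF D g)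
    (hne : g ≠ (a, b, c, t)) : IsF (D.grow a b z) (growF a b z g) := by
  obtain ⟨ga, gb, gc, gt⟩ := g
  unfold growF
  simp only
  split_ifs with hcase
  · obtain ⟨rfl, rfl⟩ := hcase
    have e := k.corner hg
    subst e
    exact k.face_left hg
  · exact k.face_other hg hne hcase

theorem GrowData.inj (k : GrowData D a b c t z) {g g' : Quad} (hg : IsF D g) (hg' : IsF D g')
    (hne : g ≠ (a, b, c, t)) (hne' : g' ≠ (a, b, c, t))
    (e : growF a b z g = growF a b z g') : g = g' := by
  have f := k.f
  have hab := f.ab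
  have hct := f.ct
  have hzc := k.zc
  have hzt := k.zt
  obtain ⟨ga, gb, gc, gt⟩ := g
  obtain ⟨ga', gb', gc', gt'⟩ := g'
  have gct : gc < gt := IsFace.ct hg
  have gct' : gc' < gt' := IsFace.ct hg'
  have gab : ga < gb := IsFace.ab hg
  have gab' : ga' < gb' := IsFace.ab hg'
  unfold growF at e
  simp only at e
  split_ifs at e with h1 h2 h2
  · simp only [Prod.mk.injEq] at e ⊢
    omega
  · simp only [Prod.mk.injEq] at e
    obtain ⟨i1, i2⟩ := h1
    subst i1 i2
    have ec : gc = c := k.corner hg
    exfalso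
    apply hne'
    exact IsF.unique (p := gb) (q := gc) hg' (show IsF D (gb, b, c, t) from f)
      (by simp only; omega) (by simp only; omega) (by simp only; omega) (by simp only; omega)
      (by simp only; omega) (by simp only; omega) (by simp only; omega) (by simp only; omega)
  · simp only [Prod.mk.injEq] at e
    obtain ⟨i1, i2⟩ := h2
    subst i1 i2
    have ec : gc' = c := k.corner hg'
    exfalso
    apply hne
    exact IsF.unique (p := gb') (q := gc') hg (show IsF D (gb', b, c, t) from f)
      (by simp only; omega) (by simp only; omega) (by simp only; omega) (by simp only; omega)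
      (by simp only; omega) (by simp only; omega) (by simp only; omega) (by simp only; omega)
  · exact e

theorem GrowData.fits {ι : Type} {S F : ι → Quad} (k : GrowData D a b c t z)
    (hF : FitsVia D S F) (hne : ∀ i, F i ≠ (a, b, c, t)) :
    FitsVia (D.grow a b z) S (fun i => growF a b z (F i)) where
  face := fun i => k.face (hF.face i) (hne i)
  sub := fun i => by
    have h1 := hF.sub i
    have h2 := sub_growF (z := z) k.f.ab (F i)
    unfold Sub at h1 h2 ⊢
    omega
  inj := fun i j e => hF.inj (k.inj (hF.face i) (hF.face j) (hne i) (hne j) e)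

end

end Pool.Agent.Helper23.BG
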