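import Mathlib
import Pool.Agent.Helper23.BG.Collapse
import Pool.Agent.Helper23.BG.Grow

/-! Minimal dissections: every face without a seed is a clean windmill. -/

namespace Pool.Agent.Helper23.BG

/-- Windmill of the first kind: left piece ends at the bottom, bottom piece at the right, right
piece at the top, top piece at the left. -/
structure WA (D : Dis) (a b c t : ℤ) : Prop where
  aV : a ∈ D.V
  bV : b ∈ D.V
  cH : c ∈ D.H
  tH : t ∈ D.H
  l1 : D.vlo a = c
  b1 : D.hhi c = b
  r1 : D.vhi b = t
  t1 : D.hlo t = a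
  l2 : t < D.vhi a
  b2 : D.hlo c < a
  r2 : D.vlo b < c
  t2 : b < D.hhi t

/-- Windmill of the second kind. -/
structure WB (D : Dis) (a b c t : ℤ) : Prop where
  aV : a ∈ D.V
  bV : b ∈ D.V
  cH : c ∈ D.H
  tH : t ∈ D.H
  l1 : D.vhi a = t
  b1 : D.hlo c = a
  r1 : D.vlo b = c
  t1 : D.hhi t = b
  l2 : D.vlo a < c
  b2 : b < D.hhi c
  r2 : t < D.vhi b
  t2 : D.hlo t < a

theorem WA.flipX {D : Dis} {a b c t : ℤ} (h : WA D a b c t) : WB D.flipX (-b) (-a) c t where
  aV := mem_neg_image.2 (by simpa using h.bV)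
  bV := mem_neg_image.2 (by simpa using h.aV)
  cH := h.cH
  tH := h.tH
  l1 := by simp only [Dis.flipX, neg_neg]; exact h.r1
  b1 := by simp only [Dis.flipX]; rw [h.b1]
  r1 := by simp only [Dis.flipX, neg_neg]; exact h.l1
  t1 := by simp only [Dis.flipX]; rw [h.t1]
  l2 := by simp only [Dis.flipX, neg_neg]; exact h.r2
  b2 := by have := h.b2; simp only [Dis.flipX]; omega
  r2 := by simp only [Dis.flipX, neg_neg]; exact h.l2
  t2 := by have := h.t2; simp only [Dis.flipX]; omega

theorem WB.flipX {D : Dis} {a b c t : ℤ} (h : WB D a b c t) : WA D.flipX (-b) (-a) c t where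
  aV := mem_neg_image.2 (by simpa using h.bV)
  bV := mem_neg_image.2 (by simpa using h.aV)
  cH := h.cH
  tH := h.tH
  l1 := by simp only [Dis.flipX, neg_neg]; exact h.r1
  b1 := by simp only [Dis.flipX]; rw [h.b1]
  r1 := by simp only [Dis.flipX, neg_neg]; exact h.l1
  t1 := by simp only [Dis.flipX]; rw [h.t1]
  l2 := by simp only [Dis.flipX, neg_neg]; exact h.r2
  b2 := by have := h.b2; simp only [Dis.flipX]; omega
  r2 := by simp only [Dis.flipX, neg_neg]; exact h.l2
  t2 := by have := h.t2; simp only [Dis.flipX]; omega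

theorem WA.swap {D : Dis} {a b c t : ℤ} (h : WA D a b c t) : WB D.swap c t a b :=
  ⟨h.cH, h.tH, h.aV, h.bV, h.b1, h.l1, h.t1, h.r1, h.b2, h.l2, h.t2, h.r2⟩

theorem WB.swap {D : Dis} {a b c t : ℤ} (h : WB D a b c t) : WA D.swap c t a b :=
  ⟨h.cH, h.tH, h.aV, h.bV, h.b1, h.l1, h.t1, h.r1, h.b2, h.l2, h.t2, h.r2⟩

/-- The number of pieces. -/
def Dis.pc (D : Dis) : ℕ := D.V.card + D.H.card

theorem Dis.pc_swap (D : Dis) : D.swap.pc = D.pc := Nat.add_comm _ _

theorem Dis.pc_flipX (D : Dis) : D.flipX.pc = D.pc := by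
  simp only [Dis.pc, Dis.flipX]
  rw [Finset.card_image_of_injective _ neg_injective]

/-- The two dissections live in the same box. -/
def SameBox (D D' : Dis) : Prop := D'.x0 = D.x0 ∧ D'.x1 = D.x1 ∧ D'.y0 = D.y0 ∧ D'.y1 = D.y1

theorem SameBox.swap {D D' : Dis} (h : SameBox D.swap D') : SameBox D D'.swap :=
  ⟨h.2.2.1, h.2.2.2, h.1, h.2.1⟩

theorem SameBox.flipX {D D' : Dis} (h : SameBox D.flipX D') : SameBox D D'.flipX := by
  obtain ⟨h1, h2, h3, h4⟩ := h
  simp only [Dis.flipX] at h1 h2 h3 h4
  refine ⟨?_, ?_, h3, h4⟩ <;> simp only [Dis.flipX] <;> omega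

/-- The number of pieces is minimal. -/
structure PMin {ι : Type} (S : ι → Quad) (D : Dis) (F : ι → Quad) : Prop where
  ok : D.Ok
  fits : FitsVia D S F
  min : ∀ D' F', D'.Ok → FitsVia D' S F' → SameBox D D' → D.pc ≤ D'.pc

section
variable {ι : Type} {S : ι → Quad} {D : Dis} {F : ι → Quad}

theorem FitsVia.of_swap {D' : Dis} {F' : ι → Quad}
    (h : FitsVia D' (fun i => (S i).swap) F') : FitsVia D'.swap S (fun i => (F' i).swap) :=
  h.swap

theorem FitsVia.of_flipX {D' : Dis} {F' : ι → Quad}
    (h : FitsVia D' (fun i => (S i).flipX) F') : FitsVia D'.flipX S (fun i => (F' i).flipX) := by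
  have := h.flipX
  simp only [Quad.flipX_flipX] at this
  exact this

theorem PMin.swap (h : PMin S D F) :
    PMin (fun i => (S i).swap) D.swap (fun i => (F i).swap) where
  ok := h.ok.swap
  fits := h.fits.swap
  min := fun D' F' h1 h2 h3 => by
    have := h.min D'.swap _ h1.swap h2.of_swap h3.swap
    rw [Dis.pc_swap] at this ⊢
    exact this

theorem PMin.flipX (h : PMin S D F) :
    PMin (fun i => (S i).flipX) D.flipX (fun i => (F i).flipX) where
  ok := h.ok.flipX
  fits := h.fits.flipX
  min := fun D' F' h1 h2 h3 => by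
    have := h.min D'.flipX _ h1.flipX h2.of_flipX h3.flipX
    rw [Dis.pc_flipX] at this ⊢
    exact this

theorem PMin.noR (h : PMin S D F) {a b c t : ℤ} (f : IsFace D a b c t)
    (hne : ∀ i, F i ≠ (a, b, c, t)) (hb : b ∈ D.V) (h1 : D.vlo b = c) (h2 : D.vhi b = t) :
    False := by
  have h3 := h.min (D.coll a b) _ (coll_ok h.ok f hb h1 h2)
    (coll_fits h.ok f hb h1 h2 h.fits hne) ⟨rfl, rfl, rfl, rfl⟩
  simp only [Dis.pc, Dis.coll] at h3
  rw [Finset.card_erase_of_mem hb] at h3
  have h4 := Finset.card_pos.2 ⟨b, hb⟩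
  omega

theorem PMin.noL (h : PMin S D F) {a b c t : ℤ} (f : IsFace D a b c t)
    (hne : ∀ i, F i ≠ (a, b, c, t)) (ha : a ∈ D.V) (h1 : D.vlo a = c) (h2 : D.vhi a = t) :
    False := by
  refine h.flipX.noR f.flipX (fun i e => hne i ?_) (mem_neg_image.2 (by simpa using ha)) ?_ ?_
  · have := congrArg Quad.flipX e
    simpa only [Quad.flipX_flipX, Quad.flipX, neg_neg] using this
  · simp only [Dis.flipX, neg_neg]; exact h1
  · simp only [Dis.flipX, neg_neg]; exact h2

theorem PMin.noT (h : PMin S D F) {a b c t : ℤ} (f : IsFace D a b c t)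
    (hne : ∀ i, F i ≠ (a, b, c, t)) (ht : t ∈ D.H) (h1 : D.hlo t = a) (h2 : D.hhi t = b) :
    False :=
  h.swap.noR f.swap (fun i e => hne i (congrArg Quad.swap e)) ht h1 h2

theorem PMin.noB (h : PMin S D F) {a b c t : ℤ} (f : IsFace D a b c t)
    (hne : ∀ i, F i ≠ (a, b, c, t)) (hc : c ∈ D.H) (h1 : D.hlo c = a) (h2 : D.hhi c = b) :
    False :=
  h.swap.noL f.swap (fun i e => hne i (congrArg Quad.swap e)) hc h1 h2

theorem PMin.innerL [Nonempty ι] (h : PMin S D F) {a b c t : ℤ} (f : IsFace D a b c t)
    (hne : ∀ i, F i ≠ (a, b, c, t)) : a ∈ D.V := by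
  rcases f.al with e | ⟨e, _, _⟩
  · exfalso
    have hab := f.ab
    have hct := f.ct
    rcases f.bl with e1 | ⟨e1, e2, e3⟩
    · -- the face touches both vertical sides of the box
      have hc : c = D.y0 := by
        rcases f.cl with i | ⟨i1, i2, i3⟩
        · exact i
        · have j1 := h.ok.hlo_ge i1
          have j2 := h.ok.hhi_le i1
          exact (h.noB f hne i1 (by omega) (by omega)).elim
      have ht : t = D.y1 := by
        rcases f.tl with i | ⟨i1, i2, i3⟩
        · exact i
        · have j1 := h.ok.hlo_ge i1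
          have j2 := h.ok.hhi_le i1
          exact (h.noT f hne i1 (by omega) (by omega)).elim
      obtain ⟨i⟩ := ‹Nonempty ι›
      have g := h.fits.face i
      have g1 := IsFace.a0 g
      have g2 := IsFace.b1 g
      have g3 := IsFace.c0 g
      have g4 := IsFace.t1 g
      have g5 := IsFace.ab g
      have g6 := IsFace.ct g
      exact hne i (IsF.unique (p := (F i).1) (q := (F i).2.2.1) g
        (show IsF D (a, b, c, t) from f) (le_refl _) g5 (le_refl _) g6
        (by simp only; omega) (by simp only; omega) (by simp only; omega) (by simp only; omega))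
    · have hbl : D.vlo b = c := by
        rcases f.cl with i | ⟨i1, i2, i3⟩
        · have := h.ok.vlo_ge e1; omega
        · have j1 := h.ok.hlo_ge i1
          by_contra hcon
          by_cases k : D.hhi c = b
          · exact h.noB f hne i1 (by omega) k
          · exact h.ok.nc b e1 c i1 ⟨by omega, by omega, by omega, by omega⟩
      have hbt : D.vhi b = t := by
        rcases f.tl with i | ⟨i1, i2, i3⟩
        · have := h.ok.vhi_le e1; omega
        · have j1 := h.ok.hlo_ge i1
          by_contra hcon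
          by_cases k : D.hhi t = b
          · exact h.noT f hne i1 (by omega) k
          · exact h.ok.nc b e1 t i1 ⟨by omega, by omega, by omega, by omega⟩
      exact h.noR f hne e1 hbl hbt
  · exact e

theorem PMin.innerR [Nonempty ι] (h : PMin S D F) {a b c t : ℤ} (f : IsFace D a b c t)
    (hne : ∀ i, F i ≠ (a, b, c, t)) : b ∈ D.V := by
  have := h.flipX.innerL f.flipX (fun i e => hne i (by
    have := congrArg Quad.flipX e
    simpa only [Quad.flipX_flipX, Quad.flipX, neg_neg] using this))
  simpa using mem_neg_image.1 this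

theorem PMin.innerB [Nonempty ι] (h : PMin S D F) {a b c t : ℤ} (f : IsFace D a b c t)
    (hne : ∀ i, F i ≠ (a, b, c, t)) : c ∈ D.H :=
  h.swap.innerL f.swap (fun i e => hne i (congrArg Quad.swap e))

theorem PMin.innerT [Nonempty ι] (h : PMin S D F) {a b c t : ℤ} (f : IsFace D a b c t)
    (hne : ∀ i, F i ≠ (a, b, c, t)) : t ∈ D.H :=
  h.swap.innerR f.swap (fun i e => hne i (congrArg Quad.swap e))

/-- A face without a seed is a windmill. -/
theorem PMin.windmill [Nonempty ι] (h : PMin S D F) {a b c t : ℤ} (f : IsFace D a b c t)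
    (hne : ∀ i, F i ≠ (a, b, c, t)) : WA D a b c t ∨ WB D a b c t := by
  have ha := h.innerL f hne
  have hb := h.innerR f hne
  have hc := h.innerB f hne
  have ht := h.innerT f hne
  have ka := h.ok.vx a ha
  have kb := h.ok.vx b hb
  have kc := h.ok.hyy c hc
  have kt := h.ok.hyy t ht
  have hab := f.ab
  have hct := f.ct
  have fa : D.vlo a ≤ c ∧ t ≤ D.vhi a := by
    rcases f.al with e | ⟨_, e⟩
    · omega
    · exact e
  have fb : D.vlo b ≤ c ∧ t ≤ D.vhi b := by
    rcases f.bl with e | ⟨_, e⟩
    · omega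
    · exact e
  have fc : D.hlo c ≤ a ∧ b ≤ D.hhi c := by
    rcases f.cl with e | ⟨_, e⟩
    · omega
    · exact e
  have ft : D.hlo t ≤ a ∧ b ≤ D.hhi t := by
    rcases f.tl with e | ⟨_, e⟩
    · omega
    · exact e
  have nL := h.noL f hne ha
  have nR := h.noR f hne hb
  have nB := h.noB f hne hc
  have nT := h.noT f hne ht
  have x1 := h.ok.nc a ha c hc
  have x2 := h.ok.nc a ha t ht
  have x3 := h.ok.nc b hb c hc
  have x4 := h.ok.nc b hb t ht
  by_cases hA : D.vlo a = c
  · left
    have e1 : t < D.vhi a := by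
      rcases lt_or_eq_of_le fa.2 with e | e
      · exact e
      · exact (nL hA e.symm).elim
    have e2 : D.hlo t = a := by
      by_contra hcon
      exact x2 ⟨by omega, by omega, by omega, by omega⟩
    have e3 : b < D.hhi t := by
      rcases lt_or_eq_of_le ft.2 with e | e
      · exact e
      · exact (nT e2 e.symm).elim
    have e4 : D.vhi b = t := by
      by_contra hcon
      exact x4 ⟨by omega, by omega, by omega, by omega⟩
    have e5 : D.vlo b < c := by
      rcases lt_or_eq_of_le fb.1 with e | e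
      · exact e
      · exact (nR e e4).elim
    have e6 : D.hhi c = b := by
      by_contra hcon
      exact x3 ⟨by omega, by omega, by omega, by omega⟩
    have e7 : D.hlo c < a := by
      rcases lt_or_eq_of_le fc.1 with e | e
      · exact e
      · exact (nB e e6).elim
    exact ⟨ha, hb, hc, ht, hA, e6, e4, e2, e1, e7, e5, e3⟩
  · right
    have e0 : D.vlo a < c := by omega
    have e1 : D.hlo c = a := by
      by_contra hcon
      exact x1 ⟨by omega, by omega, by omega, by omega⟩
    have e2 : b < D.hhi c := by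
      rcases lt_or_eq_of_le fc.2 with e | e
      · exact e
      · exact (nB e1 e.symm).elim
    have e3 : D.vlo b = c := by
      by_contra hcon
      exact x3 ⟨by omega, by omega, by omega, by omega⟩
    have e4 : t < D.vhi b := by
      rcases lt_or_eq_of_le fb.2 with e | e
      · exact e
      · exact (nR e3 e.symm).elim
    have e5 : D.hhi t = b := by
      by_contra hcon
      exact x4 ⟨by omega, by omega, by omega, by omega⟩
    have e6 : D.hlo t < a := by
      rcases lt_or_eq_of_le ft.1 with e | e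
      · exact e
      · exact (nT e e5).elim
    have e7 : D.vhi a = t := by
      by_contra hcon
      exact x2 ⟨by omega, by omega, by omega, by omega⟩
    exact ⟨ha, hb, hc, ht, e7, e1, e3, e5, e0, e2, e4, e6⟩

end

end Pool.Agent.Helper23.BG
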