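import Mathlib
import Pool.Agent.Helper23.BG.Min

/-! Dissections with the fewest pieces and the largest seed faces: the open sides of the
windmills carry no ends of pieces. -/

namespace Pool.Agent.Helper23.BG

/-- The area of a box. -/
def area (f : Quad) : ℤ := (f.2.1 - f.1) * (f.2.2.2 - f.2.2.1)

theorem area_swap (f : Quad) : area f.swap = area f := by
  simp only [area, Quad.swap]; ring

theorem area_flipX (f : Quad) : area f.flipX = area f := by
  simp only [area, Quad.flipX]; ring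

/-- Fewest pieces and, among those, largest total area of the faces of the seeds. -/
structure FMin {ι : Type} [Fintype ι] (S : ι → Quad) (D : Dis) (F : ι → Quad) : Prop where
  p : PMin S D F
  amax : ∀ D' F', D'.Ok → FitsVia D' S F' → SameBox D D' → D'.pc = D.pc →
    ∑ i, area (F' i) ≤ ∑ i, area (F i)

section
variable {ι : Type} [Fintype ι] {S : ι → Quad} {D : Dis} {F : ι → Quad}

theorem FMin.swap (h : FMin S D F) :
    FMin (fun i => (S i).swap) D.swap (fun i => (F i).swap) where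
  p := h.p.swap
  amax := fun D' F' h1 h2 h3 h4 => by
    rw [Dis.pc_swap] at h4
    have := h.amax D'.swap _ h1.swap h2.of_swap h3.swap (by rw [Dis.pc_swap]; exact h4)
    simpa only [area_swap] using this

theorem FMin.flipX (h : FMin S D F) :
    FMin (fun i => (S i).flipX) D.flipX (fun i => (F i).flipX) where
  p := h.p.flipX
  amax := fun D' F' h1 h2 h3 h4 => by
    rw [Dis.pc_flipX] at h4
    have := h.amax D'.flipX _ h1.flipX h2.of_flipX h3.flipX (by rw [Dis.pc_flipX]; exact h4)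
    simpa only [area_flipX] using this

theorem area_mono {f g : Quad} (h : Sub f g) (h1 : f.1 < f.2.1) (h2 : f.2.2.1 < f.2.2.2) :
    area f ≤ area g := by
  obtain ⟨i1, i2, i3, i4⟩ := h
  unfold area
  exact mul_le_mul (by omega) (by omega) (by omega) (by omega)

/-- The left side of a windmill of the first kind carries no end. -/
theorem FMin.cleanL [Nonempty ι] (h : FMin S D F) {a b c t : ℤ} (f : IsFace D a b c t)
    (hne : ∀ i, F i ≠ (a, b, c, t)) (w : WA D a b c t) {y : ℤ} (hy : y ∈ D.H) (h1 : c < y)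
    (h2 : y < t) : D.hhi y ≠ a := by
  classical
  intro hya
  -- the lowest end on the side
  obtain ⟨z, hz, hzm⟩ : ∃ z ∈ D.H.filter (fun y => c < y ∧ y < t ∧ D.hhi y = a),
      ∀ w ∈ D.H.filter (fun y => c < y ∧ y < t ∧ D.hhi y = a), z ≤ w := by
    have hn : (D.H.filter (fun y => c < y ∧ y < t ∧ D.hhi y = a)).Nonempty :=
      ⟨y, by simp only [Finset.mem_filter]; exact ⟨hy, h1, h2, hya⟩⟩
    exact ⟨_, Finset.min'_mem _ hn, fun w hw => Finset.min'_le _ w hw⟩
  simp only [Finset.mem_filter] at hz hzm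
  obtain ⟨hzH, hcz, hzt, hza⟩ := hz
  have k : GrowData D a b c t z := by
    refine ⟨h.p.ok, f, w.aV, w.l1, w.cH, hzH, hcz, hzt, hza, ?_⟩
    intro y hy i1 i2 i3
    have := hzm y ⟨hy, i1, by omega, i3⟩
    omega
  have hab := f.ab
  have hct := f.ct
  have ka := h.p.ok.vx a w.aV
  have kz := h.p.ok.hyy z hzH
  have kc := h.p.ok.hyy c w.cH
  have hl1 := w.l1
  have hl2 := w.l2
  have hzl := h.p.ok.hlt z hzH
  -- the face to the left of the side below `z`
  obtain ⟨ta, tb, tc, tt, g, j1, j2, j3, j4⟩ :=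
    exists_face h.p.ok (p := a - 1) (q := z - 1) (by omega) (by omega) (by omega) (by omega)
  have etb : tb = a := by
    by_contra hcon
    rcases g.fv a w.aV (by omega) (by omega) with e | e <;> omega
  subst etb
  have ett : tt = z := by
    by_contra hcon
    rcases g.fh z hzH (by omega) (by omega) with e | e
    · have := g.ab; omega
    · omega
  subst ett
  have etc := k.corner g
  subst etc
  have gne : (ta, tb, tc, tt) ≠ (tb, b, tc, t) := by
    intro e
    simp only [Prod.mk.injEq] at e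
    omega
  have gnew := k.face_left g
  have hfit := k.fits h.p.fits hne
  by_cases hr : ∃ i, F i = (ta, tb, tc, tt)
  · obtain ⟨i, hi⟩ := hr
    have hle := h.amax (D.grow tb b tt) _ k.grow_ok hfit ⟨rfl, rfl, rfl, rfl⟩ rfl
    have hlt : ∑ i, area (F i) < ∑ i, area (growF tb b tt (F i)) := by
      refine Finset.sum_lt_sum ?_ ⟨i, Finset.mem_univ i, ?_⟩
      · intro j _
        exact area_mono (sub_growF hab _) (IsFace.ab (h.p.fits.face j))
          (IsFace.ct (h.p.fits.face j))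
      · rw [hi]
        have hgt := g.ab
        simp only [growF, area, and_self, if_true]
        have e1 : (tb - ta) * (tt - tc) < (b - ta) * (tt - tc) :=
          mul_lt_mul_of_pos_right (by omega) (by omega)
        exact e1
    omega
  · push Not at hr
    have hP : PMin S (D.grow tb b tt) (fun i => growF tb b tt (F i)) := by
      refine ⟨k.grow_ok, hfit, ?_⟩
      intro D' F' i1 i2 i3
      exact h.p.min D' F' i1 i2 i3
    have hwm := h.p.windmill g hr
    have hB : WB D ta tb tc tt := by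
      rcases hwm with e | e
      · have := e.r2; omega
      · exact e
    refine hP.noB gnew ?_ w.cH hB.b1 ?_
    · intro i e
      apply hr i
      apply k.inj (h.p.fits.face i) (show IsF D (ta, tb, tc, tt) from g) (hne i) gne
      rw [e]
      simp [growF]
    · rw [grow_hhi tc (by omega)]; exact w.b1

/-- No end of a piece lies in an open side of the box. -/
structure CleanF (D : Dis) (a b c t : ℤ) : Prop where
  cl : ∀ y ∈ D.H, c < y → y < t → D.hhi y ≠ a
  cr : ∀ y ∈ D.H, c < y → y < t → D.hlo y ≠ b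
  cb : ∀ x ∈ D.V, a < x → x < b → D.vhi x ≠ c
  ct : ∀ x ∈ D.V, a < x → x < b → D.vlo x ≠ t

theorem ne_flipX {f : Quad} (hne : ∀ i, F i ≠ f) : ∀ i, (F i).flipX ≠ f.flipX :=
  fun i e => hne i (by
    have := congrArg Quad.flipX e
    simpa only [Quad.flipX_flipX] using this)

theorem ne_swap {f : Quad} (hne : ∀ i, F i ≠ f) : ∀ i, (F i).swap ≠ f.swap :=
  fun i e => hne i (congrArg Quad.swap e)

variable [Nonempty ι] {a b c t : ℤ}

theorem FMin.cleanBR (h : FMin S D F) (f : IsFace D a b c t)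
    (hne : ∀ i, F i ≠ (a, b, c, t)) (w : WB D a b c t) {y : ℤ} (hy : y ∈ D.H) (h1 : c < y)
    (h2 : y < t) : D.hlo y ≠ b := by
  intro e
  exact h.flipX.cleanL f.flipX (ne_flipX hne) w.flipX (y := y) hy h1 h2
    (by simp only [Dis.flipX]; omega)

theorem FMin.cleanBB (h : FMin S D F) (f : IsFace D a b c t)
    (hne : ∀ i, F i ≠ (a, b, c, t)) (w : WB D a b c t) {x : ℤ} (hx : x ∈ D.V) (h1 : a < x)
    (h2 : x < b) : D.vhi x ≠ c :=
  h.swap.cleanL f.swap (ne_swap hne) w.swap (y := x) hx h1 h2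

theorem FMin.cleanAT (h : FMin S D F) (f : IsFace D a b c t)
    (hne : ∀ i, F i ≠ (a, b, c, t)) (w : WA D a b c t) {x : ℤ} (hx : x ∈ D.V) (h1 : a < x)
    (h2 : x < b) : D.vlo x ≠ t :=
  h.swap.cleanBR f.swap (ne_swap hne) w.swap (y := x) hx h1 h2

theorem FMin.cleanAB (h : FMin S D F) (f : IsFace D a b c t)
    (hne : ∀ i, F i ≠ (a, b, c, t)) (w : WA D a b c t) {x : ℤ} (hx : x ∈ D.V) (h1 : a < x)
    (h2 : x < b) : D.vhi x ≠ c := by
  have := h.flipX.cleanBB f.flipX (ne_flipX hne) w.flipX (x := -x)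
    (mem_neg_image.2 (by simpa using hx)) (by omega) (by omega)
  simpa only [Dis.flipX, neg_neg] using this

theorem FMin.cleanBT (h : FMin S D F) (f : IsFace D a b c t)
    (hne : ∀ i, F i ≠ (a, b, c, t)) (w : WB D a b c t) {x : ℤ} (hx : x ∈ D.V) (h1 : a < x)
    (h2 : x < b) : D.vlo x ≠ t := by
  have := h.flipX.cleanAT f.flipX (ne_flipX hne) w.flipX (x := -x)
    (mem_neg_image.2 (by simpa using hx)) (by omega) (by omega)
  simpa only [Dis.flipX, neg_neg] using this

theorem FMin.cleanAR (h : FMin S D F) (f : IsFace D a b c t)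
    (hne : ∀ i, F i ≠ (a, b, c, t)) (w : WA D a b c t) {y : ℤ} (hy : y ∈ D.H) (h1 : c < y)
    (h2 : y < t) : D.hlo y ≠ b :=
  h.swap.cleanBT f.swap (ne_swap hne) w.swap (x := y) hy h1 h2

theorem FMin.cleanBL (h : FMin S D F) (f : IsFace D a b c t)
    (hne : ∀ i, F i ≠ (a, b, c, t)) (w : WB D a b c t) {y : ℤ} (hy : y ∈ D.H) (h1 : c < y)
    (h2 : y < t) : D.hhi y ≠ a := by
  intro e
  exact h.flipX.cleanAR f.flipX (ne_flipX hne) w.flipX (y := y) hy h1 h2
    (by simp only [Dis.flipX]; omega)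

theorem FMin.clean (h : FMin S D F) (f : IsFace D a b c t)
    (hne : ∀ i, F i ≠ (a, b, c, t)) : (WA D a b c t ∨ WB D a b c t) ∧ CleanF D a b c t := by
  have hw := h.p.windmill f hne
  refine ⟨hw, ?_⟩
  rcases hw with w | w
  · exact ⟨fun y hy h1 h2 => h.cleanL f hne w hy h1 h2,
      fun y hy h1 h2 => h.cleanAR f hne w hy h1 h2,
      fun x hx h1 h2 => h.cleanAB f hne w hx h1 h2,
      fun x hx h1 h2 => h.cleanAT f hne w hx h1 h2⟩
  · exact ⟨fun y hy h1 h2 => h.cleanBL f hne w hy h1 h2,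
      fun y hy h1 h2 => h.cleanBR f hne w hy h1 h2,
      fun x hx h1 h2 => h.cleanBB f hne w hx h1 h2,
      fun x hx h1 h2 => h.cleanBT f hne w hx h1 h2⟩

end

/-- Existence of a dissection with the fewest pieces and the largest seed faces. -/
theorem exists_fMin {ι : Type} [Fintype ι] {S : ι → Quad} {D₀ : Dis} {F₀ : ι → Quad}
    (h0 : D₀.Ok) (h1 : FitsVia D₀ S F₀) :
    ∃ D F, FMin S D F ∧ SameBox D₀ D := by
  classical
  -- step 1: the fewest pieces
  let P : ℕ → Prop := fun n => ∃ D F, D.Ok ∧ FitsVia D S F ∧ SameBox D₀ D ∧ D.pc = n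
  have hP : ∃ n, P n := ⟨D₀.pc, D₀, F₀, h0, h1, ⟨rfl, rfl, rfl, rfl⟩, rfl⟩
  obtain ⟨m, hm, hmin⟩ : ∃ m, P m ∧ ∀ n, P n → m ≤ n :=
    ⟨Nat.find hP, Nat.find_spec hP, fun n hn => Nat.find_min' hP hn⟩
  -- step 2: the largest area
  let B : ℤ := ∑ _i : ι, (D₀.x1 - D₀.x0) * (D₀.y1 - D₀.y0)
  have hB : ∀ D F, D.Ok → FitsVia D S F → SameBox D₀ D → ∑ i, area (F i) ≤ B := by
    intro D F i1 i2 i3
    refine Finset.sum_le_sum fun i _ => ?_
    have g := i2.face i
    have g1 := IsFace.a0 g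
    have g2 := IsFace.b1 g
    have g3 := IsFace.c0 g
    have g4 := IsFace.t1 g
    have g5 := IsFace.ab g
    have g6 := IsFace.ct g
    obtain ⟨e1, e2, e3, e4⟩ := i3
    unfold area
    exact mul_le_mul (by omega) (by omega) (by omega) (by omega)
  let Q : ℕ → Prop := fun n => ∃ D F, D.Ok ∧ FitsVia D S F ∧ SameBox D₀ D ∧ D.pc = m ∧
    (B - ∑ i, area (F i)).toNat = n
  have hQ : ∃ n, Q n := by
    obtain ⟨D, F, i1, i2, i3, i4⟩ := hm
    exact ⟨_, D, F, i1, i2, i3, i4, rfl⟩
  obtain ⟨r, ⟨D, F, i1, i2, i3, i4, i5⟩, hr⟩ : ∃ r, Q r ∧ ∀ n, Q n → r ≤ n :=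
    ⟨Nat.find hQ, Nat.find_spec hQ, fun n hn => Nat.find_min' hQ hn⟩
  have htr : ∀ D', SameBox D D' → SameBox D₀ D' := by
    intro D' e
    obtain ⟨a1, a2, a3, a4⟩ := i3
    obtain ⟨b1, b2, b3, b4⟩ := e
    exact ⟨by omega, by omega, by omega, by omega⟩
  refine ⟨D, F, ⟨⟨i1, i2, ?_⟩, ?_⟩, i3⟩
  · intro D' F' j1 j2 j3
    rw [i4]
    exact hmin _ ⟨D', F', j1, j2, htr D' j3, rfl⟩
  · intro D' F' j1 j2 j3 j4
    have k1 := hr _ ⟨D', F', j1, j2, htr D' j3, by omega, rfl⟩
    have k2 := hB D F i1 i2 i3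
    have k3 := hB D' F' j1 j2 (htr D' j3)
    omega

end Pool.Agent.Helper23.BG
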