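import Mathlib
import Pool.Agent.Helper4.BSPT.Defs
import Pool.Agent.Helper23.BG.Fit

/-! The first dissection which fits a family of seeds. -/

namespace Pool.Agent.Helper23.BG

open Pool.Agent.Helper4.BSPT

section
variable {n : ℕ} (s : Fin n → IBox)

/-- The vertical sides. -/
noncomputable def iV : Finset ℤ :=
  Finset.univ.image (fun i => (s i).a) ∪ Finset.univ.image (fun i => (s i).b)

/-- The horizontal sides. -/
noncomputable def iH : Finset ℤ :=
  Finset.univ.image (fun i => (s i).l) ∪ Finset.univ.image (fun i => (s i).r)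

open Classical in
/-- The value at a vertical side. -/
noncomputable def atV (f : IBox → ℤ) (x : ℤ) : ℤ :=
  if h : ∃ i, (s i).a = x ∨ (s i).b = x then f (s h.choose) else 0

open Classical in
/-- The value at a horizontal side. -/
noncomputable def atH (f : IBox → ℤ) (y : ℤ) : ℤ :=
  if h : ∃ i, (s i).l = y ∨ (s i).r = y then f (s h.choose) else 0

/-- The vertical sides to the left which stop a horizontal side. -/
noncomputable def stopL (y : ℤ) : Finset ℤ :=
  insert 0 ((iV s).filter fun x => x < atH s IBox.b y ∧ atV s IBox.l x < y ∧ y < atV s IBox.r x)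

/-- The vertical sides to the right which stop a horizontal side. -/
noncomputable def stopR (y : ℤ) : Finset ℤ :=
  insert (2 * (n : ℤ) + 1)
    ((iV s).filter fun x => atH s IBox.a y < x ∧ atV s IBox.l x < y ∧ y < atV s IBox.r x)

/-- The first dissection. -/
noncomputable def iDis : Dis :=
  ⟨0, 2 * n + 1, 0, 2 * n + 1, iV s, iH s, atV s IBox.l, atV s IBox.r,
    fun y => (stopL s y).max' (Finset.insert_nonempty _ _),
    fun y => (stopR s y).min' (Finset.insert_nonempty _ _)⟩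

variable {s}

theorem mem_iV {x : ℤ} : x ∈ iV s ↔ ∃ i, (s i).a = x ∨ (s i).b = x := by
  simp only [iV, Finset.mem_union, Finset.mem_image, Finset.mem_univ, true_and]
  constructor
  · rintro (⟨i, h⟩ | ⟨i, h⟩)
    · exact ⟨i, Or.inl h⟩
    · exact ⟨i, Or.inr h⟩
  · rintro ⟨i, h | h⟩
    · exact Or.inl ⟨i, h⟩
    · exact Or.inr ⟨i, h⟩

theorem mem_iH {y : ℤ} : y ∈ iH s ↔ ∃ i, (s i).l = y ∨ (s i).r = y := by
  simp only [iH, Finset.mem_union, Finset.mem_image, Finset.mem_univ, true_and]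
  constructor
  · rintro (⟨i, h⟩ | ⟨i, h⟩)
    · exact ⟨i, Or.inl h⟩
    · exact ⟨i, Or.inr h⟩
  · rintro ⟨i, h | h⟩
    · exact Or.inl ⟨i, h⟩
    · exact Or.inr ⟨i, h⟩

theorem atV_eq (hs : Seeds n s) (f : IBox → ℤ) {i : Fin n} {x : ℤ}
    (h : (s i).a = x ∨ (s i).b = x) : atV s f x = f (s i) := by
  classical
  have hex : ∃ i, (s i).a = x ∨ (s i).b = x := ⟨i, h⟩
  have hc := hex.choose_spec
  have e : hex.choose = i := by
    rcases h with h | h <;> rcases hc with hc | hc
    · exact hs.aa _ _ (hc.trans h.symm)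
    · exact absurd (h.trans hc.symm) (hs.nab _ _)
    · exact absurd (hc.trans h.symm) (hs.nab _ _)
    · exact hs.bb _ _ (hc.trans h.symm)
  unfold atV
  rw [dif_pos hex, e]

theorem atH_eq (hs : Seeds n s) (f : IBox → ℤ) {i : Fin n} {y : ℤ}
    (h : (s i).l = y ∨ (s i).r = y) : atH s f y = f (s i) := by
  classical
  have hex : ∃ i, (s i).l = y ∨ (s i).r = y := ⟨i, h⟩
  have hc := hex.choose_spec
  have e : hex.choose = i := by
    rcases h with h | h <;> rcases hc with hc | hc
    · exact hs.ll _ _ (hc.trans h.symm)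
    · exact absurd (h.trans hc.symm) (hs.nlr _ _)
    · exact absurd (hc.trans h.symm) (hs.nlr _ _)
    · exact hs.rr _ _ (hc.trans h.symm)
  unfold atH
  rw [dif_pos hex, e]

theorem iDis_hlo (hs : Seeds n s) {i : Fin n} {y : ℤ} (h : (s i).l = y ∨ (s i).r = y) :
    (iDis s).hlo y < (s i).a ∧
    ((iDis s).hlo y = 0 ∨ ((iDis s).hlo y ∈ iV s ∧ atV s IBox.l ((iDis s).hlo y) < y ∧
      y < atV s IBox.r ((iDis s).hlo y))) ∧
    ∀ x ∈ iV s, x < (s i).b → atV s IBox.l x < y → y < atV s IBox.r x → x ≤ (iDis s).hlo y := by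
  have hm := (stopL s y).max'_mem (Finset.insert_nonempty _ _)
  have e : (iDis s).hlo y = (stopL s y).max' (Finset.insert_nonempty _ _) := rfl
  rw [← e] at hm
  have hb : atH s IBox.b y = (s i).b := atH_eq hs _ h
  simp only [stopL, Finset.mem_insert, Finset.mem_filter, hb] at hm
  refine ⟨?_, ?_, ?_⟩
  · rcases hm with hm | ⟨h1, h2, h3, h4⟩
    · rw [hm]; have := hs.a1 i; omega
    · obtain ⟨j, hj⟩ := mem_iV.1 h1
      rw [atV_eq hs IBox.l hj] at h3
      rw [atV_eq hs IBox.r hj] at h4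
      have hij : i ≠ j := by
        rintro rfl
        omega
      have h5 := hs.sep i j hij
      have h6 := hs.ab j
      have h7 := hs.lr j
      have h8 := hs.lr i
      have h9 := hs.ab i
      omega
  · rcases hm with hm | ⟨h1, h2, h3, h4⟩
    · exact Or.inl hm
    · exact Or.inr ⟨h1, h3, h4⟩
  · intro x h1 h2 h3 h4
    rw [e]
    apply Finset.le_max'
    simp only [stopL, Finset.mem_insert, Finset.mem_filter, hb]
    exact Or.inr ⟨h1, h2, h3, h4⟩

theorem iDis_hhi (hs : Seeds n s) {i : Fin n} {y : ℤ} (h : (s i).l = y ∨ (s i).r = y) :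
    (s i).b < (iDis s).hhi y ∧
    ((iDis s).hhi y = 2 * n + 1 ∨ ((iDis s).hhi y ∈ iV s ∧ atV s IBox.l ((iDis s).hhi y) < y ∧
      y < atV s IBox.r ((iDis s).hhi y))) ∧
    ∀ x ∈ iV s, (s i).a < x → atV s IBox.l x < y → y < atV s IBox.r x → (iDis s).hhi y ≤ x := by
  have hm := (stopR s y).min'_mem (Finset.insert_nonempty _ _)
  have e : (iDis s).hhi y = (stopR s y).min' (Finset.insert_nonempty _ _) := rfl
  rw [← e] at hm
  have hb : atH s IBox.a y = (s i).a := atH_eq hs _ h
  simp only [stopR, Finset.mem_insert, Finset.mem_filter, hb] at hm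
  refine ⟨?_, ?_, ?_⟩
  · rcases hm with hm | ⟨h1, h2, h3, h4⟩
    · rw [hm]; have := hs.b1 i; omega
    · obtain ⟨j, hj⟩ := mem_iV.1 h1
      rw [atV_eq hs IBox.l hj] at h3
      rw [atV_eq hs IBox.r hj] at h4
      have hij : i ≠ j := by
        rintro rfl
        omega
      have h5 := hs.sep i j hij
      have h6 := hs.ab j
      have h7 := hs.lr j
      have h8 := hs.lr i
      have h9 := hs.ab i
      omega
  · rcases hm with hm | ⟨h1, h2, h3, h4⟩
    · exact Or.inl hm
    · exact Or.inr ⟨h1, h3, h4⟩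
  · intro x h1 h2 h3 h4
    rw [e]
    apply Finset.min'_le
    simp only [stopR, Finset.mem_insert, Finset.mem_filter, hb]
    exact Or.inr ⟨h1, h2, h3, h4⟩

theorem iDis_ok (hs : Seeds n s) : (iDis s).Ok where
  hx := by simp only [iDis]; omega
  hy := by simp only [iDis]; omega
  vx := by
    intro x hx
    obtain ⟨i, hi⟩ := mem_iV.1 hx
    have := hs.a1 i; have := hs.b1 i; have := hs.ab i
    simp only [iDis]; omega
  hyy := by
    intro x hx
    obtain ⟨i, hi⟩ := mem_iH.1 hx
    have := hs.l1 i; have := hs.r1 i; have := hs.lr i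
    simp only [iDis]; omega
  vlt := by
    intro x hx
    obtain ⟨i, hi⟩ := mem_iV.1 hx
    have := hs.lr i
    simp only [iDis]
    rw [atV_eq hs _ hi, atV_eq hs _ hi]; exact this
  hlt := by
    intro y hy
    obtain ⟨i, hi⟩ := mem_iH.1 hy
    have h1 := (iDis_hlo hs hi).1
    have h2 := (iDis_hhi hs hi).1
    have := hs.ab i
    omega
  vl := by
    intro x hx
    obtain ⟨i, hi⟩ := mem_iV.1 hx
    have e : (iDis s).vlo x = (s i).l := atV_eq hs IBox.l hi
    have h1 := (iDis_hlo hs (i := i) (y := (s i).l) (Or.inl rfl)).1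
    have h2 := (iDis_hhi hs (i := i) (y := (s i).l) (Or.inl rfl)).1
    have h3 := hs.ab i
    rw [e]
    refine Or.inr ⟨mem_iH.2 ⟨i, Or.inl rfl⟩, ?_, ?_⟩ <;> omega
  vh := by
    intro x hx
    obtain ⟨i, hi⟩ := mem_iV.1 hx
    have e : (iDis s).vhi x = (s i).r := atV_eq hs IBox.r hi
    have h1 := (iDis_hlo hs (i := i) (y := (s i).r) (Or.inr rfl)).1
    have h2 := (iDis_hhi hs (i := i) (y := (s i).r) (Or.inr rfl)).1
    have h3 := hs.ab i
    rw [e]
    refine Or.inr ⟨mem_iH.2 ⟨i, Or.inr rfl⟩, ?_, ?_⟩ <;> omega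
  hl := by
    intro y hy
    obtain ⟨i, hi⟩ := mem_iH.1 hy
    exact (iDis_hlo hs hi).2.1
  hh := by
    intro y hy
    obtain ⟨i, hi⟩ := mem_iH.1 hy
    exact (iDis_hhi hs hi).2.1
  nc := by
    rintro x hx y hy ⟨h1, h2, h3, h4⟩
    obtain ⟨i, hi⟩ := mem_iH.1 hy
    by_cases h5 : x < (s i).b
    · have := (iDis_hlo hs hi).2.2 x hx h5 h1 h2
      omega
    · have h6 := hs.ab i
      have := (iDis_hhi hs hi).2.2 x hx (by omega) h1 h2
      omega

/-- A seed as a quadruple. -/
def IBox.q (k : IBox) : Quad := (k.a, k.b, k.l, k.r)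

theorem iDis_fits (hs : Seeds n s) :
    FitsVia (iDis s) (fun i => IBox.q (s i)) (fun i => IBox.q (s i)) where
  face := by
    intro i
    have a1 := hs.a1 i
    have b1 := hs.b1 i
    have l1 := hs.l1 i
    have r1 := hs.r1 i
    have ab := hs.ab i
    have lr := hs.lr i
    have eal : (iDis s).vlo (s i).a = (s i).l := atV_eq hs IBox.l (Or.inl rfl)
    have ear : (iDis s).vhi (s i).a = (s i).r := atV_eq hs IBox.r (Or.inl rfl)
    have ebl : (iDis s).vlo (s i).b = (s i).l := atV_eq hs IBox.l (Or.inr rfl)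
    have ebr : (iDis s).vhi (s i).b = (s i).r := atV_eq hs IBox.r (Or.inr rfl)
    have k1 := (iDis_hlo hs (i := i) (y := (s i).l) (Or.inl rfl)).1
    have k2 := (iDis_hhi hs (i := i) (y := (s i).l) (Or.inl rfl)).1
    have k3 := (iDis_hlo hs (i := i) (y := (s i).r) (Or.inr rfl)).1
    have k4 := (iDis_hhi hs (i := i) (y := (s i).r) (Or.inr rfl)).1
    refine ⟨ab, lr, ?_, ?_, ?_, ?_, ?_, ?_, ?_, ?_, ?_, ?_⟩
    · simp only [iDis, IBox.q]; omega
    · simp only [iDis, IBox.q]; omega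
    · simp only [iDis, IBox.q]; omega
    · simp only [iDis, IBox.q]; omega
    · exact Or.inr ⟨mem_iV.2 ⟨i, Or.inl rfl⟩, eal.le, ear.ge⟩
    · exact Or.inr ⟨mem_iV.2 ⟨i, Or.inr rfl⟩, ebl.le, ebr.ge⟩
    · exact Or.inr ⟨mem_iH.2 ⟨i, Or.inl rfl⟩, k1.le, k2.le⟩
    · exact Or.inr ⟨mem_iH.2 ⟨i, Or.inr rfl⟩, k3.le, k4.le⟩
    · intro x hx h1 h2
      obtain ⟨j, hj⟩ := mem_iV.1 hx
      have el : (iDis s).vlo x = (s j).l := atV_eq hs IBox.l hj
      have er : (iDis s).vhi x = (s j).r := atV_eq hs IBox.r hj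
      simp only [IBox.q] at h1 h2 ⊢
      rw [el, er]
      have hij : i ≠ j := by
        rintro rfl
        omega
      have h5 := hs.sep i j hij
      have h6 := hs.ab j
      omega
    · intro y hy h1 h2
      obtain ⟨j, hj⟩ := mem_iH.1 hy
      simp only [IBox.q] at h1 h2 ⊢
      have hij : i ≠ j := by
        rintro rfl
        omega
      have h5 := hs.sep i j hij
      have h6 := hs.ab j
      have h7 := hs.lr j
      rcases (show (s j).b < (s i).a ∨ (s i).b < (s j).a by omega) with h8 | h8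
      · left
        refine (iDis_hhi hs hj).2.2 _ (mem_iV.2 ⟨i, Or.inl rfl⟩) (by omega) ?_ ?_
        · rw [atV_eq hs IBox.l (Or.inl rfl)]; exact h1
        · rw [atV_eq hs IBox.r (Or.inl rfl)]; exact h2
      · right
        refine (iDis_hlo hs hj).2.2 _ (mem_iV.2 ⟨i, Or.inr rfl⟩) (by omega) ?_ ?_
        · rw [atV_eq hs IBox.l (Or.inr rfl)]; exact h1
        · rw [atV_eq hs IBox.r (Or.inr rfl)]; exact h2
  sub := fun i => ⟨le_rfl, le_rfl, le_rfl, le_rfl⟩
  inj := fun i j e => hs.aa i j (congrArg Prod.fst e)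

end

end Pool.Agent.Helper23.BG
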