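import Mathlib
import Pool.Agent.Helper23.BG.Init
import Pool.Agent.Helper23.BG.Clean

/-! The dissection used at the root: every face is the face of a seed or a clean windmill. -/

namespace Pool.Agent.Helper23.BG

open Pool.Agent.Helper4.BSPT

/-- The face of a seed contains the seed, and every other face is a clean windmill. -/
structure Root {n : ℕ} (s : Fin n → IBox) (D : Dis) (F : Fin n → Quad) : Prop where
  ok : D.Ok
  x0 : D.x0 = 0
  x1 : D.x1 = 2 * n + 1
  y0 : D.y0 = 0
  y1 : D.y1 = 2 * n + 1
  fits : FitsVia D (fun i => IBox.q (s i)) F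
  hole : ∀ a b c t, IsFace D a b c t → (∀ i, F i ≠ (a, b, c, t)) →
    (WA D a b c t ∨ WB D a b c t) ∧ CleanF D a b c t

theorem exists_root {n : ℕ} (hn : 0 < n) {s : Fin n → IBox} (hs : Seeds n s) :
    ∃ D F, Root s D F := by
  have : Nonempty (Fin n) := ⟨⟨0, hn⟩⟩
  obtain ⟨D, F, h, e1, e2, e3, e4⟩ := exists_fMin (iDis_ok hs) (iDis_fits hs)
  exact ⟨D, F, h.p.ok, e1, e2, e3, e4, h.p.fits, fun a b c t f hne => h.clean f hne⟩

/-- The faces which are not faces of seeds. -/
noncomputable def holes {n : ℕ} (D : Dis) (F : Fin n → Quad) : Finset Quad :=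
  D.faces \ Finset.univ.image F

theorem Root.card {n : ℕ} {s : Fin n → IBox} {D : Dis} {F : Fin n → Quad} (h : Root s D F) :
    n + (holes D F).card = D.V.card + D.H.card + 1 := by
  have h1 : (Finset.univ.image F).card = n := by
    rw [Finset.card_image_of_injective _ h.fits.inj, Finset.card_univ, Fintype.card_fin]
  have h2 : Finset.univ.image F ⊆ D.faces := by
    intro f hf
    obtain ⟨i, _, rfl⟩ := Finset.mem_image.1 hf
    exact Dis.mem_faces.2 (h.fits.face i)
  have h3 := Finset.card_sdiff_add_card_eq_card h2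
  have h4 := h.ok.card_faces
  unfold holes
  omega

end Pool.Agent.Helper23.BG
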