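import Mathlib
import Pool.Agent.Helper23.BG.Root

/-! Dissections with a set of clean windmill holes; holes are given by their four arms. -/

namespace Pool.Agent.Helper23.BG

open Pool.Agent.Helper4.BSPT

/-- A hole given by its four arms: the coordinates of the pieces which go to the left, to the
right, up and down. -/
@[ext] structure Hole where
  yL : ℤ
  yR : ℤ
  xU : ℤ
  xD : ℤ

/-- Left side. -/
def Hole.a (h : Hole) : ℤ := min h.xU h.xD

/-- Right side. -/
def Hole.b (h : Hole) : ℤ := max h.xU h.xD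

/-- Bottom side. -/
def Hole.c (h : Hole) : ℤ := min h.yL h.yR

/-- Top side. -/
def Hole.t (h : Hole) : ℤ := max h.yL h.yR

/-- `h` is a clean windmill face. -/
structure IsHole (D : Dis) (h : Hole) : Prop where
  U : h.xU ∈ D.V
  Dn : h.xD ∈ D.V
  L : h.yL ∈ D.H
  R : h.yR ∈ D.H
  ty : (h.xU < h.xD ∧ h.yL < h.yR) ∨ (h.xD < h.xU ∧ h.yR < h.yL)
  eU : D.vlo h.xU = h.c
  eD : D.vhi h.xD = h.t
  eL : D.hhi h.yL = h.b
  eR : D.hlo h.yR = h.a
  lU : h.t < D.vhi h.xU
  lD : D.vlo h.xD < h.c
  lL : D.hlo h.yL < h.a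
  lR : h.b < D.hhi h.yR
  fc : IsFace D h.a h.b h.c h.t
  cl : CleanF D h.a h.b h.c h.t

/-- Transposition. -/
def Hole.swap (h : Hole) : Hole := ⟨h.xD, h.xU, h.yR, h.yL⟩

/-- Reflection `x ↦ -x`. -/
def Hole.flipX (h : Hole) : Hole := ⟨h.yR, h.yL, -h.xU, -h.xD⟩

@[simp] theorem Hole.swap_swap (h : Hole) : h.swap.swap = h := rfl

@[simp] theorem Hole.flipX_flipX (h : Hole) : h.flipX.flipX = h := by
  simp [Hole.flipX]

@[simp] theorem Hole.swap_a (h : Hole) : h.swap.a = h.c := by
  simp only [Hole.swap, Hole.a, Hole.c]; omega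
@[simp] theorem Hole.swap_b (h : Hole) : h.swap.b = h.t := by
  simp only [Hole.swap, Hole.b, Hole.t]; omega
@[simp] theorem Hole.swap_c (h : Hole) : h.swap.c = h.a := by
  simp only [Hole.swap, Hole.a, Hole.c]; omega
@[simp] theorem Hole.swap_t (h : Hole) : h.swap.t = h.b := by
  simp only [Hole.swap, Hole.b, Hole.t]; omega
@[simp] theorem Hole.flipX_a (h : Hole) : h.flipX.a = -h.b := by
  simp only [Hole.flipX, Hole.a, Hole.b]; omega
@[simp] theorem Hole.flipX_b (h : Hole) : h.flipX.b = -h.a := by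
  simp only [Hole.flipX, Hole.a, Hole.b]; omega
@[simp] theorem Hole.flipX_c (h : Hole) : h.flipX.c = h.c := by
  simp only [Hole.flipX, Hole.c]; omega
@[simp] theorem Hole.flipX_t (h : Hole) : h.flipX.t = h.t := by
  simp only [Hole.flipX, Hole.t]; omega
@[simp] theorem Hole.swap_xU (h : Hole) : h.swap.xU = h.yR := rfl
@[simp] theorem Hole.swap_xD (h : Hole) : h.swap.xD = h.yL := rfl
@[simp] theorem Hole.swap_yL (h : Hole) : h.swap.yL = h.xD := rfl
@[simp] theorem Hole.swap_yR (h : Hole) : h.swap.yR = h.xU := rfl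
@[simp] theorem Hole.flipX_xU (h : Hole) : h.flipX.xU = -h.xU := rfl
@[simp] theorem Hole.flipX_xD (h : Hole) : h.flipX.xD = -h.xD := rfl
@[simp] theorem Hole.flipX_yL (h : Hole) : h.flipX.yL = h.yR := rfl
@[simp] theorem Hole.flipX_yR (h : Hole) : h.flipX.yR = h.yL := rfl

theorem CleanF.swap {D : Dis} {a b c t : ℤ} (h : CleanF D a b c t) : CleanF D.swap c t a b :=
  ⟨h.cb, h.ct, h.cl, h.cr⟩

theorem CleanF.flipX {D : Dis} {a b c t : ℤ} (h : CleanF D a b c t) :
    CleanF D.flipX (-b) (-a) c t where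
  cl := by
    intro y hy h1 h2 e
    exact h.cr y hy h1 h2 (by simp only [Dis.flipX] at e; omega)
  cr := by
    intro y hy h1 h2 e
    exact h.cl y hy h1 h2 (by simp only [Dis.flipX] at e; omega)
  cb := by
    intro x hx h1 h2 e
    exact h.cb (-x) (mem_neg_image.1 hx) (by omega) (by omega) e
  ct := by
    intro x hx h1 h2 e
    exact h.ct (-x) (mem_neg_image.1 hx) (by omega) (by omega) e

theorem IsHole.swap {D : Dis} {h : Hole} (k : IsHole D h) : IsHole D.swap h.swap where
  U := k.R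
  Dn := k.L
  L := k.Dn
  R := k.U
  ty := by have := k.ty; simp only [Hole.swap]; omega
  eU := by rw [Hole.swap_c]; exact k.eR
  eD := by rw [Hole.swap_t]; exact k.eL
  eL := by rw [Hole.swap_b]; exact k.eD
  eR := by rw [Hole.swap_a]; exact k.eU
  lU := by rw [Hole.swap_t]; exact k.lR
  lD := by rw [Hole.swap_c]; exact k.lL
  lL := by rw [Hole.swap_a]; exact k.lD
  lR := by rw [Hole.swap_b]; exact k.lU
  fc := by
    rw [Hole.swap_a, Hole.swap_b, Hole.swap_c, Hole.swap_t]; exact k.fc.swap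
  cl := by
    rw [Hole.swap_a, Hole.swap_b, Hole.swap_c, Hole.swap_t]; exact k.cl.swap

theorem IsHole.flipX {D : Dis} {h : Hole} (k : IsHole D h) : IsHole D.flipX h.flipX where
  U := mem_neg_image.2 (by simpa using k.U)
  Dn := mem_neg_image.2 (by simpa using k.Dn)
  L := k.R
  R := k.L
  ty := by have := k.ty; simp only [Hole.flipX]; omega
  eU := by
    have := k.eU
    simp only [Dis.flipX, Hole.flipX_xU, Hole.flipX_c, neg_neg]; exact this
  eD := by
    have := k.eD
    simp only [Dis.flipX, Hole.flipX_xD, Hole.flipX_t, neg_neg]; exact this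
  eL := by
    have := k.eR
    simp only [Dis.flipX, Hole.flipX_yL, Hole.flipX_b]; omega
  eR := by
    have := k.eL
    simp only [Dis.flipX, Hole.flipX_yR, Hole.flipX_a]; omega
  lU := by
    have := k.lU
    simp only [Dis.flipX, Hole.flipX_xU, Hole.flipX_t, neg_neg]; exact this
  lD := by
    have := k.lD
    simp only [Dis.flipX, Hole.flipX_xD, Hole.flipX_c, neg_neg]; exact this
  lL := by
    have := k.lR
    simp only [Dis.flipX, Hole.flipX_yL, Hole.flipX_a]; omega
  lR := by
    have := k.lL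
    simp only [Dis.flipX, Hole.flipX_yR, Hole.flipX_b]; omega
  fc := by
    rw [Hole.flipX_a, Hole.flipX_b, Hole.flipX_c, Hole.flipX_t]; exact k.fc.flipX
  cl := by
    rw [Hole.flipX_a, Hole.flipX_b, Hole.flipX_c, Hole.flipX_t]; exact k.cl.flipX

/-- A dissection with holes. -/
structure Cfg where
  D : Dis
  Z : Finset Hole

/-- The holes are clean windmill faces. -/
structure Cfg.Ok (C : Cfg) : Prop where
  ok : C.D.Ok
  hole : ∀ h ∈ C.Z, IsHole C.D h

open Classical in
/-- Transposition. -/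
noncomputable def Cfg.swap (C : Cfg) : Cfg := ⟨C.D.swap, C.Z.image Hole.swap⟩

open Classical in
/-- Reflection `x ↦ -x`. -/
noncomputable def Cfg.flipX (C : Cfg) : Cfg := ⟨C.D.flipX, C.Z.image Hole.flipX⟩

theorem Cfg.mem_swap {C : Cfg} {h : Hole} : h ∈ C.swap.Z ↔ h.swap ∈ C.Z := by
  classical
  simp only [Cfg.swap, Finset.mem_image]
  constructor
  · rintro ⟨k, hk, rfl⟩; exact hk
  · intro hk; exact ⟨h.swap, hk, rfl⟩

theorem Cfg.mem_flipX {C : Cfg} {h : Hole} : h ∈ C.flipX.Z ↔ h.flipX ∈ C.Z := by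
  classical
  simp only [Cfg.flipX, Finset.mem_image]
  constructor
  · rintro ⟨k, hk, rfl⟩; rw [Hole.flipX_flipX]; exact hk
  · intro hk; exact ⟨h.flipX, hk, Hole.flipX_flipX h⟩

theorem Cfg.Ok.swap {C : Cfg} (h : C.Ok) : C.swap.Ok where
  ok := h.ok.swap
  hole := fun k hk => (h.hole _ (Cfg.mem_swap.1 hk)).swap

theorem Cfg.Ok.flipX {C : Cfg} (h : C.Ok) : C.flipX.Ok where
  ok := h.ok.flipX
  hole := fun k hk => by
    have := (h.hole _ (Cfg.mem_flipX.1 hk)).flipX
    rwa [Hole.flipX_flipX] at this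

theorem Cfg.swap_swap (C : Cfg) : C.swap.swap = C := by
  classical
  cases C with
  | mk D Z =>
    simp only [Cfg.swap, Dis.swap_swap, Finset.image_image, Cfg.mk.injEq, true_and]
    conv_rhs => rw [← Finset.image_id (s := Z)]
    rfl

theorem Cfg.flipX_flipX (C : Cfg) : C.flipX.flipX = C := by
  classical
  cases C with
  | mk D Z =>
    simp only [Cfg.flipX, Dis.flipX_flipX, Finset.image_image, Cfg.mk.injEq, true_and]
    conv_rhs => rw [← Finset.image_id (s := Z)]
    congr 1
    funext h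
    simp

/-- Two holes with the same upward arm are equal. -/
theorem Cfg.Ok.xU_inj {C : Cfg} (hC : C.Ok) {h k : Hole} (hh : h ∈ C.Z) (hk : k ∈ C.Z)
    (e : h.xU = k.xU) : h = k := by
  have H := hC.hole h hh
  have K := hC.hole k hk
  have e1 := H.eU
  have e2 := K.eU
  rw [e] at e1
  have f1 := H.fc
  have f2 := K.fc
  have a1 := f1.ab
  have a2 := f2.ab
  have a3 := f1.ct
  have a4 := f2.ct
  have key : ∀ p : ℤ, h.a ≤ p → p < h.b → k.a ≤ p → p < k.b → h.a = k.a ∧ h.b = k.b ∧
      h.c = k.c ∧ h.t = k.t := fun p i1 i2 i3 i4 =>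
    IsFace.unique f1 f2 i1 i2 (le_refl h.c) a3 i3 i4 (by omega) (by omega)
  have t1 := H.ty
  have t2 := K.ty
  rcases t1 with ⟨t1, t1'⟩ | ⟨t1, t1'⟩ <;> rcases t2 with ⟨t2, t2'⟩ | ⟨t2, t2'⟩
  · have := key h.xU (by simp only [Hole.a]; omega) (by simp only [Hole.b]; omega)
      (by simp only [Hole.a]; omega) (by simp only [Hole.b]; omega)
    simp only [Hole.a, Hole.b, Hole.c, Hole.t] at this
    ext <;> omega
  · exfalso
    -- `h` to the right, `k` to the left
    have c1 := H.cl.cl k.yL K.L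
    have c2 := K.cl.cr h.yR H.R
    have d1 := K.eL
    have d2 := H.eR
    have d3 := hC.ok.hlt _ H.R
    simp only [Hole.a, Hole.b, Hole.c, Hole.t] at *
    rcases lt_trichotomy h.yR k.yL with e3 | e3 | e3
    · exact c2 (by omega) (by omega) (by omega)
    · rw [e3] at d2 d3; omega
    · exact c1 (by omega) (by omega) (by omega)
  · exfalso
    have c1 := K.cl.cl h.yL H.L
    have c2 := H.cl.cr k.yR K.R
    have d1 := H.eL
    have d2 := K.eR
    have d3 := hC.ok.hlt _ K.R
    simp only [Hole.a, Hole.b, Hole.c, Hole.t] at *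
    rcases lt_trichotomy k.yR h.yL with e3 | e3 | e3
    · exact c2 (by omega) (by omega) (by omega)
    · rw [e3] at d2 d3; omega
    · exact c1 (by omega) (by omega) (by omega)
  · have := key (h.xU - 1) (by simp only [Hole.a]; omega) (by simp only [Hole.b]; omega)
      (by simp only [Hole.a]; omega) (by simp only [Hole.b]; omega)
    simp only [Hole.a, Hole.b, Hole.c, Hole.t] at this
    ext <;> omega

theorem Cfg.Ok.yR_inj {C : Cfg} (hC : C.Ok) {h k : Hole} (hh : h ∈ C.Z) (hk : k ∈ C.Z)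
    (e : h.yR = k.yR) : h = k := by
  have := hC.swap.xU_inj (h := h.swap) (k := k.swap) (Cfg.mem_swap.2 (by simpa using hh))
    (Cfg.mem_swap.2 (by simpa using hk)) (by simpa using e)
  simpa using congrArg Hole.swap this

theorem Cfg.Ok.yL_inj {C : Cfg} (hC : C.Ok) {h k : Hole} (hh : h ∈ C.Z) (hk : k ∈ C.Z)
    (e : h.yL = k.yL) : h = k := by
  have := hC.flipX.yR_inj (h := h.flipX) (k := k.flipX) (Cfg.mem_flipX.2 (by simpa using hh))
    (Cfg.mem_flipX.2 (by simpa using hk)) (by simpa using e)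
  simpa using congrArg Hole.flipX this

theorem Cfg.Ok.xD_inj {C : Cfg} (hC : C.Ok) {h k : Hole} (hh : h ∈ C.Z) (hk : k ∈ C.Z)
    (e : h.xD = k.xD) : h = k := by
  have := hC.swap.yL_inj (h := h.swap) (k := k.swap) (Cfg.mem_swap.2 (by simpa using hh))
    (Cfg.mem_swap.2 (by simpa using hk)) (by simpa using e)
  simpa using congrArg Hole.swap this

/-- Two holes at the two ends of a horizontal piece are separated. -/
theorem Cfg.Ok.adjH {C : Cfg} (hC : C.Ok) {z w : Hole} (hz : z ∈ C.Z) (hw : w ∈ C.Z)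
    (e : z.yR = w.yL) : z.b < w.a := by
  have Z := hC.hole z hz
  have W := hC.hole w hw
  by_contra hcon
  push Not at hcon
  have z1 := Z.eR
  have z2 := Z.lR
  have w1 := W.eL
  have w2 := W.lL
  have z3 := Z.fc.ab
  have w3 := W.fc.ab
  have z4 := Z.fc.ct
  have w4 := W.fc.ct
  rw [e] at z1 z2
  have hlt := hC.ok.hlt _ W.L
  have zU := Z.eU
  have zD := Z.eD
  have wU := W.eU
  have wD := W.eD
  have hne : z ≠ w := by
    rintro rfl
    omega
  have zt := Z.ty
  have wt := W.ty
  have vz := hC.ok.vlt _ Z.U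
  have vz' := hC.ok.vlt _ Z.Dn
  rcases zt with ⟨t1, t1'⟩ | ⟨t1, t1'⟩ <;> rcases wt with ⟨t2, t2'⟩ | ⟨t2, t2'⟩
  · -- `z` below, `w` above
    rcases lt_or_eq_of_le hcon with h1 | h1
    · refine W.cl.cb z.xD Z.Dn ?_ ?_ ?_ <;>
        simp only [Hole.a, Hole.b, Hole.c, Hole.t] at * <;> omega
    · have e1 : z.xD = w.xU := by
        simp only [Hole.a, Hole.b, Hole.c, Hole.t] at *; omega
      rw [e1] at zD vz'
      simp only [Hole.a, Hole.b, Hole.c, Hole.t] at *
      omega
  · rcases lt_or_eq_of_le hcon with h1 | h1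
    · have := IsFace.unique Z.fc W.fc (p := w.a) (q := w.yL - 1) (by omega) (by omega)
        (by simp only [Hole.c, Hole.t] at *; omega) (by simp only [Hole.c, Hole.t] at *; omega)
        (by omega) (by omega) (by simp only [Hole.c, Hole.t] at *; omega)
        (by simp only [Hole.c, Hole.t] at *; omega)
      omega
    · exact hne (hC.xD_inj hz hw (by simp only [Hole.a, Hole.b, Hole.c, Hole.t] at *; omega))
  · rcases lt_or_eq_of_le hcon with h1 | h1
    · have := IsFace.unique Z.fc W.fc (p := w.a) (q := w.yL) (by omega) (by omega)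
        (by simp only [Hole.c, Hole.t] at *; omega) (by simp only [Hole.c, Hole.t] at *; omega)
        (by omega) (by omega) (by simp only [Hole.c, Hole.t] at *; omega)
        (by simp only [Hole.c, Hole.t] at *; omega)
      omega
    · exact hne (hC.xU_inj hz hw (by simp only [Hole.a, Hole.b, Hole.c, Hole.t] at *; omega))
  · rcases lt_or_eq_of_le hcon with h1 | h1
    · refine W.cl.ct z.xU Z.U ?_ ?_ ?_ <;>
        simp only [Hole.a, Hole.b, Hole.c, Hole.t] at * <;> omega
    · have e1 : z.xU = w.xD := by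
        simp only [Hole.a, Hole.b, Hole.c, Hole.t] at *; omega
      rw [e1] at zU vz
      simp only [Hole.a, Hole.b, Hole.c, Hole.t] at *
      omega

/-- Two holes at the two ends of a vertical piece are separated. -/
theorem Cfg.Ok.adjV {C : Cfg} (hC : C.Ok) {z w : Hole} (hz : z ∈ C.Z) (hw : w ∈ C.Z)
    (e : z.xU = w.xD) : z.t < w.c := by
  have := hC.swap.adjH (z := z.swap) (w := w.swap) (Cfg.mem_swap.2 (by simpa using hz))
    (Cfg.mem_swap.2 (by simpa using hw)) (by simpa using e)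
  simpa using this

end Pool.Agent.Helper23.BG
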