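import Mathlib
import Pool.Agent.Helper23.BG.Cfg

/-! Sub-boxes of a dissection with holes: pieces present in a sub-box, the counting functions of
the potential, clean holes, and the cost of a guillotine partition. -/

namespace Pool.Agent.Helper23.BG

open Pool.Agent.Helper4.BSPT

/-- Transposition of a box. -/
def swapB (K : IBox) : IBox := ⟨K.l, K.r, K.a, K.b⟩

/-- Reflection of a box. -/
def flipB (K : IBox) : IBox := ⟨-K.b, -K.a, K.l, K.r⟩

/-- `K` is a sub-box of the box of the dissection. -/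
structure InB (C : Cfg) (K : IBox) : Prop where
  ab : K.a < K.b
  lr : K.l < K.r
  a0 : C.D.x0 ≤ K.a
  b1 : K.b ≤ C.D.x1
  l0 : C.D.y0 ≤ K.l
  r1 : K.r ≤ C.D.y1

/-- The vertical piece at `x` is present in `K`: it meets the open box and the part in `K` is not
contained in the side of a hole at an end of the piece. -/
structure PV (C : Cfg) (K : IBox) (x : ℤ) : Prop where
  mem : x ∈ C.D.V
  ax : K.a < x
  xb : x < K.b
  lo : C.D.vlo x < K.r
  hi : K.l < C.D.vhi x
  up : ∀ h ∈ C.Z, h.xU = x → h.t < K.r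
  dn : ∀ h ∈ C.Z, h.xD = x → K.l < h.c

/-- The horizontal piece at `y` is present in `K`. -/
structure PH (C : Cfg) (K : IBox) (y : ℤ) : Prop where
  mem : y ∈ C.D.H
  ly : K.l < y
  yr : y < K.r
  lo : C.D.hlo y < K.b
  hi : K.a < C.D.hhi y
  rt : ∀ h ∈ C.Z, h.yR = y → h.b < K.b
  lf : ∀ h ∈ C.Z, h.yL = y → K.a < h.a

/-- The closed hole lies in the open box. -/
structure Intact (K : IBox) (h : Hole) : Prop where
  a : K.a < h.a
  b : h.b < K.b
  c : K.l < h.c
  t : h.t < K.r

/-- `x` is the upward arm of an intact hole (the lower end of `x` is at this hole). -/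
def AtU (C : Cfg) (K : IBox) (x : ℤ) : Prop := ∃ h ∈ C.Z, Intact K h ∧ h.xU = x
/-- `x` is the downward arm of an intact hole. -/
def AtD (C : Cfg) (K : IBox) (x : ℤ) : Prop := ∃ h ∈ C.Z, Intact K h ∧ h.xD = x
/-- `y` is the left arm of an intact hole (the right end of `y` is at this hole). -/
def AtL (C : Cfg) (K : IBox) (y : ℤ) : Prop := ∃ h ∈ C.Z, Intact K h ∧ h.yL = y
/-- `y` is the right arm of an intact hole. -/
def AtR (C : Cfg) (K : IBox) (y : ℤ) : Prop := ∃ h ∈ C.Z, Intact K h ∧ h.yR = y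

/-- The vertical piece `x` hosts no T-end: every end of a present piece on `x` is at an intact
hole. -/
def NoTV (C : Cfg) (K : IBox) (x : ℤ) : Prop :=
  ∀ y, PH C K y → (C.D.hhi y = x → AtL C K y) ∧ (C.D.hlo y = x → AtR C K y)

/-- The horizontal piece `y` hosts no T-end. -/
def NoTH (C : Cfg) (K : IBox) (y : ℤ) : Prop :=
  ∀ x, PV C K x → (C.D.vhi x = y → AtD C K x) ∧ (C.D.vlo x = y → AtU C K x)

/-- Clean holes: intact, no arm hosts a T-end, and the far end of every arm is at a wall or at an
intact hole. -/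
structure Clean (C : Cfg) (K : IBox) (h : Hole) : Prop where
  mem : h ∈ C.Z
  int : Intact K h
  fU : K.r ≤ C.D.vhi h.xU ∨ AtD C K h.xU
  fD : C.D.vlo h.xD ≤ K.l ∨ AtU C K h.xD
  fL : C.D.hlo h.yL ≤ K.a ∨ AtR C K h.yL
  fR : K.b ≤ C.D.hhi h.yR ∨ AtL C K h.yR
  nU : NoTV C K h.xU
  nD : NoTV C K h.xD
  nL : NoTH C K h.yL
  nR : NoTH C K h.yR

/-- Clean holes whose two horizontal arms are not both attached to the walls (sides `B`, `T`
open). -/
def GdB (C : Cfg) (K : IBox) (h : Hole) : Prop :=
  Clean C K h ∧ ¬ (C.D.hlo h.yL ≤ K.a ∧ K.b ≤ C.D.hhi h.yR)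

/-- Clean holes whose two vertical arms are not both attached to the walls (sides `L`, `R`
open). -/
def GdL (C : Cfg) (K : IBox) (h : Hole) : Prop :=
  Clean C K h ∧ ¬ (C.D.vlo h.xD ≤ K.l ∧ K.r ≤ C.D.vhi h.xU)

open Classical in
/-- The number of clean holes which count when the bottom is open. -/
noncomputable def gB (C : Cfg) (K : IBox) : ℕ := (C.Z.filter (GdB C K)).card

open Classical in
/-- The number of clean holes which count when the left or the right side is open. -/
noncomputable def gL (C : Cfg) (K : IBox) : ℕ := (C.Z.filter (GdL C K)).card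

open Classical in
/-- The number of free pieces when the bottom is open. -/
noncomputable def fB (C : Cfg) (K : IBox) : ℕ :=
  (C.D.V.filter fun x => PV C K x ∧ C.D.vhi x < K.r).card +
  (C.D.H.filter fun y => PH C K y ∧ K.a < C.D.hlo y ∧ C.D.hhi y < K.b).card

open Classical in
/-- The number of free pieces when the left side is open. -/
noncomputable def fL (C : Cfg) (K : IBox) : ℕ :=
  (C.D.V.filter fun x => PV C K x ∧ K.l < C.D.vlo x ∧ C.D.vhi x < K.r).card +
  (C.D.H.filter fun y => PH C K y ∧ C.D.hhi y < K.b).card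

open Classical in
/-- The number of free pieces when the right side is open. -/
noncomputable def fR (C : Cfg) (K : IBox) : ℕ :=
  (C.D.V.filter fun x => PV C K x ∧ K.l < C.D.vlo x ∧ C.D.vhi x < K.r).card +
  (C.D.H.filter fun y => PH C K y ∧ K.a < C.D.hlo y).card

/-- A face which is not a hole. -/
def IsTile (C : Cfg) (f : Quad) : Prop := IsF C.D f ∧ ∀ h ∈ C.Z, f ≠ (h.a, h.b, h.c, h.t)

/-- The open boxes meet. -/
def FMeets (f : Quad) (K : IBox) : Prop :=
  f.1 < K.b ∧ K.a < f.2.1 ∧ f.2.2.1 < K.r ∧ K.l < f.2.2.2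

open Classical in
/-- The number of tiles crossed in `K` by the vertical line at `x`. -/
noncomputable def tV (C : Cfg) (K : IBox) (x : ℤ) : ℕ :=
  (C.D.faces.filter fun f => IsTile C f ∧ FMeets f K ∧ f.1 < x ∧ x < f.2.1).card

open Classical in
/-- The number of tiles crossed in `K` by the horizontal line at `y`. -/
noncomputable def tH (C : Cfg) (K : IBox) (y : ℤ) : ℕ :=
  (C.D.faces.filter fun f => IsTile C f ∧ FMeets f K ∧ f.2.2.1 < y ∧ y < f.2.2.2).card

/-- `TCost C K c`: the tiles in `K` can be separated by a guillotine partition of `K` which cuts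
at most `c` times a tile. -/
inductive TCost (C : Cfg) : IBox → ℕ → Prop
  | leaf (K : IBox) (c : ℕ)
      (h : ∀ f g, IsTile C f → IsTile C g → FMeets f K → FMeets g K → f = g) : TCost C K c
  | vert (K : IBox) (x : ℤ) (c c1 c2 : ℕ) (h1 : K.a < x) (h2 : x < K.b)
      (t1 : TCost C ⟨K.a, x, K.l, K.r⟩ c1) (t2 : TCost C ⟨x, K.b, K.l, K.r⟩ c2)
      (h : c1 + c2 + tV C K x ≤ c) : TCost C K c
  | horiz (K : IBox) (y : ℤ) (c c1 c2 : ℕ) (h1 : K.l < y) (h2 : y < K.r)
      (t1 : TCost C ⟨K.a, K.b, K.l, y⟩ c1) (t2 : TCost C ⟨K.a, K.b, y, K.r⟩ c2)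
      (h : c1 + c2 + tH C K y ≤ c) : TCost C K c

/-- No piece of the dissection (stubs included) goes through `K`. -/
structure Irr (C : Cfg) (K : IBox) : Prop where
  v : ∀ x ∈ C.D.V, K.a < x → x < K.b → C.D.vlo x ≤ K.l → K.r ≤ C.D.vhi x → False
  h : ∀ y ∈ C.D.H, K.l < y → y < K.r → C.D.hlo y ≤ K.a → K.b ≤ C.D.hhi y → False

open Classical in
/-- The number of present vertical pieces which cross the horizontal line at `y`. -/
noncomputable def xH (C : Cfg) (K : IBox) (y : ℤ) : ℕ :=
  (C.D.V.filter fun x => PV C K x ∧ C.D.vlo x < y ∧ y < C.D.vhi x).card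

open Classical in
/-- The number of present horizontal pieces which cross the vertical line at `x`. -/
noncomputable def xV (C : Cfg) (K : IBox) (x : ℤ) : ℕ :=
  (C.D.H.filter fun y => PH C K y ∧ C.D.hlo y < x ∧ x < C.D.hhi y).card

open Classical in
/-- The intact holes hit by the horizontal line at `y`. -/
noncomputable def hitH (C : Cfg) (K : IBox) (y : ℤ) : ℕ :=
  (C.Z.filter fun h => Intact K h ∧ h.c < y ∧ y < h.t).card

open Classical in
/-- The intact holes hit by the vertical line at `x`. -/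
noncomputable def hitV (C : Cfg) (K : IBox) (x : ℤ) : ℕ :=
  (C.Z.filter fun h => Intact K h ∧ h.a < x ∧ x < h.b).card

open Classical in
/-- The number of present vertical pieces, not attached to the top, which end on the horizontal
piece `y`. -/
noncomputable def eH (C : Cfg) (K : IBox) (y : ℤ) : ℕ :=
  (C.D.V.filter fun x => PV C K x ∧ C.D.vhi x < K.r ∧ (C.D.vlo x = y ∨ C.D.vhi x = y)).card

open Classical in
/-- `1` if the horizontal piece `y` is attached to no lateral wall, else `0`. -/
noncomputable def frH (C : Cfg) (K : IBox) (y : ℤ) : ℕ :=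
  if K.a < C.D.hlo y ∧ C.D.hhi y < K.b then 1 else 0

end Pool.Agent.Helper23.BG
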