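import Mathlib
import Pool.Agent.Helper23.BG.CDefs

/-! The restriction of a configuration to a sub-box. -/

namespace Pool.Agent.Helper23.BG

open Pool.Agent.Helper4.BSPT

section
variable {C : Cfg}

/-- A vertical piece which stands on the horizontal piece `y` stands on its core. -/
theorem Cfg.Ok.host_lo (hC : C.Ok) {x : ℤ} (hx : x ∈ C.D.V) (hne : C.D.vlo x ≠ C.D.y0) {h : Hole}
    (hh : h ∈ C.Z) : (h.yR = C.D.vlo x → h.b ≤ x) ∧ (h.yL = C.D.vlo x → x ≤ h.a) := by
  have H := hC.hole h hh
  obtain ⟨v1, v2, v3⟩ := (hC.ok.vl x hx).resolve_left hne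
  have v4 := hC.ok.vlt x hx
  have f := H.fc.fv x hx
  have e := H.cl.ct x hx
  have ty := H.ty
  have ct := H.fc.ct
  constructor
  · intro e1
    by_contra hcon
    push Not at hcon
    have h1 := H.eR
    rw [e1] at h1
    have h3 := f (by omega) hcon
    have h4 := e (by omega) hcon
    simp only [Hole.c, Hole.t] at *
    omega
  · intro e1
    by_contra hcon
    push Not at hcon
    have h1 := H.eL
    rw [e1] at h1
    have h3 := f hcon (by omega)
    have h4 := e hcon (by omega)
    simp only [Hole.c, Hole.t] at *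
    omega

/-- A vertical piece which ends from below on the horizontal piece `y` ends on its core. -/
theorem Cfg.Ok.host_hi (hC : C.Ok) {x : ℤ} (hx : x ∈ C.D.V) (hne : C.D.vhi x ≠ C.D.y1) {h : Hole}
    (hh : h ∈ C.Z) : (h.yR = C.D.vhi x → h.b ≤ x) ∧ (h.yL = C.D.vhi x → x ≤ h.a) := by
  have H := hC.hole h hh
  obtain ⟨v1, v2, v3⟩ := (hC.ok.vh x hx).resolve_left hne
  have v4 := hC.ok.vlt x hx
  have f := H.fc.fv x hx
  have e := H.cl.cb x hx
  have ty := H.ty
  have ct := H.fc.ct
  constructor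
  · intro e1
    by_contra hcon
    push Not at hcon
    have h1 := H.eR
    rw [e1] at h1
    have h3 := f (by omega) hcon
    have h4 := e (by omega) hcon
    simp only [Hole.c, Hole.t] at *
    omega
  · intro e1
    by_contra hcon
    push Not at hcon
    have h1 := H.eL
    rw [e1] at h1
    have h3 := f hcon (by omega)
    have h4 := e hcon (by omega)
    simp only [Hole.c, Hole.t] at *
    omega

theorem Cfg.Ok.hostH_lo (hC : C.Ok) {y : ℤ} (hy : y ∈ C.D.H) (hne : C.D.hlo y ≠ C.D.x0) {h : Hole}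
    (hh : h ∈ C.Z) : (h.xU = C.D.hlo y → h.t ≤ y) ∧ (h.xD = C.D.hlo y → y ≤ h.c) := by
  have := hC.swap.host_lo (x := y) hy hne (h := h.swap) (Cfg.mem_swap.2 (by simpa using hh))
  simpa [Cfg.swap, Dis.swap] using this

theorem Cfg.Ok.hostH_hi (hC : C.Ok) {y : ℤ} (hy : y ∈ C.D.H) (hne : C.D.hhi y ≠ C.D.x1) {h : Hole}
    (hh : h ∈ C.Z) : (h.xU = C.D.hhi y → h.t ≤ y) ∧ (h.xD = C.D.hhi y → y ≤ h.c) := by
  have := hC.swap.host_hi (x := y) hy hne (h := h.swap) (Cfg.mem_swap.2 (by simpa using hh))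
  simpa [Cfg.swap, Dis.swap] using this

variable {K : IBox}

/-- The lower host of a present vertical piece is present. -/
theorem PV.host_lo (hC : C.Ok) (hK : InB C K) {x : ℤ} (k : PV C K x) (h1 : K.l < C.D.vlo x) :
    PH C K (C.D.vlo x) ∧ C.D.hlo (C.D.vlo x) < x ∧ x < C.D.hhi (C.D.vlo x) := by
  have hne : C.D.vlo x ≠ C.D.y0 := by have := hK.l0; omega
  obtain ⟨v1, v2, v3⟩ := (hC.ok.vl x k.mem).resolve_left hne
  have a1 := k.ax
  have a2 := k.xb
  have a3 := k.lo
  refine ⟨⟨v1, h1, a3, by omega, by omega, ?_, ?_⟩, v2, v3⟩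
  · intro h hh e
    have := (hC.host_lo k.mem hne hh).1 e
    omega
  · intro h hh e
    have := (hC.host_lo k.mem hne hh).2 e
    omega

/-- The upper host of a present vertical piece is present. -/
theorem PV.host_hi (hC : C.Ok) (hK : InB C K) {x : ℤ} (k : PV C K x) (h1 : C.D.vhi x < K.r) :
    PH C K (C.D.vhi x) ∧ C.D.hlo (C.D.vhi x) < x ∧ x < C.D.hhi (C.D.vhi x) := by
  have hne : C.D.vhi x ≠ C.D.y1 := by have := hK.r1; omega
  obtain ⟨v1, v2, v3⟩ := (hC.ok.vh x k.mem).resolve_left hne
  have a1 := k.ax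
  have a2 := k.xb
  have a3 := k.hi
  refine ⟨⟨v1, a3, h1, by omega, by omega, ?_, ?_⟩, v2, v3⟩
  · intro h hh e
    have := (hC.host_hi k.mem hne hh).1 e
    omega
  · intro h hh e
    have := (hC.host_hi k.mem hne hh).2 e
    omega

theorem InB.swap (hK : InB C K) : InB C.swap (swapB K) :=
  ⟨hK.lr, hK.ab, hK.l0, hK.r1, hK.a0, hK.b1⟩

theorem InB.flipX (hK : InB C K) : InB C.flipX (flipB K) where
  ab := by have := hK.ab; simp only [flipB]; omega
  lr := hK.lr
  a0 := by have := hK.b1; simp only [flipB, Cfg.flipX, Dis.flipX]; omega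
  b1 := by have := hK.a0; simp only [flipB, Cfg.flipX, Dis.flipX]; omega
  l0 := hK.l0
  r1 := hK.r1

theorem PV_swap {x : ℤ} : PV C.swap (swapB K) x ↔ PH C K x := by
  constructor
  · intro h
    refine ⟨h.mem, h.ax, h.xb, h.lo, h.hi, ?_, ?_⟩
    · intro k hk e
      have := h.up k.swap (Cfg.mem_swap.2 (by simpa using hk)) (by simpa using e)
      simpa [swapB] using this
    · intro k hk e
      have := h.dn k.swap (Cfg.mem_swap.2 (by simpa using hk)) (by simpa using e)
      simpa [swapB] using this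
  · intro h
    refine ⟨h.mem, h.ly, h.yr, h.lo, h.hi, ?_, ?_⟩
    · intro k hk e
      have := h.rt k.swap (Cfg.mem_swap.1 hk) (by simpa using e)
      simpa [swapB] using this
    · intro k hk e
      have := h.lf k.swap (Cfg.mem_swap.1 hk) (by simpa using e)
      simpa [swapB] using this

theorem PH_swap {x : ℤ} : PH C.swap (swapB K) x ↔ PV C K x := by
  have := PV_swap (C := C.swap) (K := swapB K) (x := x)
  rw [Cfg.swap_swap] at this
  exact this.symm

theorem PV_flipX {x : ℤ} : PV C.flipX (flipB K) x ↔ PV C K (-x) := by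
  constructor
  · intro h
    have h1 := h.ax
    have h2 := h.xb
    refine ⟨mem_neg_image.1 h.mem, by simp only [flipB] at h2; omega,
      by simp only [flipB] at h1; omega, h.lo, h.hi, ?_, ?_⟩
    · intro k hk e
      have := h.up k.flipX (Cfg.mem_flipX.2 (by simpa using hk))
        (by rw [Hole.flipX_xU]; omega)
      simpa [flipB] using this
    · intro k hk e
      have := h.dn k.flipX (Cfg.mem_flipX.2 (by simpa using hk))
        (by rw [Hole.flipX_xD]; omega)
      simpa [flipB] using this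
  · intro h
    have h1 := h.ax
    have h2 := h.xb
    refine ⟨mem_neg_image.2 h.mem, by simp only [flipB]; omega,
      by simp only [flipB]; omega, h.lo, h.hi, ?_, ?_⟩
    · intro k hk e
      have := h.up k.flipX (Cfg.mem_flipX.1 hk) (by rw [Hole.flipX_xU]; omega)
      simpa [flipB] using this
    · intro k hk e
      have := h.dn k.flipX (Cfg.mem_flipX.1 hk) (by rw [Hole.flipX_xD]; omega)
      simpa [flipB] using this

theorem PH_flipX {y : ℤ} : PH C.flipX (flipB K) y ↔ PH C K y := by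
  constructor
  · intro h
    have h1 := h.lo
    have h2 := h.hi
    refine ⟨h.mem, h.ly, h.yr, ?_, ?_, ?_, ?_⟩
    · simp only [flipB, Cfg.flipX, Dis.flipX] at h2; omega
    · simp only [flipB, Cfg.flipX, Dis.flipX] at h1; omega
    · intro k hk e
      have := h.lf k.flipX (Cfg.mem_flipX.2 (by simpa using hk)) (by simpa using e)
      rw [Hole.flipX_a] at this
      simp only [flipB] at this
      omega
    · intro k hk e
      have := h.rt k.flipX (Cfg.mem_flipX.2 (by simpa using hk)) (by simpa using e)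
      rw [Hole.flipX_b] at this
      simp only [flipB] at this
      omega
  · intro h
    have h1 := h.lo
    have h2 := h.hi
    refine ⟨h.mem, h.ly, h.yr, ?_, ?_, ?_, ?_⟩
    · simp only [flipB, Cfg.flipX, Dis.flipX]; omega
    · simp only [flipB, Cfg.flipX, Dis.flipX]; omega
    · intro k hk e
      have := h.lf k.flipX (Cfg.mem_flipX.1 hk) (by simpa using e)
      rw [Hole.flipX_a] at this
      simp only [flipB]
      omega
    · intro k hk e
      have := h.rt k.flipX (Cfg.mem_flipX.1 hk) (by simpa using e)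
      rw [Hole.flipX_b] at this
      simp only [flipB]
      omega

theorem PH.host_lo (hC : C.Ok) (hK : InB C K) {y : ℤ} (k : PH C K y) (h1 : K.a < C.D.hlo y) :
    PV C K (C.D.hlo y) ∧ C.D.vlo (C.D.hlo y) < y ∧ y < C.D.vhi (C.D.hlo y) := by
  have := PV.host_lo hC.swap hK.swap (PV_swap.2 k) h1
  exact ⟨PH_swap.1 this.1, this.2⟩

theorem PH.host_hi (hC : C.Ok) (hK : InB C K) {y : ℤ} (k : PH C K y) (h1 : C.D.hhi y < K.b) :
    PV C K (C.D.hhi y) ∧ C.D.vlo (C.D.hhi y) < y ∧ y < C.D.vhi (C.D.hhi y) := by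
  have := PV.host_hi hC.swap hK.swap (PV_swap.2 k) h1
  exact ⟨PH_swap.1 this.1, this.2⟩

/-- The arms of an intact hole are present. -/
theorem Intact.pU (hC : C.Ok) {h : Hole} (hh : h ∈ C.Z) (k : Intact K h) : PV C K h.xU := by
  have H := hC.hole h hh
  have f := H.fc.ct
  have f2 := H.fc.ab
  have k1 := k.a
  have k2 := k.b
  have k3 := k.c
  have k4 := k.t
  have e1 := H.eU
  have e2 := H.lU
  refine ⟨H.U, by simp only [Hole.a] at k1; omega, by simp only [Hole.b] at k2; omega,
    by omega, by omega, ?_, ?_⟩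
  · intro z hz e
    rw [hC.xU_inj hz hh e]; exact k4
  · intro z hz e
    have := hC.adjV hh hz e.symm
    omega

theorem Intact.pD (hC : C.Ok) {h : Hole} (hh : h ∈ C.Z) (k : Intact K h) : PV C K h.xD := by
  have H := hC.hole h hh
  have f := H.fc.ct
  have f2 := H.fc.ab
  have k1 := k.a
  have k2 := k.b
  have k3 := k.c
  have k4 := k.t
  have e1 := H.eD
  have e2 := H.lD
  refine ⟨H.Dn, by simp only [Hole.a] at k1; omega, by simp only [Hole.b] at k2; omega,
    by omega, by omega, ?_, ?_⟩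
  · intro z hz e
    have := hC.adjV hz hh e
    omega
  · intro z hz e
    rw [hC.xD_inj hz hh e]; exact k3

theorem Intact.swap {h : Hole} (k : Intact K h) : Intact (swapB K) h.swap := by
  refine ⟨?_, ?_, ?_, ?_⟩
  · rw [Hole.swap_a]; exact k.c
  · rw [Hole.swap_b]; exact k.t
  · rw [Hole.swap_c]; exact k.a
  · rw [Hole.swap_t]; exact k.b

theorem Intact.flipX {h : Hole} (k : Intact K h) : Intact (flipB K) h.flipX := by
  have k1 := k.a
  have k2 := k.b
  refine ⟨?_, ?_, ?_, ?_⟩
  · rw [Hole.flipX_a]; simp only [flipB]; omega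
  · rw [Hole.flipX_b]; simp only [flipB]; omega
  · rw [Hole.flipX_c]; exact k.c
  · rw [Hole.flipX_t]; exact k.t

theorem Intact_swap {h : Hole} : Intact (swapB K) h ↔ Intact K h.swap :=
  ⟨fun k => k.swap, fun k => by simpa using k.swap⟩

theorem flipB_flipB : flipB (flipB K) = K := by
  cases K; simp [flipB]

theorem Intact_flipX {h : Hole} : Intact (flipB K) h ↔ Intact K h.flipX :=
  ⟨fun k => by simpa [flipB_flipB] using k.flipX, fun k => by simpa using k.flipX⟩

theorem Intact.pR (hC : C.Ok) {h : Hole} (hh : h ∈ C.Z) (k : Intact K h) : PH C K h.yR :=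
  PV_swap.1 (Intact.pU hC.swap (h := h.swap) (Cfg.mem_swap.2 (by simpa using hh)) k.swap)

theorem Intact.pL (hC : C.Ok) {h : Hole} (hh : h ∈ C.Z) (k : Intact K h) : PH C K h.yL :=
  PV_swap.1 (Intact.pD hC.swap (h := h.swap) (Cfg.mem_swap.2 (by simpa using hh)) k.swap)

open Classical in
/-- The dissection of the box `K` by the present pieces. -/
noncomputable def Cfg.rst (C : Cfg) (K : IBox) : Dis :=
  ⟨K.a, K.b, K.l, K.r, C.D.V.filter (PV C K), C.D.H.filter (PH C K),
    fun x => max (C.D.vlo x) K.l, fun x => min (C.D.vhi x) K.r,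
    fun y => max (C.D.hlo y) K.a, fun y => min (C.D.hhi y) K.b⟩

open Classical in
/-- The restriction of a configuration to a sub-box. -/
noncomputable def Cfg.sub (C : Cfg) (K : IBox) : Cfg := ⟨C.rst K, C.Z.filter (Intact K)⟩

theorem mem_subV {x : ℤ} : x ∈ (C.rst K).V ↔ PV C K x := by
  classical
  simp only [Cfg.rst, Finset.mem_filter]
  exact ⟨fun h => h.2, fun h => ⟨h.mem, h⟩⟩

theorem mem_subH {y : ℤ} : y ∈ (C.rst K).H ↔ PH C K y := by
  classical
  simp only [Cfg.rst, Finset.mem_filter]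
  exact ⟨fun h => h.2, fun h => ⟨h.mem, h⟩⟩

theorem mem_subZ {h : Hole} : h ∈ (C.sub K).Z ↔ h ∈ C.Z ∧ Intact K h := by
  classical
  simp only [Cfg.sub, Finset.mem_filter]

theorem rst_ok (hC : C.Ok) (hK : InB C K) : (C.rst K).Ok where
  hx := hK.ab
  hy := hK.lr
  vx := fun x hx => ⟨(mem_subV.1 hx).ax, (mem_subV.1 hx).xb⟩
  hyy := fun y hy => ⟨(mem_subH.1 hy).ly, (mem_subH.1 hy).yr⟩
  vlt := by
    intro x hx
    have k := mem_subV.1 hx
    have := k.lo
    have := k.hi
    have := hC.ok.vlt x k.mem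
    have := hK.lr
    simp only [Cfg.rst]; omega
  hlt := by
    intro x hx
    have k := mem_subH.1 hx
    have := k.lo
    have := k.hi
    have := hC.ok.hlt x k.mem
    have := hK.ab
    simp only [Cfg.rst]; omega
  vl := by
    intro x hx
    have k := mem_subV.1 hx
    by_cases h1 : K.l < C.D.vlo x
    · have e : (C.rst K).vlo x = C.D.vlo x := by simp only [Cfg.rst]; omega
      obtain ⟨v1, v2, v3⟩ := k.host_lo hC hK h1
      have := k.ax
      have := k.xb
      rw [e]
      refine Or.inr ⟨mem_subH.2 v1, ?_, ?_⟩ <;> simp only [Cfg.rst] <;> omega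
    · left; simp only [Cfg.rst]; omega
  vh := by
    intro x hx
    have k := mem_subV.1 hx
    by_cases h1 : C.D.vhi x < K.r
    · have e : (C.rst K).vhi x = C.D.vhi x := by simp only [Cfg.rst]; omega
      obtain ⟨v1, v2, v3⟩ := k.host_hi hC hK h1
      have := k.ax
      have := k.xb
      rw [e]
      refine Or.inr ⟨mem_subH.2 v1, ?_, ?_⟩ <;> simp only [Cfg.rst] <;> omega
    · left; simp only [Cfg.rst]; omega
  hl := by
    intro x hx
    have k := mem_subH.1 hx
    by_cases h1 : K.a < C.D.hlo x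
    · have e : (C.rst K).hlo x = C.D.hlo x := by simp only [Cfg.rst]; omega
      obtain ⟨v1, v2, v3⟩ := k.host_lo hC hK h1
      have := k.ly
      have := k.yr
      rw [e]
      refine Or.inr ⟨mem_subV.2 v1, ?_, ?_⟩ <;> simp only [Cfg.rst] <;> omega
    · left; simp only [Cfg.rst]; omega
  hh := by
    intro x hx
    have k := mem_subH.1 hx
    by_cases h1 : C.D.hhi x < K.b
    · have e : (C.rst K).hhi x = C.D.hhi x := by simp only [Cfg.rst]; omega
      obtain ⟨v1, v2, v3⟩ := k.host_hi hC hK h1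
      have := k.ly
      have := k.yr
      rw [e]
      refine Or.inr ⟨mem_subV.2 v1, ?_, ?_⟩ <;> simp only [Cfg.rst] <;> omega
    · left; simp only [Cfg.rst]; omega
  nc := by
    intro x hx y hy hc
    have k1 := mem_subV.1 hx
    have k2 := mem_subH.1 hy
    simp only [Cfg.rst] at hc
    exact hC.ok.nc x k1.mem y k2.mem (by omega)

theorem sub_hole (hC : C.Ok) {h : Hole} (hh : h ∈ C.Z) (k : Intact K h) :
    IsHole (C.rst K) h := by
  have H := hC.hole h hh
  have k1 := k.a
  have k2 := k.b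
  have k3 := k.c
  have k4 := k.t
  have F := H.fc
  have ab := F.ab
  have ct := F.ct
  have pU := k.pU hC hh
  have pD := k.pD hC hh
  have pL := k.pL hC hh
  have pR := k.pR hC hh
  have eU := H.eU
  have eD := H.eD
  have eL := H.eL
  have eR := H.eR
  have lU := H.lU
  have lD := H.lD
  have lL := H.lL
  have lR := H.lR
  refine ⟨mem_subV.2 pU, mem_subV.2 pD, mem_subH.2 pL, mem_subH.2 pR, H.ty,
    ?_, ?_, ?_, ?_, ?_, ?_, ?_, ?_, ?_, ?_⟩
  · simp only [Cfg.rst]; omega
  · simp only [Cfg.rst]; omega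
  · simp only [Cfg.rst]; omega
  · simp only [Cfg.rst]; omega
  · simp only [Cfg.rst]; omega
  · simp only [Cfg.rst]; omega
  · simp only [Cfg.rst]; omega
  · simp only [Cfg.rst]; omega
  · have ma : h.a = h.xU ∨ h.a = h.xD := by simp only [Hole.a]; omega
    have mb : h.b = h.xU ∨ h.b = h.xD := by simp only [Hole.b]; omega
    have mc : h.c = h.yL ∨ h.c = h.yR := by simp only [Hole.c]; omega
    have mt : h.t = h.yL ∨ h.t = h.yR := by simp only [Hole.t]; omega
    refine ⟨ab, ct, ?_, ?_, ?_, ?_, ?_, ?_, ?_, ?_, ?_, ?_⟩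
    · simp only [Cfg.rst]; omega
    · simp only [Cfg.rst]; omega
    · simp only [Cfg.rst]; omega
    · simp only [Cfg.rst]; omega
    · right
      rcases ma with e | e <;> rw [e]
      · refine ⟨mem_subV.2 pU, ?_, ?_⟩ <;> simp only [Cfg.rst] <;> omega
      · refine ⟨mem_subV.2 pD, ?_, ?_⟩ <;> simp only [Cfg.rst] <;> omega
    · right
      rcases mb with e | e <;> rw [e]
      · refine ⟨mem_subV.2 pU, ?_, ?_⟩ <;> simp only [Cfg.rst] <;> omega
      · refine ⟨mem_subV.2 pD, ?_, ?_⟩ <;> simp only [Cfg.rst] <;> omega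
    · right
      rcases mc with e | e <;> rw [e]
      · refine ⟨mem_subH.2 pL, ?_, ?_⟩ <;> simp only [Cfg.rst] <;> omega
      · refine ⟨mem_subH.2 pR, ?_, ?_⟩ <;> simp only [Cfg.rst] <;> omega
    · right
      rcases mt with e | e <;> rw [e]
      · refine ⟨mem_subH.2 pL, ?_, ?_⟩ <;> simp only [Cfg.rst] <;> omega
      · refine ⟨mem_subH.2 pR, ?_, ?_⟩ <;> simp only [Cfg.rst] <;> omega
    · intro x hx h1 h2
      have := F.fv x (mem_subV.1 hx).mem h1 h2
      simp only [Cfg.rst]; omega
    · intro y hy h1 h2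
      have := F.fh y (mem_subH.1 hy).mem h1 h2
      simp only [Cfg.rst]; omega
  · refine ⟨?_, ?_, ?_, ?_⟩
    · intro y hy h1 h2 e
      have := H.cl.cl y (mem_subH.1 hy).mem h1 h2
      simp only [Cfg.rst] at e; omega
    · intro y hy h1 h2 e
      have := H.cl.cr y (mem_subH.1 hy).mem h1 h2
      simp only [Cfg.rst] at e; omega
    · intro x hx h1 h2 e
      have := H.cl.cb x (mem_subV.1 hx).mem h1 h2
      simp only [Cfg.rst] at e; omega
    · intro x hx h1 h2 e
      have := H.cl.ct x (mem_subV.1 hx).mem h1 h2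
      simp only [Cfg.rst] at e; omega

theorem sub_ok (hC : C.Ok) (hK : InB C K) : (C.sub K).Ok where
  ok := rst_ok hC hK
  hole := fun h hh => sub_hole hC (mem_subZ.1 hh).1 (mem_subZ.1 hh).2

end

end Pool.Agent.Helper23.BG
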