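import Mathlib
import Pool.Agent.Helper23.BG.Sub

/-! Counting the tiles crossed by the line of a piece inside a sub-box. -/

namespace Pool.Agent.Helper23.BG

open Pool.Agent.Helper4.BSPT

section
variable {C : Cfg} {K : IBox}

open Classical in
/-- All faces crossed in `K` by the vertical line at `c`. -/
noncomputable def fcV (C : Cfg) (K : IBox) (c : ℤ) : Finset Quad :=
  C.D.faces.filter fun f => FMeets f K ∧ f.1 < c ∧ c < f.2.1

/-- All horizontal pieces crossed in `K` by the vertical line at `c`. -/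
def ycV (C : Cfg) (K : IBox) (c : ℤ) : Finset ℤ :=
  C.D.H.filter fun y => K.l < y ∧ y < K.r ∧ C.D.hlo y < c ∧ c < C.D.hhi y

/-- All holes crossed in `K` by the vertical line at `c`. -/
def zcV (C : Cfg) (K : IBox) (c : ℤ) : Finset Hole :=
  C.Z.filter fun h => h.a < c ∧ c < h.b ∧ h.c < K.r ∧ K.l < h.t

theorem card_fcV_le (hK : InB C K) {c : ℤ} (hc : c ∈ C.D.V) (c1 : C.D.vlo c < K.r)
    (c2 : K.l < C.D.vhi c) (hlt : C.D.vlo c < C.D.vhi c) :
    (fcV C K c).card ≤ (ycV C K c).card := by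
  classical
  have l0 := hK.l0
  have r1 := hK.r1
  refine Finset.card_le_card_of_injOn
    (fun f => if C.D.vhi c ≤ f.2.2.1 then f.2.2.1 else f.2.2.2) ?_ ?_
  · intro f hf
    simp only [fcV, Finset.coe_filter, Set.mem_setOf_eq] at hf
    obtain ⟨h1, ⟨m1, m2, m3, m4⟩, h2, h3⟩ := hf
    have F := Dis.mem_faces.1 h1
    simp only [ycV, Finset.coe_filter, Set.mem_setOf_eq]
    split_ifs with h4
    · rcases F.cl with h5 | ⟨h5, h6, h7⟩
      · omega
      · exact ⟨h5, by omega, by omega, by omega, by omega⟩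
    · have h5 := F.fv c hc h2 h3
      rcases F.tl with h6 | ⟨h6, h7, h8⟩
      · omega
      · exact ⟨h6, by omega, by omega, by omega, by omega⟩
  · intro f hf g hg e
    simp only [fcV, Finset.coe_filter, Set.mem_setOf_eq] at hf hg
    obtain ⟨h1, ⟨m1, m2, m3, m4⟩, h2, h3⟩ := hf
    obtain ⟨k1, ⟨n1, n2, n3, n4⟩, k2, k3⟩ := hg
    have F := Dis.mem_faces.1 h1
    have G := Dis.mem_faces.1 k1
    have Fct := F.ct
    have Gct := G.ct
    have h5 := F.fv c hc h2 h3
    have k5 := G.fv c hc k2 k3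
    simp only at e
    split_ifs at e with i1 i2 i2
    · exact IsF.unique (p := c) (q := f.2.2.1) F G (by omega) (by omega) (by omega) (by omega)
        (by omega) (by omega) (by omega) (by omega)
    · omega
    · omega
    · exact IsF.unique (p := c) (q := f.2.2.2 - 1) F G (by omega) (by omega) (by omega) (by omega)
        (by omega) (by omega) (by omega) (by omega)

/-- The box of a hole. -/
def Hole.q (h : Hole) : Quad := (h.a, h.b, h.c, h.t)

theorem Cfg.Ok.q_inj (hC : C.Ok) {h k : Hole} (hh : h ∈ C.Z) (hk : k ∈ C.Z) (e : h.q = k.q) :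
    h = k := by
  have H := hC.hole h hh
  have K := hC.hole k hk
  simp only [Hole.q, Prod.mk.injEq] at e
  obtain ⟨e1, e2, e3, e4⟩ := e
  rcases H.ty with ⟨t1, t1'⟩ | ⟨t1, t1'⟩ <;> rcases K.ty with ⟨t2, t2'⟩ | ⟨t2, t2'⟩
  · simp only [Hole.a, Hole.b, Hole.c, Hole.t] at *
    ext <;> omega
  · exfalso
    have i1 := H.eL
    have i2 := K.eR
    have i3 := H.lL
    have e5 : h.yL = k.yR := by simp only [Hole.c] at e3; omega
    rw [e5] at i1 i3
    simp only [Hole.a, Hole.b] at *
    omega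
  · exfalso
    have i1 := H.eR
    have i2 := K.eL
    have i3 := H.lR
    have e5 : h.yR = k.yL := by simp only [Hole.c] at e3; omega
    rw [e5] at i1 i3
    simp only [Hole.a, Hole.b] at *
    omega
  · simp only [Hole.a, Hole.b, Hole.c, Hole.t] at *
    ext <;> omega

theorem tV_add_card_zcV_le (hC : C.Ok) {c : ℤ} (k1 : K.a < c) (k2 : c < K.b) :
    tV C K c + (zcV C K c).card ≤ (fcV C K c).card := by
  classical
  have e : ((zcV C K c).image Hole.q).card = (zcV C K c).card := by
    refine Finset.card_image_of_injOn ?_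
    intro h hh k hk e
    exact hC.q_inj (Finset.mem_filter.1 hh).1 (Finset.mem_filter.1 hk).1 e
  unfold tV
  rw [← e, ← Finset.card_union_of_disjoint]
  · refine Finset.card_le_card ?_
    intro f hf
    rcases Finset.mem_union.1 hf with h | h
    · obtain ⟨h1, h2, h3, h4⟩ := Finset.mem_filter.1 h
      exact Finset.mem_filter.2 ⟨h1, h3, h4⟩
    · obtain ⟨k, hk, rfl⟩ := Finset.mem_image.1 h
      obtain ⟨i1, i2, i3, i4, i5⟩ := Finset.mem_filter.1 hk
      refine Finset.mem_filter.2 ⟨Dis.mem_faces.2 (hC.hole k i1).fc, ⟨?_, ?_, i4, i5⟩, i2, i3⟩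
      · simp only [Hole.q]; omega
      · simp only [Hole.q]; omega
  · rw [Finset.disjoint_left]
    intro f hf hg
    obtain ⟨h1, h2, h3, h4⟩ := Finset.mem_filter.1 hf
    obtain ⟨k, hk, rfl⟩ := Finset.mem_image.1 hg
    exact h2.2 k (Finset.mem_filter.1 hk).1 rfl

/-- The stubs crossed by the line are not more than the holes which are crossed and not intact. -/
theorem card_stub_le (hC : C.Ok) {c : ℤ} (k1 : K.a < c) (k2 : c < K.b)
    (hfull : ∀ y ∈ C.D.H, K.l < y → y < K.r → C.D.hlo y ≤ K.a → K.b ≤ C.D.hhi y → False)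
    [DecidablePred (PH C K)] [DecidablePred (Intact K)] :
    ((ycV C K c).filter fun y => ¬ PH C K y).card ≤
      ((zcV C K c).filter fun h => ¬ Intact K h).card := by
  classical
  let P : ℤ → Hole → Prop := fun y h => h ∈ C.Z ∧
    ((h.yR = y ∧ K.b ≤ h.b) ∨ (h.yL = y ∧ h.a ≤ K.a))
  have hex : ∀ y ∈ (ycV C K c).filter fun y => ¬ PH C K y, ∃ h, P y h := by
    intro y hy
    obtain ⟨h1, h2⟩ := Finset.mem_filter.1 hy
    obtain ⟨i1, i2, i3, i4, i5⟩ := Finset.mem_filter.1 h1
    by_contra hcon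
    push Not at hcon
    apply h2
    refine ⟨i1, i2, i3, by omega, by omega, ?_, ?_⟩
    · intro h hh e
      by_contra h3
      exact hcon h ⟨hh, Or.inl ⟨e, by omega⟩⟩
    · intro h hh e
      by_contra h3
      exact hcon h ⟨hh, Or.inr ⟨e, by omega⟩⟩
  refine Finset.card_le_card_of_injOn
    (fun y => if h : ∃ h, P y h then h.choose else ⟨0, 0, 0, 0⟩) ?_ ?_
  · intro y hy
    have hy' := Finset.mem_coe.1 hy
    have hp := hex y hy'
    obtain ⟨h1, h2⟩ := Finset.mem_filter.1 hy'
    obtain ⟨i1, i2, i3, i4, i5⟩ := Finset.mem_filter.1 h1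
    simp only [dif_pos hp]
    obtain ⟨j1, j2⟩ := hp.choose_spec
    have H := hC.hole _ j1
    have eL := H.eL
    have eR := H.eR
    refine Finset.mem_coe.2 (Finset.mem_filter.2 ⟨Finset.mem_filter.2 ⟨j1, ?_, ?_, ?_, ?_⟩, ?_⟩)
    · rcases j2 with ⟨e, e2⟩ | ⟨e, e2⟩
      · rw [e] at eR; omega
      · omega
    · rcases j2 with ⟨e, e2⟩ | ⟨e, e2⟩
      · omega
      · rw [e] at eL; omega
    · simp only [Hole.c]; omega
    · simp only [Hole.t]; omega
    · intro hI
      have := hI.a
      have := hI.b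
      omega
  · intro y hy z hz e
    have hp := hex y (Finset.mem_coe.1 hy)
    have hq := hex z (Finset.mem_coe.1 hz)
    have hy' := Finset.mem_filter.1 (Finset.mem_coe.1 hy)
    have hz' := Finset.mem_filter.1 (Finset.mem_coe.1 hz)
    obtain ⟨i1, i2, i3, i4, i5⟩ := Finset.mem_filter.1 hy'.1
    obtain ⟨i1', i2', i3', i4', i5'⟩ := Finset.mem_filter.1 hz'.1
    simp only [dif_pos hp, dif_pos hq] at e
    obtain ⟨j1, j2⟩ := hp.choose_spec
    obtain ⟨k1, k2⟩ := hq.choose_spec
    rw [← e] at k1 k2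
    have H := hC.hole _ j1
    have eL := H.eL
    have eR := H.eR
    have lL := H.lL
    have lR := H.lR
    rcases j2 with ⟨e1, e2⟩ | ⟨e1, e2⟩ <;> rcases k2 with ⟨e3, e4⟩ | ⟨e3, e4⟩
    · omega
    · rw [e1] at eR lR
      exact (hfull y i1 i2 i3 (by omega) (by omega)).elim
    · rw [e3] at eR lR
      exact (hfull z i1' i2' i3' (by omega) (by omega)).elim
    · omega

/-- The crossing lemma for a vertical line. -/
theorem crossV (hC : C.Ok) (hK : InB C K) {c : ℤ} (hc : c ∈ C.D.V) (k1 : K.a < c) (k2 : c < K.b)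
    (c1 : C.D.vlo c < K.r) (c2 : K.l < C.D.vhi c)
    (hfull : ∀ y ∈ C.D.H, K.l < y → y < K.r → C.D.hlo y ≤ K.a → K.b ≤ C.D.hhi y → False) :
    tV C K c + hitV C K c ≤ xV C K c := by
  classical
  have h1 := card_fcV_le hK hc c1 c2 (hC.ok.vlt c hc)
  have h2 := tV_add_card_zcV_le hC k1 k2
  have h3 := card_stub_le hC k1 k2 hfull
  have h4 : ((ycV C K c).filter fun y => PH C K y).card +
      ((ycV C K c).filter fun y => ¬ PH C K y).card = (ycV C K c).card :=
    Finset.card_filter_add_card_filter_not _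
  have h5 : ((zcV C K c).filter fun h => Intact K h).card +
      ((zcV C K c).filter fun h => ¬ Intact K h).card = (zcV C K c).card :=
    Finset.card_filter_add_card_filter_not _
  have h6 : ((ycV C K c).filter fun y => PH C K y).card ≤ xV C K c := by
    refine Finset.card_le_card ?_
    intro y hy
    obtain ⟨i1, i2⟩ := Finset.mem_filter.1 hy
    obtain ⟨j1, j2, j3, j4, j5⟩ := Finset.mem_filter.1 i1
    exact Finset.mem_filter.2 ⟨j1, i2, j4, j5⟩
  have h7 : hitV C K c ≤ ((zcV C K c).filter fun h => Intact K h).card := by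
    refine Finset.card_le_card ?_
    intro h hh
    obtain ⟨i1, i2, i3, i4⟩ := Finset.mem_filter.1 hh
    have F := (hC.hole h i1).fc.ct
    have := i2.c
    have := i2.t
    exact Finset.mem_filter.2 ⟨Finset.mem_filter.2 ⟨i1, i3, i4, by omega, by omega⟩, i2⟩
  omega

/-- A line along a piece which goes through the box crosses no tile. -/
theorem tV_full {c : ℤ} (hc : c ∈ C.D.V) (h1 : C.D.vlo c ≤ K.l) (h2 : K.r ≤ C.D.vhi c) :
    tV C K c = 0 := by
  classical
  unfold tV
  rw [Finset.card_eq_zero, Finset.filter_eq_empty_iff]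
  rintro f hf ⟨_, ⟨m1, m2, m3, m4⟩, h3, h4⟩
  have := (Dis.mem_faces.1 hf).fv c hc h3 h4
  omega

end

end Pool.Agent.Helper23.BG
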