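import Mathlib
import Pool.Agent.RB.Defs
import Pool.Agent.Helper23.BG.Euler

/-! Translation between the configurations of project RB and dissections. -/

namespace Pool.Agent.Helper23.BG

/-- The dissection of a configuration. -/
def toDis (D : Pool.RB.Cfg) : Dis :=
  ⟨D.X0, D.X1, D.Y0, D.Y1, D.V, D.H, D.vlo, D.vhi, D.hlo, D.hhi⟩

theorem toDis_ok {D : Pool.RB.Cfg} (h : Pool.RB.Ok D) : (toDis D).Ok where
  hx := h.hX
  hy := h.hY
  vx := fun x hx => ⟨(h.v x hx).1, (h.v x hx).2.1⟩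
  hyy := fun y hy => ⟨(h.h y hy).1, (h.h y hy).2.1⟩
  vlt := fun x hx => (h.v x hx).2.2.2.1
  hlt := fun y hy => (h.h y hy).2.2.2.1
  vl := h.vlo_end
  vh := h.vhi_end
  hl := h.hlo_end
  hh := h.hhi_end
  nc := fun x hx y hy hc => h.nc x hx y hy hc.1 hc.2.1 hc.2.2.1 hc.2.2.2

theorem isFace_toDis {D : Pool.RB.Cfg} {f : Pool.RB.Box} (h : Pool.RB.IsFace D f) :
    IsFace (toDis D) f.x1 f.x2 f.y1 f.y2 where
  ab := h.nd.1
  ct := h.nd.2
  a0 := h.ix1
  b1 := h.ix2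
  c0 := h.iy1
  t1 := h.iy2
  al := h.left
  bl := h.right
  cl := h.bot
  tl := h.top
  fv := by
    intro x hx h1 h2
    by_contra hc
    push Not at hc
    exact h.noV x hx h1 h2 hc.2 hc.1
  fh := by
    intro y hy h1 h2
    by_contra hc
    push Not at hc
    exact h.noH y hy h1 h2 hc.2 hc.1

theorem of_isFace_toDis {D : Pool.RB.Cfg} {a b c t : ℤ} (h : IsFace (toDis D) a b c t) :
    Pool.RB.IsFace D ⟨a, b, c, t⟩ where
  nd := ⟨h.ab, h.ct⟩
  ix1 := h.a0
  ix2 := h.b1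
  iy1 := h.c0
  iy2 := h.t1
  left := h.al
  right := h.bl
  bot := h.cl
  top := h.tl
  noV := by
    intro x hx h1 h2 h3 h4
    have h5 := h.fv x hx h1 h2
    simp only [toDis] at h5
    simp only at h3 h4
    omega
  noH := by
    intro y hy h1 h2 h3 h4
    have h5 := h.fh y hy h1 h2
    simp only [toDis] at h5
    simp only at h3 h4
    omega

/-- Existence of faces (`StFE` of project RB). -/
theorem rb_exists_face (D : Pool.RB.Cfg) (i j : ℤ) (h : Pool.RB.Ok D) (h1 : D.X0 ≤ i)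
    (h2 : i + 1 ≤ D.X1) (h3 : D.Y0 ≤ j) (h4 : j + 1 ≤ D.Y1) :
    ∃ f : Pool.RB.Box, Pool.RB.IsFace D f ∧ f.x1 ≤ i ∧ i + 1 ≤ f.x2 ∧ f.y1 ≤ j ∧ j + 1 ≤ f.y2 := by
  obtain ⟨a, b, c, t, f, j1, j2, j3, j4⟩ :=
    exists_face (toDis_ok h) (p := i) (q := j) h1 (by simp only [toDis]; omega) h3
      (by simp only [toDis]; omega)
  exact ⟨⟨a, b, c, t⟩, of_isFace_toDis f, j1, by simp only; omega, j3, by simp only; omega⟩

/-- Uniqueness of faces (`StFU` of project RB). -/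
theorem rb_face_unique (D : Pool.RB.Cfg) (f g : Pool.RB.Box) (hf : Pool.RB.IsFace D f)
    (hg : Pool.RB.IsFace D g) (h : Pool.RB.Meets f g) : f = g := by
  have f1 := hf.nd.1
  have f2 := hf.nd.2
  have g1 := hg.nd.1
  have g2 := hg.nd.2
  obtain ⟨m1, m2, m3, m4⟩ := h
  have := IsFace.unique (isFace_toDis hf) (isFace_toDis hg) (p := max f.x1 g.x1)
    (q := max f.y1 g.y1) (by omega) (by omega) (by omega) (by omega) (by omega) (by omega)
    (by omega) (by omega)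
  obtain ⟨e1, e2, e3, e4⟩ := this
  cases f
  cases g
  simp only at e1 e2 e3 e4
  subst e1 e2 e3 e4
  rfl

end Pool.Agent.Helper23.BG
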