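import Mathlib
import Pool.Agent.RB.Defs
import Pool.Agent.Helper23.BG.Cfg
import Pool.Agent.Helper23.BG.RBFace

/-! The root dissection as a configuration of project RB. -/

namespace Pool.Agent.Helper23.BG

open Pool.Agent.Helper4.BSPT

/-- The box of a face. -/
def qb (f : Quad) : Pool.RB.Box := ⟨f.1, f.2.1, f.2.2.1, f.2.2.2⟩

theorem qb_inj : Function.Injective qb := by
  intro f g e
  simp only [qb, Pool.RB.Box.mk.injEq] at e
  obtain ⟨e1, e2, e3, e4⟩ := e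
  exact Prod.ext e1 (Prod.ext e2 (Prod.ext e3 e4))

open Classical in
/-- The arms of a windmill face. -/
noncomputable def holeOf (D : Dis) (f : Quad) : Hole :=
  if WA D f.1 f.2.1 f.2.2.1 f.2.2.2 then ⟨f.2.2.1, f.2.2.2, f.1, f.2.1⟩
  else ⟨f.2.2.2, f.2.2.1, f.2.1, f.1⟩

theorem holeOf_spec {D : Dis} {f : Quad} (h1 : IsF D f)
    (h2 : WA D f.1 f.2.1 f.2.2.1 f.2.2.2 ∨ WB D f.1 f.2.1 f.2.2.1 f.2.2.2)
    (h3 : CleanF D f.1 f.2.1 f.2.2.1 f.2.2.2) :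
    IsHole D (holeOf D f) ∧ (holeOf D f).a = f.1 ∧ (holeOf D f).b = f.2.1 ∧
      (holeOf D f).c = f.2.2.1 ∧ (holeOf D f).t = f.2.2.2 := by
  classical
  have ab := IsFace.ab h1
  have ct := IsFace.ct h1
  by_cases w : WA D f.1 f.2.1 f.2.2.1 f.2.2.2
  · have e : holeOf D f = ⟨f.2.2.1, f.2.2.2, f.1, f.2.1⟩ := if_pos w
    rw [e]
    have ea : (⟨f.2.2.1, f.2.2.2, f.1, f.2.1⟩ : Hole).a = f.1 := by
      simp only [Hole.a]; omega
    have eb : (⟨f.2.2.1, f.2.2.2, f.1, f.2.1⟩ : Hole).b = f.2.1 := by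
      simp only [Hole.b]; omega
    have ec : (⟨f.2.2.1, f.2.2.2, f.1, f.2.1⟩ : Hole).c = f.2.2.1 := by
      simp only [Hole.c]; omega
    have et : (⟨f.2.2.1, f.2.2.2, f.1, f.2.1⟩ : Hole).t = f.2.2.2 := by
      simp only [Hole.t]; omega
    refine ⟨⟨w.aV, w.bV, w.cH, w.tH, Or.inl ⟨ab, ct⟩, ?_, ?_, ?_, ?_, ?_, ?_, ?_, ?_, ?_, ?_⟩,
      ea, eb, ec, et⟩
    · rw [ec]; exact w.l1
    · rw [et]; exact w.r1
    · rw [eb]; exact w.b1
    · rw [ea]; exact w.t1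
    · rw [et]; exact w.l2
    · rw [ec]; exact w.r2
    · rw [ea]; exact w.b2
    · rw [eb]; exact w.t2
    · rw [ea, eb, ec, et]; exact h1
    · rw [ea, eb, ec, et]; exact h3
  · have w' := h2.resolve_left w
    have e : holeOf D f = ⟨f.2.2.2, f.2.2.1, f.2.1, f.1⟩ := if_neg w
    rw [e]
    have ea : (⟨f.2.2.2, f.2.2.1, f.2.1, f.1⟩ : Hole).a = f.1 := by
      simp only [Hole.a]; omega
    have eb : (⟨f.2.2.2, f.2.2.1, f.2.1, f.1⟩ : Hole).b = f.2.1 := by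
      simp only [Hole.b]; omega
    have ec : (⟨f.2.2.2, f.2.2.1, f.2.1, f.1⟩ : Hole).c = f.2.2.1 := by
      simp only [Hole.c]; omega
    have et : (⟨f.2.2.2, f.2.2.1, f.2.1, f.1⟩ : Hole).t = f.2.2.2 := by
      simp only [Hole.t]; omega
    refine ⟨⟨w'.bV, w'.aV, w'.tH, w'.cH, Or.inr ⟨ab, ct⟩, ?_, ?_, ?_, ?_, ?_, ?_, ?_, ?_, ?_, ?_⟩,
      ea, eb, ec, et⟩
    · rw [ec]; exact w'.r1
    · rw [et]; exact w'.l1
    · rw [eb]; exact w'.t1
    · rw [ea]; exact w'.b1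
    · rw [et]; exact w'.r2
    · rw [ec]; exact w'.l2
    · rw [ea]; exact w'.t2
    · rw [eb]; exact w'.b2
    · rw [ea, eb, ec, et]; exact h1
    · rw [ea, eb, ec, et]; exact h3

open Classical in
/-- The configuration with all holes. -/
noncomputable def rootCfg {n : ℕ} (D : Dis) (F : Fin n → Quad) : Cfg :=
  ⟨D, (holes D F).image (holeOf D)⟩

section
variable {n : ℕ} {s : Fin n → IBox} {D : Dis} {F : Fin n → Quad}

theorem Root.spec (h : Root s D F) {f : Quad} (hf : f ∈ holes D F) :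
    IsHole D (holeOf D f) ∧ (holeOf D f).a = f.1 ∧ (holeOf D f).b = f.2.1 ∧
      (holeOf D f).c = f.2.2.1 ∧ (holeOf D f).t = f.2.2.2 := by
  classical
  obtain ⟨h1, h2⟩ := Finset.mem_sdiff.1 hf
  have h3 := Dis.mem_faces.1 h1
  have h4 := h.hole f.1 f.2.1 f.2.2.1 f.2.2.2 h3 (by
    intro i e
    exact h2 (Finset.mem_image.2 ⟨i, Finset.mem_univ i, e⟩))
  exact holeOf_spec h3 h4.1 h4.2

theorem Root.cfg_ok (h : Root s D F) : (rootCfg D F).Ok where
  ok := h.ok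
  hole := by
    classical
    intro z hz
    obtain ⟨f, hf, rfl⟩ := Finset.mem_image.1 hz
    exact (h.spec hf).1

theorem Root.cfg_card (h : Root s D F) : (rootCfg D F).Z.card = (holes D F).card := by
  classical
  refine Finset.card_image_of_injOn ?_
  intro f hf g hg e
  obtain ⟨_, a1, a2, a3, a4⟩ := h.spec hf
  obtain ⟨_, b1, b2, b3, b4⟩ := h.spec hg
  rw [e] at a1 a2 a3 a4
  exact Prod.ext (a1.symm.trans b1) (Prod.ext (a2.symm.trans b2)
    (Prod.ext (a3.symm.trans b3) (a4.symm.trans b4)))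

end

/-- Holes of project RB. -/
def rbHole (h : Hole) : Pool.RB.Hole := ⟨h.yL, h.yR, h.xU, h.xD⟩

theorem rbHole_inj : Function.Injective rbHole := by
  intro h k e
  simp only [rbHole, Pool.RB.Hole.mk.injEq] at e
  obtain ⟨e1, e2, e3, e4⟩ := e
  exact Hole.ext e1 e2 e3 e4

/-- Configurations of project RB. -/
def rbCfg (C : Cfg) : Pool.RB.Cfg :=
  ⟨C.D.x0, C.D.x1, C.D.y0, C.D.y1, C.D.V, C.D.H, C.D.vlo, C.D.vhi, C.D.hlo, C.D.hhi,
    C.Z.image rbHole⟩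

theorem rbHole_ok {C : Cfg} {h : Hole} (k : IsHole C.D h) : Pool.RB.HoleOk (rbCfg C) (rbHole h) where
  hU := k.U
  hD := k.Dn
  hL := k.L
  hR := k.R
  chir := by
    have := k.ty
    simp only [rbHole]; omega
  eL := k.eL
  eR := k.eR
  eU := k.eU
  eD := k.eD
  noV := by
    intro x hx h1 h2 h3 h4
    have h5 := k.fc.fv x hx h1 h2
    change C.D.vlo x < h.t at h3
    change h.c < C.D.vhi x at h4
    omega
  noH := by
    intro y hy h1 h2 h3 h4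
    have h5 := k.fc.fh y hy h1 h2
    change C.D.hlo y < h.b at h3
    change h.a < C.D.hhi y at h4
    omega

theorem rbCfg_ok {C : Cfg} (h : C.Ok) : Pool.RB.Ok (rbCfg C) where
  hX := h.ok.hx
  hY := h.ok.hy
  v := fun x hx => ⟨(h.ok.vx x hx).1, (h.ok.vx x hx).2, h.ok.vlo_ge hx, h.ok.vlt x hx,
    h.ok.vhi_le hx⟩
  h := fun y hy => ⟨(h.ok.hyy y hy).1, (h.ok.hyy y hy).2, h.ok.hlo_ge hy, h.ok.hlt y hy,
    h.ok.hhi_le hy⟩
  vlo_end := h.ok.vl
  vhi_end := h.ok.vh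
  hlo_end := h.ok.hl
  hhi_end := h.ok.hh
  nc := fun x hx y hy h1 h2 h3 h4 => h.ok.nc x hx y hy ⟨h1, h2, h3, h4⟩
  z := by
    intro z hz
    obtain ⟨k, hk, rfl⟩ := Finset.mem_image.1 hz
    exact rbHole_ok (h.hole k hk)
  adjH := by
    intro z hz w hw e
    obtain ⟨k, hk, rfl⟩ := Finset.mem_image.1 hz
    obtain ⟨l, hl, rfl⟩ := Finset.mem_image.1 hw
    exact h.adjH hk hl e
  adjV := by
    intro z hz w hw e
    obtain ⟨k, hk, rfl⟩ := Finset.mem_image.1 hz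
    obtain ⟨l, hl, rfl⟩ := Finset.mem_image.1 hw
    exact h.adjV hk hl e

end Pool.Agent.Helper23.BG
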