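import Mathlib
import Pool.Agent.Helper23.BG.Cross

/-! Symmetries of the cost. -/

namespace Pool.Agent.Helper23.BG

open Pool.Agent.Helper4.BSPT

section
variable {C : Cfg} {K : IBox}

theorem IsF_swap {D : Dis} {f : Quad} : IsF D.swap f ↔ IsF D f.swap :=
  ⟨fun h => h.swap, fun h => h.swap⟩

theorem IsF_flipX {D : Dis} {f : Quad} : IsF D.flipX f ↔ IsF D f.flipX := by
  constructor
  · intro h
    have := h.flipX
    rwa [Dis.flipX_flipX] at this
  · intro h
    have := h.flipX
    rwa [Quad.flipX_flipX] at this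

theorem IsTile_swap {f : Quad} : IsTile C.swap f ↔ IsTile C f.swap := by
  unfold IsTile
  refine and_congr IsF_swap ?_
  constructor
  · intro h k hk e
    apply h k.swap (Cfg.mem_swap.2 (by simpa using hk))
    have := congrArg Quad.swap e
    simpa [Quad.swap] using this
  · intro h k hk e
    apply h k.swap (Cfg.mem_swap.1 hk)
    rw [e]
    simp [Quad.swap]

theorem IsTile_flipX {f : Quad} : IsTile C.flipX f ↔ IsTile C f.flipX := by
  unfold IsTile
  refine and_congr IsF_flipX ?_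
  constructor
  · intro h k hk e
    apply h k.flipX (Cfg.mem_flipX.2 (by simpa using hk))
    have := congrArg Quad.flipX e
    rw [Quad.flipX_flipX] at this
    rw [this]
    simp [Quad.flipX]
  · intro h k hk e
    apply h k.flipX (Cfg.mem_flipX.1 hk)
    rw [e]
    simp [Quad.flipX]

theorem FMeets_swap {f : Quad} : FMeets f (swapB K) ↔ FMeets f.swap K := by
  simp only [FMeets, swapB, Quad.swap]
  tauto

theorem FMeets_flipX {f : Quad} : FMeets f (flipB K) ↔ FMeets f.flipX K := by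
  simp only [FMeets, flipB, Quad.flipX]
  constructor
  · rintro ⟨h1, h2, h3, h4⟩; exact ⟨by omega, by omega, h3, h4⟩
  · rintro ⟨h1, h2, h3, h4⟩; exact ⟨by omega, by omega, h3, h4⟩

theorem mem_faces_swap {D : Dis} {f : Quad} : f ∈ D.swap.faces ↔ f.swap ∈ D.faces := by
  rw [Dis.mem_faces, Dis.mem_faces]; exact IsF_swap

theorem mem_faces_flipX {D : Dis} {f : Quad} : f ∈ D.flipX.faces ↔ f.flipX ∈ D.faces := by
  rw [Dis.mem_faces, Dis.mem_faces]; exact IsF_flipX

theorem tV_swap (y : ℤ) : tV C.swap (swapB K) y = tH C K y := by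
  classical
  unfold tV tH
  refine Finset.card_nbij' Quad.swap Quad.swap ?_ ?_ (fun _ _ => rfl) (fun _ _ => rfl)
  · intro f hf
    rw [Finset.mem_coe, Finset.mem_filter] at hf ⊢
    exact ⟨mem_faces_swap.1 hf.1, IsTile_swap.1 hf.2.1, FMeets_swap.1 hf.2.2.1, hf.2.2.2⟩
  · intro f hf
    rw [Finset.mem_coe, Finset.mem_filter] at hf ⊢
    exact ⟨mem_faces_swap.2 hf.1, IsTile_swap.2 hf.2.1, FMeets_swap.2 hf.2.2.1, hf.2.2.2⟩

theorem tH_swap (x : ℤ) : tH C.swap (swapB K) x = tV C K x := by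
  have := tV_swap (C := C.swap) (K := swapB K) x
  rw [Cfg.swap_swap] at this
  exact this.symm

theorem tV_flipX (x : ℤ) : tV C.flipX (flipB K) x = tV C K (-x) := by
  classical
  unfold tV
  refine Finset.card_nbij' Quad.flipX Quad.flipX ?_ ?_ (fun f _ => Quad.flipX_flipX f)
    (fun f _ => Quad.flipX_flipX f)
  · intro f hf
    rw [Finset.mem_coe, Finset.mem_filter] at hf ⊢
    obtain ⟨h1, h2, h3, h4, h5⟩ := hf
    refine ⟨mem_faces_flipX.1 h1, IsTile_flipX.1 h2, FMeets_flipX.1 h3, ?_, ?_⟩ <;>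
      simp only [Quad.flipX] <;> omega
  · intro f hf
    rw [Finset.mem_coe, Finset.mem_filter] at hf ⊢
    obtain ⟨h1, h2, h3, h4, h5⟩ := hf
    have h2' : IsTile C (Quad.flipX (Quad.flipX f)) := by rw [Quad.flipX_flipX]; exact h2
    have h3' : FMeets (Quad.flipX (Quad.flipX f)) K := by rw [Quad.flipX_flipX]; exact h3
    refine ⟨mem_faces_flipX.2 (by rw [Quad.flipX_flipX]; exact h1), IsTile_flipX.2 h2',
      FMeets_flipX.2 h3', ?_, ?_⟩ <;> simp only [Quad.flipX] <;> omega

theorem tH_flipX (y : ℤ) : tH C.flipX (flipB K) y = tH C K y := by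
  classical
  unfold tH
  refine Finset.card_nbij' Quad.flipX Quad.flipX ?_ ?_ (fun f _ => Quad.flipX_flipX f)
    (fun f _ => Quad.flipX_flipX f)
  · intro f hf
    rw [Finset.mem_coe, Finset.mem_filter] at hf ⊢
    obtain ⟨h1, h2, h3, h4, h5⟩ := hf
    exact ⟨mem_faces_flipX.1 h1, IsTile_flipX.1 h2, FMeets_flipX.1 h3, h4, h5⟩
  · intro f hf
    rw [Finset.mem_coe, Finset.mem_filter] at hf ⊢
    obtain ⟨h1, h2, h3, h4, h5⟩ := hf
    have h2' : IsTile C (Quad.flipX (Quad.flipX f)) := by rw [Quad.flipX_flipX]; exact h2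
    have h3' : FMeets (Quad.flipX (Quad.flipX f)) K := by rw [Quad.flipX_flipX]; exact h3
    exact ⟨mem_faces_flipX.2 (by rw [Quad.flipX_flipX]; exact h1), IsTile_flipX.2 h2',
      FMeets_flipX.2 h3', h4, h5⟩

theorem TCost.mono {c c' : ℕ} (h : TCost C K c) (hc : c ≤ c') : TCost C K c' := by
  cases h with
  | leaf _ _ h => exact TCost.leaf K c' h
  | vert _ x _ c1 c2 h1 h2 t1 t2 h => exact TCost.vert K x c' c1 c2 h1 h2 t1 t2 (h.trans hc)
  | horiz _ y _ c1 c2 h1 h2 t1 t2 h => exact TCost.horiz K y c' c1 c2 h1 h2 t1 t2 (h.trans hc)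

theorem TCost.swap {c : ℕ} (h : TCost C K c) : TCost C.swap (swapB K) c := by
  induction h with
  | leaf K c h =>
    refine TCost.leaf _ _ ?_
    intro f g h1 h2 h3 h4
    have := h f.swap g.swap (IsTile_swap.1 h1) (IsTile_swap.1 h2) (FMeets_swap.1 h3)
      (FMeets_swap.1 h4)
    exact congrArg Quad.swap this
  | vert K x c c1 c2 h1 h2 _ _ h ih1 ih2 =>
    exact TCost.horiz (swapB K) x c c1 c2 h1 h2 ih1 ih2 (by rw [tH_swap]; exact h)
  | horiz K y c c1 c2 h1 h2 _ _ h ih1 ih2 =>
    exact TCost.vert (swapB K) y c c1 c2 h1 h2 ih1 ih2 (by rw [tV_swap]; exact h)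

theorem TCost.of_swap {c : ℕ} (h : TCost C.swap (swapB K) c) : TCost C K c := by
  have := h.swap
  rw [Cfg.swap_swap] at this
  exact this

theorem TCost.flipX {c : ℕ} (h : TCost C K c) : TCost C.flipX (flipB K) c := by
  induction h with
  | leaf K c h =>
    refine TCost.leaf _ _ ?_
    intro f g h1 h2 h3 h4
    have := h f.flipX g.flipX (IsTile_flipX.1 h1) (IsTile_flipX.1 h2) (FMeets_flipX.1 h3)
      (FMeets_flipX.1 h4)
    have := congrArg Quad.flipX this
    rwa [Quad.flipX_flipX, Quad.flipX_flipX] at this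
  | vert K x c c1 c2 h1 h2 _ _ h ih1 ih2 =>
    exact TCost.vert (flipB K) (-x) c c2 c1 (by simp only [flipB]; omega)
      (by simp only [flipB]; omega) ih2 ih1 (by rw [tV_flipX, neg_neg]; omega)
  | horiz K y c c1 c2 h1 h2 _ _ h ih1 ih2 =>
    exact TCost.horiz (flipB K) y c c1 c2 h1 h2 ih1 ih2 (by rw [tH_flipX]; exact h)

theorem TCost.of_flipX {c : ℕ} (h : TCost C.flipX (flipB K) c) : TCost C K c := by
  have := h.flipX
  rw [Cfg.flipX_flipX, flipB_flipB] at this
  exact this

theorem xV_swap (y : ℤ) : xV C.swap (swapB K) y = xH C K y := by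
  classical
  unfold xV xH
  congr 1
  refine Finset.filter_congr ?_
  intro x _
  rw [PH_swap]
  exact Iff.rfl

theorem hitV_swap (y : ℤ) : hitV C.swap (swapB K) y = hitH C K y := by
  classical
  unfold hitV hitH
  refine Finset.card_nbij' Hole.swap Hole.swap ?_ ?_ (fun _ _ => rfl) (fun _ _ => rfl)
  · intro f hf
    rw [Finset.mem_coe, Finset.mem_filter] at hf ⊢
    exact ⟨Cfg.mem_swap.1 hf.1, Intact_swap.1 hf.2.1, by simpa using hf.2.2⟩
  · intro f hf
    rw [Finset.mem_coe, Finset.mem_filter] at hf ⊢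
    exact ⟨Cfg.mem_swap.2 (by simpa using hf.1), Intact_swap.2 (by simpa using hf.2.1),
      by simpa using hf.2.2⟩

/-- The crossing lemma for a horizontal line. -/
theorem crossH (hC : C.Ok) (hK : InB C K) {c : ℤ} (hc : c ∈ C.D.H) (k1 : K.l < c) (k2 : c < K.r)
    (c1 : C.D.hlo c < K.b) (c2 : K.a < C.D.hhi c)
    (hfull : ∀ x ∈ C.D.V, K.a < x → x < K.b → C.D.vlo x ≤ K.l → K.r ≤ C.D.vhi x → False) :
    tH C K c + hitH C K c ≤ xH C K c := by
  have := crossV hC.swap hK.swap (c := c) hc k1 k2 c1 c2 hfull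
  rwa [tV_swap, hitV_swap, xV_swap] at this

theorem tH_full {c : ℤ} (hc : c ∈ C.D.H) (h1 : C.D.hlo c ≤ K.a) (h2 : K.b ≤ C.D.hhi c) :
    tH C K c = 0 := by
  have := tV_full (C := C.swap) (K := swapB K) (c := c) hc h1 h2
  rwa [tV_swap] at this

/-- If no root piece goes through `K` and no piece is present, `K` meets only one face. -/
theorem leaf_of_empty (hC : C.Ok) (hK : InB C K) (hI : Irr C K) (hV : ∀ x, ¬ PV C K x)
    (hH : ∀ y, ¬ PH C K y) {f g : Quad} (hf : IsF C.D f) (hg : IsF C.D g) (mf : FMeets f K)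
    (mg : FMeets g K) : f = g := by
  -- no piece meets the open box
  have key : ∀ (C : Cfg) (K : IBox), C.Ok → InB C K → Irr C K → (∀ x, ¬ PV C K x) →
      (∀ y, ¬ PH C K y) → ∀ x ∈ C.D.V, K.a < x → x < K.b → C.D.vlo x < K.r → K.l < C.D.vhi x →
      False := by
    intro C K hC hK hI hV hH x hx h1 h2 h3 h4
    have h5 : ¬ ((∀ h ∈ C.Z, h.xU = x → h.t < K.r) ∧ (∀ h ∈ C.Z, h.xD = x → K.l < h.c)) :=
      fun h => hV x ⟨hx, h1, h2, h3, h4, h.1, h.2⟩
    have hl0 := hK.l0
    have hr1 := hK.r1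
    have h6 : (∃ h ∈ C.Z, h.xU = x ∧ K.r ≤ h.t) ∨ (∃ h ∈ C.Z, h.xD = x ∧ h.c ≤ K.l) := by
      by_contra hcon
      push Not at hcon
      exact h5 hcon
    rcases h6 with ⟨h, hh, e, e2⟩ | ⟨h, hh, e, e2⟩
    · have H := hC.hole h hh
      have eU := H.eU
      have lU := H.lU
      rw [e] at eU lU
      by_cases h7 : C.D.vlo x ≤ K.l
      · exact hI.v x hx h1 h2 h7 (by omega)
      · have hne : C.D.vlo x ≠ C.D.y0 := by omega
        obtain ⟨v1, v2, v3⟩ := (hC.ok.vl x hx).resolve_left hne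
        refine hH (C.D.vlo x) ⟨v1, by omega, by omega, by omega, by omega, ?_, ?_⟩
        · intro z hz ez
          have := (hC.host_lo hx hne hz).1 ez
          omega
        · intro z hz ez
          have := (hC.host_lo hx hne hz).2 ez
          omega
    · have H := hC.hole h hh
      have eU := H.eD
      have lU := H.lD
      rw [e] at eU lU
      by_cases h7 : K.r ≤ C.D.vhi x
      · exact hI.v x hx h1 h2 (by omega) h7
      · have hne : C.D.vhi x ≠ C.D.y1 := by omega
        obtain ⟨v1, v2, v3⟩ := (hC.ok.vh x hx).resolve_left hne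
        refine hH (C.D.vhi x) ⟨v1, by omega, by omega, by omega, by omega, ?_, ?_⟩
        · intro z hz ez
          have := (hC.host_hi hx hne hz).1 ez
          omega
        · intro z hz ez
          have := (hC.host_hi hx hne hz).2 ez
          omega
  have kv := key C K hC hK hI hV hH
  have kh := key C.swap (swapB K) hC.swap hK.swap
    ⟨fun x hx h1 h2 h3 h4 => hI.h x hx h1 h2 h3 h4, fun x hx h1 h2 h3 h4 => hI.v x hx h1 h2 h3 h4⟩
    (fun x h => hH x (PV_swap.1 h)) (fun x h => hV x (PH_swap.1 h))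
  -- every face meeting `K` contains `K`
  have hcont : ∀ f : Quad, IsF C.D f → FMeets f K → f.1 ≤ K.a ∧ K.b ≤ f.2.1 ∧ f.2.2.1 ≤ K.l ∧
      K.r ≤ f.2.2.2 := by
    intro f F m
    obtain ⟨m1, m2, m3, m4⟩ := m
    have ha0 := hK.a0
    have hb1 := hK.b1
    have hl0 := hK.l0
    have hr1 := hK.r1
    have Fab := F.ab
    have Fct := F.ct
    refine ⟨?_, ?_, ?_, ?_⟩
    · by_contra hcon
      rcases F.al with e | ⟨e1, e2, e3⟩
      · omega
      · exact kv f.1 e1 (by omega) (by omega) (by omega) (by omega)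
    · by_contra hcon
      rcases F.bl with e | ⟨e1, e2, e3⟩
      · omega
      · exact kv f.2.1 e1 (by omega) (by omega) (by omega) (by omega)
    · by_contra hcon
      rcases F.cl with e | ⟨e1, e2, e3⟩
      · omega
      · exact kh f.2.2.1 e1 (by simp only [swapB]; omega) (by simp only [swapB]; omega)
          (by simp only [swapB, Cfg.swap, Dis.swap]; omega)
          (by simp only [swapB, Cfg.swap, Dis.swap]; omega)
    · by_contra hcon
      rcases F.tl with e | ⟨e1, e2, e3⟩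
      · omega
      · exact kh f.2.2.2 e1 (by simp only [swapB]; omega) (by simp only [swapB]; omega)
          (by simp only [swapB, Cfg.swap, Dis.swap]; omega)
          (by simp only [swapB, Cfg.swap, Dis.swap]; omega)
  obtain ⟨a1, a2, a3, a4⟩ := hcont f hf mf
  obtain ⟨b1, b2, b3, b4⟩ := hcont g hg mg
  have hab := hK.ab
  have hlr := hK.lr
  exact IsF.unique (p := K.a) (q := K.l) hf hg a1 (by omega) a3 (by omega) b1 (by omega) b3
    (by omega)

end

end Pool.Agent.Helper23.BG
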